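/-
Superlinear growth of Schreier graphs of groups of bounded exponent: definitions.
-/
import Mathlib

set_option autoImplicit false

namespace Pool.Agent.LGU

open scoped Pointwise
open Classical

noncomputable section

variable {G X : Type*} [Group G] [MulAction G X]

/-- a finite symmetric generating set which contains 1 -/
structure Gen (S : Finset G) : Prop where
  one : (1 : G) ∈ S
  inv : ∀ s ∈ S, s⁻¹ ∈ S
  gen : ∀ g : G, ∃ m : ℕ, g ∈ S ^ m

/-- the ball of radius `r` around `x` -/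
def ball (S : Finset G) (x : X) (r : ℕ) : Finset X := (S ^ r).image fun g => g • x

/-- the length of `g` -/
def len (S : Finset G) (g : G) : ℕ := sInf {m | g ∈ S ^ m}

/-- the distance of `x` and `y` -/
def dst (S : Finset G) (x y : X) : ℕ := sInf {m | y ∈ ball S x m}

theorem pow_mono' {S : Finset G} (h : Gen S) {a b : ℕ} (hab : a ≤ b) : S ^ a ⊆ S ^ b :=
  Finset.pow_subset_pow_right h.one hab

theorem inv_mem_pow {S : Finset G} (h : Gen S) {m : ℕ} {g : G} (hg : g ∈ S ^ m) : g⁻¹ ∈ S ^ m := by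
  induction m generalizing g with
  | zero => simp only [pow_zero, Finset.mem_one] at hg ⊢; rw [hg, inv_one]
  | succ m ih =>
    rw [pow_succ, Finset.mem_mul] at hg
    obtain ⟨a, ha, s, hs, rfl⟩ := hg
    rw [mul_inv_rev, pow_succ', Finset.mem_mul]
    exact ⟨s⁻¹, h.inv s hs, a⁻¹, ih ha, rfl⟩

theorem len_mem {S : Finset G} (h : Gen S) (g : G) : g ∈ S ^ len S g :=
  Nat.sInf_mem (s := {m | g ∈ S ^ m}) (h.gen g)

theorem len_le {S : Finset G} {g : G} {m : ℕ} (hg : g ∈ S ^ m) : len S g ≤ m :=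
  Nat.sInf_le (s := {m | g ∈ S ^ m}) hg

theorem mem_pow_iff {S : Finset G} (h : Gen S) {g : G} {m : ℕ} : g ∈ S ^ m ↔ len S g ≤ m :=
  ⟨len_le, fun h1 => pow_mono' h h1 (len_mem h g)⟩

theorem len_mul_le {S : Finset G} (h : Gen S) (a b : G) : len S (a * b) ≤ len S a + len S b := by
  apply len_le
  rw [pow_add]
  exact Finset.mul_mem_mul (len_mem h a) (len_mem h b)

theorem len_inv {S : Finset G} (h : Gen S) (a : G) : len S a⁻¹ = len S a := by
  apply le_antisymm
  · exact len_le (inv_mem_pow h (len_mem h a))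
  · have h1 := len_le (inv_mem_pow h (len_mem h a⁻¹))
    rwa [inv_inv] at h1

theorem len_one {S : Finset G} : len S (1 : G) = 0 := by
  have h1 : len S (1 : G) ≤ 0 := len_le (by rw [pow_zero]; exact Finset.mem_one.2 rfl)
  omega

theorem mem_ball_iff' {S : Finset G} (x y : X) (r : ℕ) : y ∈ ball S x r ↔ ∃ g ∈ S ^ r, g • x = y := by
  unfold ball
  rw [Finset.mem_image]

theorem ball_mono {S : Finset G} (h : Gen S) (x : X) {a b : ℕ} (hab : a ≤ b) :
    ball S x a ⊆ ball S x b :=
  Finset.image_subset_image (pow_mono' h hab)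

theorem exists_mem_ball {S : Finset G} (h : Gen S) [MulAction.IsPretransitive G X] (x y : X) :
    ∃ m, y ∈ ball S x m := by
  obtain ⟨g, hg⟩ := MulAction.exists_smul_eq G x y
  obtain ⟨m, hm⟩ := h.gen g
  exact ⟨m, (mem_ball_iff' x y m).2 ⟨g, hm, hg⟩⟩

/-- the ball in terms of the distance -/
theorem mem_ball {S : Finset G} (h : Gen S) [MulAction.IsPretransitive G X] (x y : X) (r : ℕ) :
    y ∈ ball S x r ↔ dst S x y ≤ r := by
  constructor
  · intro h1
    exact Nat.sInf_le (s := {m | y ∈ ball S x m}) h1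
  · intro h1
    exact ball_mono h x h1 (Nat.sInf_mem (s := {m | y ∈ ball S x m}) (exists_mem_ball h x y))

/-- a shortest word -/
theorem exists_word {S : Finset G} (h : Gen S) [MulAction.IsPretransitive G X] (x y : X) :
    ∃ g : G, g • x = y ∧ len S g ≤ dst S x y := by
  obtain ⟨g, hg, hgx⟩ := (mem_ball_iff' x y _).1 ((mem_ball h x y _).2 le_rfl)
  exact ⟨g, hgx, len_le hg⟩

theorem dst_smul_le {S : Finset G} (h : Gen S) [MulAction.IsPretransitive G X] (x : X) (g : G) :
    dst S x (g • x) ≤ len S g :=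
  (mem_ball h _ _ _).1 ((mem_ball_iff' _ _ _).2 ⟨g, len_mem h g, rfl⟩)

theorem dst_comm {S : Finset G} (h : Gen S) [MulAction.IsPretransitive G X] (x y : X) :
    dst S x y = dst S y x := by
  have key : ∀ x y : X, dst S x y ≤ dst S y x := by
    intro x y
    obtain ⟨g, hg, hl⟩ := exists_word h y x
    have h1 : y = g⁻¹ • x := by rw [← hg, inv_smul_smul]
    calc dst S x y = dst S x (g⁻¹ • x) := by rw [← h1]
      _ ≤ len S g⁻¹ := dst_smul_le h x _
      _ ≤ _ := by rw [len_inv h]; exact hl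
  exact le_antisymm (key x y) (key y x)

theorem dst_triangle {S : Finset G} (h : Gen S) [MulAction.IsPretransitive G X] (x y z : X) :
    dst S x z ≤ dst S x y + dst S y z := by
  obtain ⟨a, ha, hla⟩ := exists_word h x y
  obtain ⟨b, hb, hlb⟩ := exists_word h y z
  have h1 : z = (b * a) • x := by rw [mul_smul, ha, hb]
  calc dst S x z = dst S x ((b * a) • x) := by rw [← h1]
    _ ≤ len S (b * a) := dst_smul_le h x _
    _ ≤ len S b + len S a := len_mul_le h b a
    _ ≤ _ := by omega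

theorem dst_self {S : Finset G} (h : Gen S) [MulAction.IsPretransitive G X] (x : X) :
    dst S x x = 0 := by
  have h1 := dst_smul_le h x (1 : G)
  rw [one_smul, len_one] at h1
  omega

theorem eq_of_dst {S : Finset G} (h : Gen S) [MulAction.IsPretransitive G X] {x y : X}
    (hxy : dst S x y = 0) : x = y := by
  obtain ⟨g, hg, hl⟩ := exists_word h x y
  have h1 : len S g ≤ 0 := by omega
  have h2 := (mem_pow_iff h).2 h1
  rw [pow_zero, Finset.mem_one] at h2
  rw [← hg, h2, one_smul]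

/-- `β` changes by at most 1 along an edge, hence it is 1-Lipschitz -/
def Lip (S : Finset G) (β : X → ℤ) : Prop := ∀ x y : X, |β x - β y| ≤ dst S x y

/-- `γ` is a geodesic on the interval `[a,b]` -/
def Geo (S : Finset G) (a b : ℤ) (γ : ℤ → X) : Prop :=
  ∀ s t, a ≤ s → s ≤ t → t ≤ b → (dst S (γ s) (γ t) : ℤ) = t - s

/-- `γ` is a geodesic line -/
def GeoL (S : Finset G) (γ : ℤ → X) : Prop := ∀ s t, s ≤ t → (dst S (γ s) (γ t) : ℤ) = t - s

/-- no condition (in Lib/LGT this is the condition that `G ⧸ H` has linear growth; the files of this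
folder are adapted from there) -/
structure GrL (S : Finset G) (C : ℕ) (H : Subgroup G) : Prop where
  triv : True

/-- `g r` is the minimal number of points of a ball of radius `r` around the middle of a geodesic of
length `2 r`, and `g r / (r + 1)` tends to its supremum `c`. -/
structure Min (S : Finset G) (C : ℕ) (g : ℕ → ℕ) (c : ℝ) : Prop where
  lo : ∀ (H : Subgroup G), GrL S C H → ∀ (γ : ℤ → G ⧸ H) (t : ℤ) (r : ℕ), Geo S (t - r) (t + r) γ →
    g r ≤ (ball S (γ t) r).card
  att : ∀ r : ℕ, ∃ H : Subgroup G, GrL S C H ∧ ∃ γ : ℤ → G ⧸ H, Geo S (-r) r γ ∧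
    (ball S (γ 0) r).card = g r
  sup : ∀ r : ℕ, (g r : ℝ) ≤ c * (r + 1)
  lim : ∀ η : ℝ, 0 < η → ∃ R : ℕ, ∀ r : ℕ, R ≤ r → (c - η) * (r + 1) ≤ g r
  one : 1 ≤ c

/-- the ultrafilter -/
abbrev 𝒰 : Ultrafilter ℕ := Filter.hyperfilter ℕ

/-- tends to infinity along the ultrafilter -/
def Inf (r : ℕ → ℕ) : Prop := ∀ M : ℕ, ∀ᶠ i in (𝒰 : Filter ℕ), M ≤ r i

/-- `γ` is a geodesic line, the balls around `γ 0` have nearly the minimal size -/
structure NSys (S : Finset G) (C : ℕ) (c : ℝ) (H : Subgroup G) (γ : ℤ → G ⧸ H) : Prop where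
  gr : GrL S C H
  geo : GeoL S γ
  good : ∀ ε : ℝ, 0 < ε → ∃ R : ℕ, ∀ ρ : ℕ, R ≤ ρ → ((ball S (γ 0) ρ).card : ℝ) ≤ (c + ε) * ρ

/-- size of a ball on the line plus the defect of the slope of `β` -/
def FF (S : Finset G) {X : Type*} [MulAction G X] (γ : ℤ → X) (β : X → ℤ) (t : ℤ) (ρ : ℕ) : ℝ :=
  (ball S (γ t) ρ).card + (2 * ρ - ((β (γ (t + ρ)) : ℝ) - β (γ (t - ρ))))

/-- the cycle length of `x` under `g` -/
def per (g : G) (x : X) : ℕ := Function.minimalPeriod (fun y => g • y) x

end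

end Pool.Agent.LGU
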