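/-
Superlinear growth of Schreier graphs of groups of bounded exponent: the rows of the proof.
-/
import Pool.Agent.Lib.LGU.Defs
import Pool.Agent.Lib.QLN.Final

set_option autoImplicit false

namespace Pool.Agent.LGU

open scoped Pointwise
open Classical

noncomputable section

/-- the base point -/
abbrev bp {G : Type} [Group G] (H : Subgroup G) : G ⧸ H := ((1 : G) : G ⧸ H)

/-- `K` is the limit of the stabilisers of the points `x i`, `u • bp K` is the limit of `u • x i` -/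
structure Lim {G : Type} [Group G] (S : Finset G) (H : ℕ → Subgroup G) (x : ∀ i, G ⧸ H i)
    (K : Subgroup G) : Prop where
  eq : ∀ u v : G, u • bp K = v • bp K ↔ ∀ᶠ i in (𝒰 : Filter ℕ), u • x i = v • x i
  card : ∀ (u : G) (r : ℕ), ∀ᶠ i in (𝒰 : Filter ℕ),
    (ball S (u • bp K) r).card = (ball S (u • x i) r).card
  dist : ∀ u v : G, ∀ᶠ i in (𝒰 : Filter ℕ), dst S (u • bp K) (v • bp K) = dst S (u • x i) (v • x i)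
  gr : ∀ C : ℕ, (∀ᶠ i in (𝒰 : Filter ℕ), GrL S C (H i)) → GrL S C K
  pt : ∀ (y : ∀ i, G ⧸ H i) (M : ℕ), (∀ᶠ i in (𝒰 : Filter ℕ), dst S (x i) (y i) ≤ M) →
    ∃ u : G, ∀ᶠ i in (𝒰 : Filter ℕ), u • x i = y i
  cyc : ∀ n : ℕ, 0 < n → (∀ a : G, a ^ n = 1) → ∀ w u : G,
    ∀ᶠ i in (𝒰 : Filter ℕ), per w (u • bp K) = per w (u • x i)
  fn : ∀ β : ∀ i, G ⧸ H i → ℤ, (∀ i, Lip S (β i)) → ∃ β' : G ⧸ K → ℤ, Lip S β' ∧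
    ∀ u : G, ∀ᶠ i in (𝒰 : Filter ℕ), β' (u • bp K) = β i (u • x i) - β i (x i)
  geo : ∀ (γ : ∀ i, ℤ → G ⧸ H i) (t : ℕ → ℤ) (r : ℕ → ℕ), Inf r →
    (∀ᶠ i in (𝒰 : Filter ℕ), γ i (t i) = x i) →
    (∀ᶠ i in (𝒰 : Filter ℕ), Geo S (t i - r i) (t i + r i) (γ i)) →
    ∃ γ' : ℤ → G ⧸ K, GeoL S γ' ∧ γ' 0 = bp K ∧
      ∀ (s : ℤ) (u : G), u • bp K = γ' s → ∀ᶠ i in (𝒰 : Filter ℕ), u • x i = γ i (t i + s)

/-- Row LIM -/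
def RowLIM : Prop := ∀ (G : Type) [Group G] (S : Finset G), Gen S →
  ∀ (H : ℕ → Subgroup G) (x : ∀ i, G ⧸ H i), ∃ K : Subgroup G, Lim S H x K

/-- Row GR: if arbitrarily long geodesics have a small ball around the middle -/
def RowGR : Prop := ∀ (G : Type) [Group G] (S : Finset G), Gen S → ∀ C : ℕ,
  (∀ R : ℕ, ∃ r : ℕ, R ≤ r ∧ ∃ (H : Subgroup G) (γ : ℤ → G ⧸ H), Geo S (-r) r γ ∧
    (ball S (γ 0) r).card ≤ C * r) → ∃ (g : ℕ → ℕ) (c : ℝ), Min S C g c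

/-- Row GP: pure combinatorics of intervals -/
def RowGP : Prop := ∀ (g : ℕ → ℕ) (c ζ : ℝ), 0 < c → 0 < ζ → (∀ r : ℕ, (g r : ℝ) ≤ c * (r + 1)) →
  (∀ η : ℝ, 0 < η → ∃ R : ℕ, ∀ r : ℕ, R ≤ r → (c - η) * (r + 1) ≤ g r) →
  ∃ R : ℕ → ℕ, ∀ K : ℕ, ∃ ε : ℝ, 0 < ε ∧ ∃ S₀ : ℕ, ∀ (s : ℕ) (F : ℤ → ℕ → ℝ), S₀ ≤ s →
    (∀ J : Finset (ℤ × ℕ), (∀ a ∈ J, |a.1| + a.2 ≤ s) →
      (∀ a ∈ J, ∀ b ∈ J, a ≠ b → ((a.2 : ℤ) + b.2) < |a.1 - b.1|) → ∑ a ∈ J, F a.1 a.2 ≤ F 0 s) →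
    (∀ (t : ℤ) (ρ : ℕ), |t| + ρ ≤ s → (g ρ : ℝ) ≤ F t ρ) → F 0 s ≤ (c + ε) * s →
    ∃ t : ℤ, ((|t| : ℤ) : ℝ) ≤ ζ * s ∧ ∀ k ≤ K, ∀ ρ : ℕ, R k ≤ ρ → 2 * ρ ≤ s →
      F t ρ ≤ (c + 1 / ((k : ℝ) + 1)) * ρ

/-- all windows around `t i` of radius at most `r i` are nearly minimal -/
def Good {G X : Type} [Group G] [MulAction G X] (S : Finset G) (c : ℝ) (γ : ℤ → X) (β : ℕ → X → ℤ)
    (t : ℕ → ℤ) (r : ℕ → ℕ) : Prop :=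
  ∀ ε : ℝ, 0 < ε → ∃ R : ℕ, ∀ᶠ i in (𝒰 : Filter ℕ), ∀ ρ : ℕ, R ≤ ρ → ρ ≤ r i →
    FF S γ (β i) (t i) ρ ≤ (c + ε) * ρ

/-- all balls around `γ (t i)` of radius at most `r i` are nearly minimal -/
def GoodB {G X : Type} [Group G] [MulAction G X] (S : Finset G) (c : ℝ) (γ : ℤ → X)
    (t : ℕ → ℤ) (r : ℕ → ℕ) : Prop :=
  ∀ ε : ℝ, 0 < ε → ∃ R : ℕ, ∀ᶠ i in (𝒰 : Filter ℕ), ∀ ρ : ℕ, R ≤ ρ → ρ ≤ r i →
    ((ball S (γ (t i)) ρ).card : ℝ) ≤ (c + ε) * ρ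

/-- Row MOVE: near a nearly minimal window there is a good point -/
def RowMOVE : Prop := ∀ (G : Type) [Group G] (S : Finset G) (C : ℕ) (g : ℕ → ℕ) (c : ℝ), Gen S →
  Min S C g c → ∀ (H : Subgroup G) (γ : ℤ → G ⧸ H) (β : ℕ → G ⧸ H → ℤ) (τ : ℕ → ℤ) (s : ℕ → ℕ),
    GrL S C H → GeoL S γ → (∀ i, Lip S (β i)) → Inf s →
    (∀ ε : ℝ, 0 < ε → ∀ᶠ i in (𝒰 : Filter ℕ), FF S γ (β i) (τ i) (s i) ≤ (c + ε) * s i) →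
    ∃ t : ℕ → ℤ, (∀ᶠ i in (𝒰 : Filter ℕ), 16 * |t i - τ i| ≤ s i) ∧
      Good S c γ β t (fun i => s i / 2)

/-- Row SUB: windows of a nearly minimal window are nearly minimal -/
def RowSUB : Prop := ∀ (G : Type) [Group G] (S : Finset G) (C : ℕ) (g : ℕ → ℕ) (c : ℝ), Gen S →
  Min S C g c → ∀ (M : ℕ) (ε : ℝ), 0 < ε → ∃ δ : ℝ, 0 < δ ∧ ∃ R : ℕ,
    ∀ (H : Subgroup G) (γ : ℤ → G ⧸ H) (t τ : ℤ) (s ρ : ℕ), GrL S C H →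
      Geo S (t - ρ) (t + ρ) γ → R ≤ s → ρ ≤ M * s → |τ - t| + s ≤ ρ →
      (((ball S (γ t) ρ).card : ℝ) ≤ (c + δ) * ρ → ((ball S (γ τ) s).card : ℝ) ≤ (c + ε) * s) ∧
      ∀ β : G ⧸ H → ℤ, Lip S β → FF S γ β t ρ ≤ (c + δ) * ρ → FF S γ β τ s ≤ (c + ε) * s

/-- Row LINE: nearly minimal windows are close to the line -/
def RowLINE : Prop := ∀ (G : Type) [Group G] (S : Finset G) (C : ℕ) (g : ℕ → ℕ) (c : ℝ), Gen S →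
  Min S C g c → ∀ ε : ℝ, 0 < ε → ∃ δ : ℝ, 0 < δ ∧ ∃ R : ℕ,
    ∀ (H : Subgroup G) (γ : ℤ → G ⧸ H) (t : ℤ) (ρ : ℕ), GrL S C H → Geo S (t - ρ) (t + ρ) γ →
      R ≤ ρ →
      (((ball S (γ t) ρ).card : ℝ) ≤ (c + δ) * ρ → ∀ x : G ⧸ H, 2 * dst S (γ t) x ≤ ρ →
        ∃ s : ℤ, |s - t| ≤ ρ ∧ (dst S (γ s) x : ℝ) ≤ ε * ρ) ∧
      ∀ β : G ⧸ H → ℤ, Lip S β → FF S γ β t ρ ≤ (c + δ) * ρ →
        (∀ x z : G ⧸ H, 2 * dst S (γ t) x ≤ ρ → 2 * dst S (γ t) z ≤ ρ →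
          (dst S x z : ℝ) ≤ |(β x : ℝ) - β z| + ε * ρ) ∧
        ∀ s s' : ℤ, t - ρ ≤ s → s ≤ s' → s' ≤ t + ρ →
          (s' : ℝ) - s - ε * ρ ≤ (β (γ s') : ℝ) - β (γ s)

/-- Row EXA -/
def RowEXA : Prop := ∀ (G : Type) [Group G] (S : Finset G) (C : ℕ) (g : ℕ → ℕ) (c : ℝ), Gen S →
  Min S C g c → ∃ (H : Subgroup G) (γ : ℤ → G ⧸ H), NSys S C c H γ

/-- the context: all cycles have length at most `L`, and near each good sequence there is a cycle of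
length `L` -/
structure Ctx {G : Type} [Group G] (S : Finset G) (n C L : ℕ) (g : ℕ → ℕ) (c : ℝ) (H : Subgroup G)
    (γ : ℤ → G ⧸ H) : Prop where
  gen : Gen S
  pos : 0 < n
  exp : ∀ a : G, a ^ n = 1
  min : Min S C g c
  nsys : NSys S C c H γ
  two : 2 ≤ L
  le : ∀ (w : G) (x : G ⧸ H), per w x ≤ L
  ex : ∀ (t : ℕ → ℤ) (r : ℕ → ℕ), Inf r → GoodB S c γ t r →
    ∃ u w : G, ∀ᶠ i in (𝒰 : Filter ℕ), per w (u • γ (t i)) = L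

/-- Row EXB -/
def RowEXB : Prop := ∀ (G : Type) [Group G] (S : Finset G) (n C : ℕ) (g : ℕ → ℕ) (c : ℝ), Gen S →
  0 < n → (∀ a : G, a ^ n = 1) → Min S C g c →
  (∃ (H : Subgroup G) (γ : ℤ → G ⧸ H), NSys S C c H γ) →
  ∃ (L : ℕ) (H : Subgroup G) (γ : ℤ → G ⧸ H), Ctx S n C L g c H γ

/-- a nonconstant harmonic function with bounded gradient -/
def Harm {G X : Type} [Group G] [MulAction G X] (S : Finset G) (f : X → ℝ) : Prop :=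
  (∀ s ∈ S, ∀ x, |f (s • x) - f x| ≤ 1) ∧ (∀ x, ∑ s ∈ S, (f (s • x) - f x) = 0) ∧
    ∃ x y, f x ≠ f y

/-- Row HARM -/
def RowHARM : Prop := ∀ (G : Type) [Group G] (S : Finset G) (C : ℕ) (g : ℕ → ℕ) (c : ℝ), Gen S →
  Min S C g c → ∀ (H : Subgroup G) (γ : ℤ → G ⧸ H), NSys S C c H γ →
    ∃ f : G ⧸ H → ℝ, Harm S f

/-- Row POLY -/
def RowPOLY : Prop := ∀ (G : Type) [Group G] (S : Finset G) (n A : ℕ), Gen S → 0 < n →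
  (∀ a : G, a ^ n = 1) → ∀ (H : Subgroup G) (x₁ : G ⧸ H),
    (∀ r : ℕ, (ball S x₁ r).card ≤ A * (r + 1)) → (∃ f : G ⧸ H → ℝ, Harm S f) →
    ∀ (x₀ : G ⧸ H) (W : ℕ), ∃ h : G, (∀ y ∈ ball S x₀ W, h • y = y) ∧ ∃ x : G ⧸ H, h • x ≠ x

/-- Row INA: the distance to the support of an element -/
def RowINA : Prop := ∀ (G : Type) [Group G] (S : Finset G) (n L : ℕ), Gen S → 0 < n →
  (∀ a : G, a ^ n = 1) → 2 ≤ L → ∀ H : Subgroup G, (∀ (w : G) (x : G ⧸ H), per w x ≤ L) →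
  ∀ f : G, (∃ x : G ⧸ H, f • x ≠ x) → ∃ β : G ⧸ H → ℤ, Lip S β ∧
    (∀ x, ∃ y, f • y ≠ y ∧ (dst S x y : ℤ) = β x) ∧ (∀ x y, f • y ≠ y → β x ≤ dst S x y) ∧
    ∀ (w : G) (q : G ⧸ H), per w q = L → ∀ v : G, ∃ j₁ j₂ : Fin L, j₁ ≠ j₂ ∧
      (∀ j : Fin L, β (v • w ^ (j₁ : ℕ) • q) ≤ β (v • w ^ (j : ℕ) • q)) ∧
      β (v • w ^ (j₂ : ℕ) • q) = β (v • w ^ (j₁ : ℕ) • q)

/-- tuples such that the lowest height is attained twice at all translates -/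
structure Tup {G X : Type} [Group G] [MulAction G X] (S : Finset G) {L : ℕ} (β : ℕ → X → ℤ)
    (p : ℕ → Fin L → X) : Prop where
  lip : ∀ i, Lip S (β i)
  inj : ∀ᶠ i in (𝒰 : Filter ℕ), Function.Injective (p i)
  two : ∀ᶠ i in (𝒰 : Filter ℕ), ∀ v : G, ∃ j₁ j₂ : Fin L, j₁ ≠ j₂ ∧
    (∀ j : Fin L, β i (v • p i j₁) ≤ β i (v • p i j)) ∧ β i (v • p i j₂) = β i (v • p i j₁)

/-- the points of the tuple with index in `K` are near a good point of the line, the other ones are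
much higher -/
structure State {G X : Type} [Group G] [MulAction G X] (S : Finset G) (c : ℝ) (γ : ℤ → X) {L : ℕ}
    (β : ℕ → X → ℤ) (p : ℕ → Fin L → X) (K : Finset (Fin L)) (j₀ : Fin L) (v : ℕ → G) (t : ℕ → ℤ)
    (r : ℕ → ℕ) : Prop where
  mem : j₀ ∈ K
  pt : ∀ᶠ i in (𝒰 : Filter ℕ), v i • p i j₀ = γ (t i)
  inf : Inf r
  good : Good S c γ β t r
  near : ∀ j ∈ K, ∀ δ : ℝ, 0 < δ → ∀ᶠ i in (𝒰 : Filter ℕ),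
    (dst S (γ (t i)) (v i • p i j) : ℝ) ≤ δ * r i
  far : ∀ j, j ∉ K → ∀ᶠ i in (𝒰 : Filter ℕ), β i (γ (t i)) + 4 * r i ≤ β i (v i • p i j)

/-- Row INB -/
def RowINB : Prop := ∀ (G : Type) [Group G] (S : Finset G) (n C L : ℕ) (g : ℕ → ℕ) (c : ℝ)
  (H : Subgroup G) (γ : ℤ → G ⧸ H), Ctx S n C L g c H γ →
  (∀ W : ℕ, ∃ h : G, (∀ y ∈ ball S (γ 0) W, h • y = y) ∧ ∃ x : G ⧸ H, h • x ≠ x) →
  ∃ (γ' : ℤ → G ⧸ H) (β : ℕ → G ⧸ H → ℤ) (p : ℕ → Fin L → G ⧸ H) (j₀ : Fin L) (v : ℕ → G)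
    (t : ℕ → ℤ) (r : ℕ → ℕ), GeoL S γ' ∧ Tup (G := G) S β p ∧
      State S c γ' β p Finset.univ j₀ v t r

/-- the spread stays small compared with the distance from the good point -/
def NoSpread {G X : Type} [Group G] [MulAction G X] (S : Finset G) (γ : ℤ → X) {L : ℕ}
    (p : ℕ → Fin L → X) (K : Finset (Fin L)) (j₀ : Fin L) (v : ℕ → G) (t : ℕ → ℤ)
    (r : ℕ → ℕ) : Prop :=
  ∀ (u : ℕ → G) (M : ℕ) (s : ℕ → ℕ), Inf s → (∀ᶠ i in (𝒰 : Filter ℕ), 8 * len S (u i) ≤ r i) →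
    (∀ᶠ i in (𝒰 : Filter ℕ), ∃ j ∈ K, s i ≤ dst S (u i • v i • p i j₀) (u i • v i • p i j)) →
    (∀ᶠ i in (𝒰 : Filter ℕ), dst S (γ (t i)) (u i • v i • p i j₀) ≤ M * s i) → False

/-- A proper part `K'` of the tuple is concentrated (diameter `o(s i)`) while all other points are
higher by `4 s i`. -/
structure Pre {G X : Type} [Group G] [MulAction G X] (S : Finset G) (γ : ℤ → X) {L : ℕ}
    (β : ℕ → X → ℤ) (p : ℕ → Fin L → X) (K : Finset (Fin L)) (v : ℕ → G) (t : ℕ → ℤ) (r : ℕ → ℕ)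
    (K' : Finset (Fin L)) (u : ℕ → G) (s : ℕ → ℕ) : Prop where
  sub : K' ⊂ K
  ne : K'.Nonempty
  inf : Inf s
  loc : ∃ M : ℕ, ∀ j ∈ K', ∀ᶠ i in (𝒰 : Filter ℕ), dst S (γ (t i)) (u i • v i • p i j) ≤ M * s i
  diam : ∀ j ∈ K', ∀ j' ∈ K', ∀ δ : ℝ, 0 < δ → ∀ᶠ i in (𝒰 : Filter ℕ),
    (dst S (u i • v i • p i j) (u i • v i • p i j') : ℝ) ≤ δ * s i
  far : ∀ j, j ∉ K' → ∀ j' ∈ K', ∀ᶠ i in (𝒰 : Filter ℕ),
    β i (u i • v i • p i j') + 4 * s i ≤ β i (u i • v i • p i j)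
  len : ∀ᶠ i in (𝒰 : Filter ℕ), 4 * (len S (u i) + s i) ≤ r i

/-- Row LEFT: the lowest cluster -/
def RowLEFT : Prop := ∀ (G : Type) [Group G] (S : Finset G) (C L : ℕ) (g : ℕ → ℕ) (c : ℝ), Gen S →
  Min S C g c → ∀ (H : Subgroup G) (γ : ℤ → G ⧸ H) (β : ℕ → G ⧸ H → ℤ) (p : ℕ → Fin L → G ⧸ H),
    GrL S C H → GeoL S γ → (∀ i, Lip S (β i)) →
    ∀ (K : Finset (Fin L)) (j₀ : Fin L) (v : ℕ → G) (t : ℕ → ℤ) (r : ℕ → ℕ),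
      State S c γ β p K j₀ v t r →
      ∀ (K₁ : Finset (Fin L)) (u : ℕ → G) (σ : ℕ → ℕ) (M : ℕ) (δ : ℝ), K₁ ⊆ K → Inf σ →
        (∀ j ∈ K₁, ∀ᶠ i in (𝒰 : Filter ℕ), dst S (γ (t i)) (u i • v i • p i j) ≤ M * σ i) →
        0 < δ → (∃ j ∈ K₁, ∃ j' ∈ K₁, ∀ᶠ i in (𝒰 : Filter ℕ),
          δ * σ i ≤ dst S (u i • v i • p i j) (u i • v i • p i j')) →
        (∀ j, j ∉ K₁ → ∀ j' ∈ K₁, ∀ᶠ i in (𝒰 : Filter ℕ),
          β i (u i • v i • p i j') + σ i ≤ β i (u i • v i • p i j)) →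
        (∀ᶠ i in (𝒰 : Filter ℕ), 4 * len S (u i) + σ i ≤ r i) →
        ∃ (K' : Finset (Fin L)) (s : ℕ → ℕ), K' ⊂ K₁ ∧ Pre S γ β p K v t r K' u s

/-- Row CLAIM -/
def RowCLAIM : Prop := ∀ (G : Type) [Group G] (S : Finset G) (C L : ℕ) (g : ℕ → ℕ) (c : ℝ), Gen S →
  Min S C g c → ∀ (H : Subgroup G) (γ : ℤ → G ⧸ H) (β : ℕ → G ⧸ H → ℤ) (p : ℕ → Fin L → G ⧸ H),
    GrL S C H → GeoL S γ → Tup (G := G) S β p →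
    ∀ (K : Finset (Fin L)) (j₀ : Fin L) (v : ℕ → G) (t : ℕ → ℤ) (r : ℕ → ℕ),
      State S c γ β p K j₀ v t r →
      (∀ (K' : Finset (Fin L)) (j₀' : Fin L) (v' : ℕ → G) (t' : ℕ → ℤ) (r' : ℕ → ℕ),
        State S c γ β p K' j₀' v' t' r' → K.card ≤ K'.card) →
      NoSpread (G := G) S γ p K j₀ v t r

/-- two points of sublinear distance at all translates -/
structure Pair {G : Type} [Group G] (S : Finset G) (C : ℕ) (c : ℝ) (H : Subgroup G) (k : G)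
    (γ : ℤ → G ⧸ H) (β : G ⧸ H → ℤ) : Prop where
  gr : GrL S C H
  geo : GeoL S γ
  zero : γ 0 = bp H
  lip : Lip S β
  bzero : β (bp H) = 0
  good : ∀ ε : ℝ, 0 < ε → ∃ R : ℕ, ∀ ρ : ℕ, R ≤ ρ → FF S γ β 0 ρ ≤ (c + ε) * ρ
  ne : k ∉ H
  dist : ∀ θ : ℝ, 0 < θ → ∃ R : ℕ, ∀ v : G,
    (dst S (v • bp H) (v • k • bp H) : ℝ) ≤ θ * dst S (bp H) (v • bp H) + R

/-- Row PAIR -/
def RowPAIR : Prop := ∀ (G : Type) [Group G] (S : Finset G) (C L : ℕ) (c : ℝ), Gen S →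
  ∀ (H : Subgroup G) (γ : ℤ → G ⧸ H) (β : ℕ → G ⧸ H → ℤ) (p : ℕ → Fin L → G ⧸ H),
    GrL S C H → GeoL S γ → Tup (G := G) S β p →
    ∀ (K : Finset (Fin L)) (j₀ : Fin L) (v : ℕ → G) (t : ℕ → ℤ) (r : ℕ → ℕ),
      State S c γ β p K j₀ v t r → NoSpread (G := G) S γ p K j₀ v t r →
      ∃ (H' : Subgroup G) (k : G) (γ' : ℤ → G ⧸ H') (β' : G ⧸ H' → ℤ), Pair S C c H' k γ' β'

/-- Row HALF -/
def RowHALF : Prop := ∀ (G : Type) [Group G] (S : Finset G) (C : ℕ) (g : ℕ → ℕ) (c : ℝ), Gen S →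
  Min S C g c → ∀ (H : Subgroup G) (k : G) (γ : ℤ → G ⧸ H) (β : G ⧸ H → ℤ), Pair S C c H k γ β →
    Finite (G ⧸ (H ⊔ Subgroup.zpowers k))

/-- Row ENDB: a transitive graph with more than one end -/
def RowENDB : Prop := ∀ (Y K : Type) [Group K] [MulAction K Y] (adj : Y → Y → Prop) (A : Set Y),
  (∀ x y, adj x y → adj y x) → (∀ (h : K) (x y : Y), adj x y → adj (h • x) (h • y)) →
  (∀ x y : Y, ∃ h : K, h • x = y) → (∀ x y, Relation.ReflTransGen adj x y) →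
  (∀ x, {y | adj x y}.Finite) → A.Infinite → Aᶜ.Infinite →
  {x | ∃ y, adj x y ∧ (x ∈ A ∧ y ∉ A ∨ x ∉ A ∧ y ∈ A)}.Finite →
  ∃ h : K, ∀ m : ℕ, 0 < m → h ^ m ≠ 1

/-- Row ENDA -/
def RowENDA : Prop := ∀ (G : Type) [Group G] (S : Finset G) (C : ℕ) (g : ℕ → ℕ) (c : ℝ), Gen S →
  Min S C g c → ∀ (H : Subgroup G) (k : G) (γ : ℤ → G ⧸ H) (β : G ⧸ H → ℤ), Pair S C c H k γ β →
    Finite (G ⧸ (H ⊔ Subgroup.zpowers k)) → ∃ h : G, ∀ m : ℕ, 0 < m → h ^ m ≠ 1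

/-- Row UNIF -/
def RowUNIF.{w, z} : Prop :=
  (∀ (G : Type) [Group G] (S : Finset G) (n C : ℕ), Gen S → 0 < n → (∀ a : G, a ^ n = 1) →
    ∃ R : ℕ, ∀ r : ℕ, R ≤ r → ∀ (H : Subgroup G) (γ : ℤ → G ⧸ H), Geo S (-r) r γ →
      C * r < (ball S (γ 0) r).card) →
  ∀ m n C : ℕ, 0 < n → ∃ R : ℕ, ∀ (G : Type w) (X : Type z) [Group G] [MulAction G X]
    (e : Fin m → G), Subgroup.closure (Set.range e) = ⊤ → (∀ a : G, a ^ n = 1) → ∀ (x : X) (r : ℕ),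
      R ≤ r → (∀ y ∈ MulAction.orbit G x, QLN.Within (Set.range e) r x y) ∨
        ((C * r : ℕ) : ℕ∞) < {z | QLN.Within (Set.range e) r x z}.encard

end

end Pool.Agent.LGU
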