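import Pool.Agent.Lib.LGU.Rows

/-!
# Row ENDB: a transitive graph with more than one end has an automorphism of infinite order
(helper80)
-/

set_option autoImplicit false

namespace Pool.Agent.LGU

open scoped Pointwise
open Classical

namespace EndB

variable {Y K : Type} [Group K] [MulAction K Y]

/-- a step inside `F` -/
def stp (adj : Y → Y → Prop) (F : Set Y) (x y : Y) : Prop := adj x y ∧ x ∈ F ∧ y ∈ F

theorem stp_symm {adj : Y → Y → Prop} (hs : ∀ x y, adj x y → adj y x) {F : Set Y} {x y : Y}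
    (h : stp adj F x y) : stp adj F y x := ⟨hs _ _ h.1, h.2.2, h.2.1⟩

theorem rtg_symm {adj : Y → Y → Prop} (hs : ∀ x y, adj x y → adj y x) {F : Set Y} {x y : Y}
    (h : Relation.ReflTransGen (stp adj F) x y) : Relation.ReflTransGen (stp adj F) y x := by
  induction h with
  | refl => exact Relation.ReflTransGen.refl
  | tail _ h2 ih => exact Relation.ReflTransGen.head (stp_symm hs h2) ih

theorem rtg_mono {adj : Y → Y → Prop} {F F' : Set Y} (hF : F ⊆ F') {x y : Y}
    (h : Relation.ReflTransGen (stp adj F) x y) : Relation.ReflTransGen (stp adj F') x y := by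
  induction h with
  | refl => exact Relation.ReflTransGen.refl
  | tail _ h2 ih => exact ih.tail ⟨h2.1, hF h2.2.1, hF h2.2.2⟩

/-- a finite connected set containing `o` can be enlarged by one point -/
theorem add_point {adj : Y → Y → Prop} (hs : ∀ x y, adj x y → adj y x) {o x : Y} {F : Set Y}
    (hF : F.Finite) (ho : o ∈ F) (hc : ∀ y ∈ F, Relation.ReflTransGen (stp adj F) y o)
    (hx : Relation.ReflTransGen adj o x) :
    ∃ F' : Set Y, F'.Finite ∧ F ⊆ F' ∧ x ∈ F' ∧
      ∀ y ∈ F', Relation.ReflTransGen (stp adj F') y o := by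
  induction hx with
  | refl => exact ⟨F, hF, subset_rfl, ho, hc⟩
  | @tail b c _ hbc ih =>
    obtain ⟨F1, h1, h2, h3, h4⟩ := ih
    refine ⟨insert c F1, h1.insert c, h2.trans (Set.subset_insert c F1), Set.mem_insert c F1, ?_⟩
    intro y hy
    have hb : Relation.ReflTransGen (stp adj (insert c F1)) b o :=
      rtg_mono (Set.subset_insert c F1) (h4 b h3)
    rcases Set.mem_insert_iff.1 hy with rfl | hy1
    · exact Relation.ReflTransGen.head
        ⟨hs _ _ hbc, Set.mem_insert _ _, Set.mem_insert_of_mem _ h3⟩ hb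
    · exact rtg_mono (Set.subset_insert c F1) (h4 y hy1)

/-- a finite connected set which contains a given finite set -/
theorem fin_conn {adj : Y → Y → Prop} (hs : ∀ x y, adj x y → adj y x)
    (hconn : ∀ x y, Relation.ReflTransGen adj x y) (o : Y) {B : Set Y} (hB : B.Finite) :
    ∃ F : Set Y, F.Finite ∧ o ∈ F ∧ B ⊆ F ∧
      ∀ y ∈ F, Relation.ReflTransGen (stp adj F) y o := by
  induction B, hB using Set.Finite.induction_on with
  | empty =>
    refine ⟨{o}, Set.finite_singleton o, rfl, Set.empty_subset _, ?_⟩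
    intro y hy
    rw [Set.mem_singleton_iff.1 hy]
  | @insert a s _ _ ih =>
    obtain ⟨F, h1, h2, h3, h4⟩ := ih
    obtain ⟨F', h5, h6, h7, h8⟩ := add_point hs h1 h2 h4 (hconn o a)
    exact ⟨F', h5, h6 h2, Set.insert_subset h7 (h3.trans h6), h8⟩

/-- points reachable by at most `n` steps -/
def rch (adj : Y → Y → Prop) (x : Y) : ℕ → Set Y
  | 0 => {x}
  | n + 1 => rch adj x n ∪ ⋃ y ∈ rch adj x n, {z | adj y z}

theorem rch_finite {adj : Y → Y → Prop} (hf : ∀ x, {y | adj x y}.Finite) (x : Y) (n : ℕ) :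
    (rch adj x n).Finite := by
  induction n with
  | zero => exact Set.finite_singleton x
  | succ n ih => exact ih.union (ih.biUnion fun y _ => hf y)

theorem rch_mono {adj : Y → Y → Prop} (x : Y) {m n : ℕ} (h : m ≤ n) :
    rch adj x m ⊆ rch adj x n := by
  induction h with
  | refl => exact subset_rfl
  | step _ ih => exact ih.trans Set.subset_union_left

theorem exists_rch {adj : Y → Y → Prop} {x y : Y} (h : Relation.ReflTransGen adj x y) :
    ∃ n, y ∈ rch adj x n := by
  induction h with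
  | refl => exact ⟨0, rfl⟩
  | @tail b c _ hbc ih =>
    obtain ⟨n, hn⟩ := ih
    exact ⟨n + 1, Or.inr (Set.mem_biUnion hn hbc)⟩

theorem rch_smul {adj : Y → Y → Prop} (he : ∀ (h : K) (x y : Y), adj x y → adj (h • x) (h • y))
    (h : K) (x y : Y) (n : ℕ) (hy : y ∈ rch adj x n) : h • y ∈ rch adj (h • x) n := by
  induction n generalizing y with
  | zero => rw [Set.mem_singleton_iff.1 hy]; rfl
  | succ n ih =>
    rcases hy with hy | hy
    · exact Or.inl (ih y hy)
    · obtain ⟨z, hz, hzy⟩ := Set.mem_iUnion₂.1 hy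
      exact Or.inr (Set.mem_biUnion (ih z hz) (he h z y hzy))

/-- the boundary -/
def bd (adj : Y → Y → Prop) (A : Set Y) : Set Y :=
  {x | ∃ y, adj x y ∧ (x ∈ A ∧ y ∉ A ∨ x ∉ A ∧ y ∈ A)}

/-- a connected set which misses the boundary is on one side -/
theorem one_side {adj : Y → Y → Prop} {A C : Set Y} {o x : Y}
    (hC : ∀ z ∈ C, z ∉ bd adj A) (h : Relation.ReflTransGen (stp adj C) x o) :
    x ∈ A ↔ o ∈ A := by
  induction h with
  | refl => exact Iff.rfl
  | @tail b c _ hbc ih =>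
    rw [ih]
    have hb : b ∉ bd adj A := hC b hbc.2.1
    constructor
    · intro h1
      by_contra h2
      exact hb ⟨c, hbc.1, Or.inl ⟨h1, h2⟩⟩
    · intro h1
      by_contra h2
      exact hb ⟨c, hbc.1, Or.inr ⟨h2, h1⟩⟩

theorem bd_smul {adj : Y → Y → Prop} (he : ∀ (h : K) (x y : Y), adj x y → adj (h • x) (h • y))
    (h : K) (A : Set Y) {x : Y} (hx : x ∈ bd adj (h • A)) : h⁻¹ • x ∈ bd adj A := by
  obtain ⟨y, hxy, hA⟩ := hx
  refine ⟨h⁻¹ • y, he h⁻¹ x y hxy, ?_⟩
  simpa only [Set.mem_smul_set_iff_inv_smul_mem] using hA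

/-- the main step -/
theorem step {adj : Y → Y → Prop} (he : ∀ (h : K) (x y : Y), adj x y → adj (h • x) (h • y))
    (ht : ∀ x y : Y, ∃ h : K, h • x = y) (hconn : ∀ x y, Relation.ReflTransGen adj x y)
    (hf : ∀ x, {y | adj x y}.Finite) {o : Y} {F : Set Y} (hF : F.Finite)
    (hc : ∀ y ∈ F, Relation.ReflTransGen (stp adj F) y o) {B : Set Y} (hB : B.Infinite)
    (hbd : bd adj B ⊆ F) (hFB : (F ∩ B).Nonempty) :
    ∃ h : K, h • B ⊂ B ∨ h • Bᶜ ⊂ B := by
  -- a radius
  obtain ⟨k, hk⟩ : ∃ k : ℕ, ∀ f ∈ F, o ∈ rch adj f k := by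
    choose n hn using fun f : Y => exists_rch (hconn f o)
    refine ⟨hF.toFinset.sup n, fun f hfF => ?_⟩
    exact rch_mono f (Finset.le_sup (f := n) (hF.mem_toFinset.2 hfF)) (hn f)
  have hD : (⋃ f ∈ F, rch adj f k).Finite := hF.biUnion fun f _ => rch_finite hf f k
  obtain ⟨y, hyB, hyD⟩ := hB.exists_notMem_finite hD
  obtain ⟨h, hh⟩ := ht o y
  -- `h F` misses `F`
  have hmiss : ∀ f ∈ F, h⁻¹ • f ∉ F := by
    intro f hf1 hf2
    apply hyD
    refine Set.mem_biUnion hf1 ?_
    have h1 := rch_smul he h (h⁻¹ • f) o k (hk _ hf2)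
    rwa [smul_inv_smul, hh] at h1
  -- the translate of a path
  have htr : ∀ z ∈ h • F, Relation.ReflTransGen (stp adj (h • F)) z (h • o) := by
    intro z hz
    obtain ⟨w, hw, rfl⟩ := hz
    have h1 := hc w hw
    induction h1 using Relation.ReflTransGen.head_induction_on with
    | refl => exact Relation.ReflTransGen.refl
    | @head a c hac _ ih =>
      exact Relation.ReflTransGen.head ⟨he h a c hac.1, ⟨a, hac.2.1, rfl⟩, ⟨c, hac.2.2, rfl⟩⟩
        (ih hac.2.2)
  have hFB' : ∀ z ∈ h • F, z ∈ B := by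
    intro z hz
    rw [one_side (A := B) (C := h • F) ?_ (htr z hz), hh]
    · exact hyB
    · intro w hw hw2
      exact hmiss w (hbd hw2) (Set.mem_smul_set_iff_inv_smul_mem.1 hw)
  -- `Bᶜ ∪ F` is connected
  have hC : ∀ x ∈ Bᶜ ∪ F, Relation.ReflTransGen (stp adj (Bᶜ ∪ F)) x o := by
    intro x hx
    have h1 := hconn x o
    induction h1 using Relation.ReflTransGen.head_induction_on with
    | refl => exact Relation.ReflTransGen.refl
    | @head a c hac _ ih =>
      by_cases haF : a ∈ F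
      · exact rtg_mono Set.subset_union_right (hc a haF)
      · have haB : a ∉ B := by
          rcases hx with hx | hx
          · exact hx
          · exact absurd hx haF
        have hcB : c ∉ B := by
          intro hcB
          exact haF (hbd ⟨c, hac, Or.inr ⟨haB, hcB⟩⟩)
        exact Relation.ReflTransGen.head ⟨hac, Or.inl haB, Or.inl hcB⟩ (ih (Or.inl hcB))
  have hCm : ∀ z ∈ Bᶜ ∪ F, z ∉ bd adj (h • B) := by
    intro z hz hz2
    have h1 : h⁻¹ • z ∈ F := hbd (bd_smul he h B hz2)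
    have h2 : z ∈ h • F := Set.mem_smul_set_iff_inv_smul_mem.2 h1
    rcases hz with hz | hz
    · exact hz (hFB' z h2)
    · exact hmiss z hz h1
  have hside : ∀ x ∈ Bᶜ ∪ F, (x ∈ h • B ↔ o ∈ h • B) := fun x hx =>
    one_side hCm (hC x hx)
  obtain ⟨w, hwF, hwB⟩ := hFB
  refine ⟨h, ?_⟩
  by_cases hoB : o ∈ h • B
  · right
    rw [Set.ssubset_iff_exists]
    refine ⟨?_, w, hwB, ?_⟩
    · intro x hx
      by_contra hxB
      have h1 : x ∈ h • B := (hside x (Or.inl hxB)).2 hoB
      rw [Set.mem_smul_set_iff_inv_smul_mem] at hx h1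
      exact hx h1
    · intro hw
      have h1 : w ∈ h • B := (hside w (Or.inr hwF)).2 hoB
      rw [Set.mem_smul_set_iff_inv_smul_mem] at hw h1
      exact hw h1
  · left
    rw [Set.ssubset_iff_exists]
    refine ⟨?_, w, hwB, ?_⟩
    · intro x hx
      by_contra hxB
      exact hoB ((hside x (Or.inl hxB)).1 hx)
    · intro hw
      exact hoB ((hside w (Or.inr hwF)).1 hw)

theorem smul_ssub {A B : Set Y} (h : K) (hAB : A ⊂ B) : h • A ⊂ h • B := by
  rw [Set.ssubset_iff_exists] at hAB ⊢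
  obtain ⟨h1, w, hw, hw2⟩ := hAB
  refine ⟨Set.smul_set_mono h1, h • w, ⟨w, hw, rfl⟩, ?_⟩
  intro h3
  rw [Set.mem_smul_set_iff_inv_smul_mem, inv_smul_smul] at h3
  exact hw2 h3

/-- a translate which is strictly inside gives infinite order -/
theorem inf_order {B : Set Y} {h : K} (hB : h • B ⊂ B) : ∀ m : ℕ, 0 < m → h ^ m ≠ 1 := by
  have key : ∀ m : ℕ, h ^ (m + 1) • B ⊂ B := by
    intro m
    induction m with
    | zero => simpa using hB
    | succ m ih =>
      rw [pow_succ', mul_smul]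
      exact (smul_ssub h ih).trans hB
  intro m hm hm1
  obtain ⟨k, rfl⟩ : ∃ k, m = k + 1 := ⟨m - 1, by omega⟩
  have h1 := key k
  rw [hm1, one_smul] at h1
  exact (lt_irrefl B) h1

end EndB

/-- Row ENDB -/
theorem rowENDB' : RowENDB := by
  intro Y K _ _ adj A hs he ht hconn hf hA hAc hfin
  obtain ⟨a, ha⟩ := hA.nonempty
  obtain ⟨b, hb⟩ := hAc.nonempty
  -- a crossing edge
  obtain ⟨x, y, hxy, hx, hy⟩ : ∃ x y, adj x y ∧ x ∈ A ∧ y ∉ A := by
    by_contra hno
    simp only [not_exists, not_and, not_not] at hno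
    have h1 : ∀ z, Relation.ReflTransGen adj a z → z ∈ A := by
      intro z hz
      induction hz with
      | refl => exact ha
      | tail _ h2 ih => exact hno _ _ h2 ih
    exact hb (h1 b (hconn a b))
  obtain ⟨F, hF, ho, hbd, hc⟩ := EndB.fin_conn hs hconn a (B := EndB.bd adj A) hfin
  have hxF : x ∈ F := hbd ⟨y, hxy, Or.inl ⟨hx, hy⟩⟩
  have hyF : y ∈ F := hbd ⟨x, hs _ _ hxy, Or.inr ⟨hy, hx⟩⟩
  have hbd' : EndB.bd adj Aᶜ ⊆ F := by
    rintro z ⟨w, hzw, hw⟩
    refine hbd ⟨w, hzw, ?_⟩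
    simp only [Set.mem_compl_iff, not_not] at hw
    tauto
  obtain ⟨h₁, h1 | h1⟩ := EndB.step he ht hconn hf hF hc hA hbd ⟨x, hxF, hx⟩
  · exact ⟨h₁, EndB.inf_order h1⟩
  obtain ⟨h₂, h2 | h2⟩ := EndB.step he ht hconn hf hF hc hAc hbd' ⟨y, hyF, hy⟩
  · exact ⟨h₂, EndB.inf_order h2⟩
  rw [compl_compl] at h2
  refine ⟨h₂ * h₁, EndB.inf_order (B := Aᶜ) ?_⟩
  rw [mul_smul]
  exact (EndB.smul_ssub h₂ h1).trans h2

end Pool.Agent.LGU
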