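/-
Schreier graphs of linear growth: basic lemmas about balls and windows on a geodesic.
-/
import Pool.Agent.Lib.LGU.Rows

set_option autoImplicit false

namespace Pool.Agent.LGU

open scoped Pointwise
open Classical

noncomputable section

theorem bas_subset {G X : Type*} [Group G] [MulAction G X] {S : Finset G} (h : Gen S)
    [MulAction.IsPretransitive G X] {x y : X} {a b : ℕ} (hab : dst S x y + a ≤ b) :
    ball S y a ⊆ ball S x b := by
  intro z hz
  rw [mem_ball h] at hz ⊢
  have := dst_triangle h x y z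
  omega

theorem bas_disj {G X : Type*} [Group G] [MulAction G X] {S : Finset G} (h : Gen S)
    [MulAction.IsPretransitive G X] {x y : X} {a b : ℕ} (hab : a + b < dst S x y) :
    Disjoint (ball S x a) (ball S y b) := by
  rw [Finset.disjoint_left]
  intro z hz hz'
  rw [mem_ball h] at hz hz'
  have := dst_triangle h x z y
  have := dst_comm h z y
  omega

/-- an infinite transitive space: a ball of radius `r` has at least `r + 1` points -/
theorem bas_card {G X : Type*} [Group G] [MulAction G X] {S : Finset G} (h : Gen S)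
    [MulAction.IsPretransitive G X] [Infinite X] (x : X) (r : ℕ) : r + 1 ≤ (ball S x r).card := by
  induction r with
  | zero =>
    have : x ∈ ball S x 0 := (mem_ball h _ _ _).2 (by rw [dst_self h])
    exact Finset.card_pos.2 ⟨x, this⟩
  | succ r ih =>
    by_contra hc
    have h1 : (ball S x (r + 1)).card ≤ (ball S x r).card := by omega
    have h2 : ball S x r = ball S x (r + 1) :=
      Finset.eq_of_subset_of_card_le (ball_mono h x (Nat.le_succ r)) h1
    have h3 : ∀ (m : ℕ) (y : X), y ∈ ball S x m → y ∈ ball S x r := by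
      intro m
      induction m with
      | zero => intro y hy; exact ball_mono h x (Nat.zero_le r) hy
      | succ m ihm =>
        intro y hy
        obtain ⟨g, hg, hgx⟩ := (mem_ball_iff' _ _ _).1 hy
        rw [pow_succ', Finset.mem_mul] at hg
        obtain ⟨s, hs, a, ha, rfl⟩ := hg
        have h4 := ihm (a • x) ((mem_ball_iff' _ _ _).2 ⟨a, ha, rfl⟩)
        obtain ⟨b, hb, hbx⟩ := (mem_ball_iff' _ _ _).1 h4
        rw [h2]
        refine (mem_ball_iff' _ _ _).2 ⟨s * b, ?_, ?_⟩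
        · rw [pow_succ']; exact Finset.mul_mem_mul hs hb
        · rw [mul_smul, hbx, ← mul_smul, hgx]
    have h5 : (Set.univ : Set X) ⊆ ball S x r := by
      intro y _
      obtain ⟨m, hm⟩ := exists_mem_ball h x y
      exact h3 m y hm
    exact Set.infinite_univ ((ball S x r).finite_toSet.subset h5)

/-- a ball of radius `r` has at least `r + 1` points if some point is far away -/
theorem bas_card' {G X : Type*} [Group G] [MulAction G X] {S : Finset G} (h : Gen S)
    [MulAction.IsPretransitive G X] (x y : X) (r : ℕ) (hy : r ≤ dst S x y) :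
    r + 1 ≤ (ball S x r).card := by
  induction r with
  | zero =>
    have : x ∈ ball S x 0 := (mem_ball h _ _ _).2 (by rw [dst_self h])
    exact Finset.card_pos.2 ⟨x, this⟩
  | succ r ih =>
    have ih' := ih (by omega)
    by_contra hc
    have h1 : (ball S x (r + 1)).card ≤ (ball S x r).card := by omega
    have h2 : ball S x r = ball S x (r + 1) :=
      Finset.eq_of_subset_of_card_le (ball_mono h x (Nat.le_succ r)) h1
    have h3 : ∀ (m : ℕ) (y : X), y ∈ ball S x m → y ∈ ball S x r := by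
      intro m
      induction m with
      | zero => intro y hy; exact ball_mono h x (Nat.zero_le r) hy
      | succ m ihm =>
        intro y hy
        obtain ⟨g, hg, hgx⟩ := (mem_ball_iff' _ _ _).1 hy
        rw [pow_succ', Finset.mem_mul] at hg
        obtain ⟨s, hs, a, ha, rfl⟩ := hg
        have h4 := ihm (a • x) ((mem_ball_iff' _ _ _).2 ⟨a, ha, rfl⟩)
        obtain ⟨b, hb, hbx⟩ := (mem_ball_iff' _ _ _).1 h4
        rw [h2]
        refine (mem_ball_iff' _ _ _).2 ⟨s * b, ?_, ?_⟩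
        · rw [pow_succ']; exact Finset.mul_mem_mul hs hb
        · rw [mul_smul, hbx, ← mul_smul, hgx]
    obtain ⟨m, hm⟩ := exists_mem_ball h x y
    have h5 := (mem_ball h _ _ _).1 (h3 m y hm)
    omega

/-- distances on a geodesic -/
theorem bas_geo {G X : Type*} [Group G] [MulAction G X] {S : Finset G} (h : Gen S)
    [MulAction.IsPretransitive G X] {a b : ℤ} {γ : ℤ → X} (hγ : Geo S a b γ) {s t : ℤ} (hs : a ≤ s)
    (hs' : s ≤ b) (ht : a ≤ t) (ht' : t ≤ b) : (dst S (γ s) (γ t) : ℤ) = |s - t| := by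
  rcases le_total s t with hst | hst
  · rw [hγ s t hs hst ht', abs_sub_comm, abs_of_nonneg (by omega)]
  · rw [dst_comm h, hγ t s ht hst hs', abs_of_nonneg (by omega)]

theorem bas_geoL {G X : Type*} [Group G] [MulAction G X] {S : Finset G} {γ : ℤ → X}
    (hγ : GeoL S γ) (a b : ℤ) : Geo S a b γ := fun s t _ h _ => hγ s t h

theorem bas_geo_mono {G X : Type*} [Group G] [MulAction G X] {S : Finset G} {γ : ℤ → X}
    {a b a' b' : ℤ} (hγ : Geo S a b γ) (ha : a ≤ a') (hb : b' ≤ b) : Geo S a' b' γ :=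
  fun s t h1 h2 h3 => hγ s t (by omega) h2 (by omega)

/-- balls around the centres of disjoint windows -/
theorem bas_sum_card {G X : Type*} [Group G] [MulAction G X] {S : Finset G} (h : Gen S)
    [MulAction.IsPretransitive G X] {γ : ℤ → X} {t : ℤ} {ρ : ℕ} (hγ : Geo S (t - ρ) (t + ρ) γ)
    (J : Finset (ℤ × ℕ)) (hJ : ∀ a ∈ J, |a.1| + a.2 ≤ ρ)
    (hd : ∀ a ∈ J, ∀ b ∈ J, a ≠ b → ((a.2 : ℤ) + b.2) < |a.1 - b.1|) :
    ∑ a ∈ J, (ball S (γ (t + a.1)) a.2).card ≤ (ball S (γ t) ρ).card := by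
  rw [← Finset.card_biUnion]
  · refine Finset.card_le_card ?_
    rw [Finset.biUnion_subset]
    intro a ha
    apply bas_subset h
    have h1 := hJ a ha
    have h2 := abs_le.1 (show |a.1| ≤ (ρ : ℤ) by omega)
    have h3 := bas_geo h hγ (s := t) (t := t + a.1) (by omega) (by omega) (by omega) (by omega)
    have h4 : |t - (t + a.1)| = |a.1| := by rw [← abs_neg]; congr 1; ring
    rw [h4] at h3
    omega
  · intro a ha b hb hab
    apply bas_disj h
    have h1 := hJ a ha
    have h1' := hJ b hb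
    have h2 := abs_le.1 (show |a.1| ≤ (ρ : ℤ) by omega)
    have h2' := abs_le.1 (show |b.1| ≤ (ρ : ℤ) by omega)
    have h3 := bas_geo h hγ (s := t + a.1) (t := t + b.1) (by omega) (by omega) (by omega) (by omega)
    have h4 : |t + a.1 - (t + b.1)| = |a.1 - b.1| := by congr 1; ring
    rw [h4] at h3
    have h5 := hd a ha b hb hab
    omega

/-- the slope defects of disjoint windows -/
theorem bas_sum_defect {f : ℤ → ℤ} {t : ℤ} {ρ : ℕ}
    (hf : ∀ x, t - ρ ≤ x → x < t + ρ → f (x + 1) - f x ≤ 1)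
    (J : Finset (ℤ × ℕ)) (hJ : ∀ a ∈ J, |a.1| + a.2 ≤ ρ)
    (hd : ∀ a ∈ J, ∀ b ∈ J, a ≠ b → ((a.2 : ℤ) + b.2) < |a.1 - b.1|) :
    ∑ a ∈ J, (2 * (a.2 : ℤ) - (f (t + a.1 + a.2) - f (t + a.1 - a.2))) ≤
      2 * ρ - (f (t + ρ) - f (t - ρ)) := by
  have key : ∀ (x : ℤ) (m : ℕ), (m : ℤ) - (f (x + m) - f x) =
      ∑ y ∈ Finset.Ico x (x + m), (1 - (f (y + 1) - f y)) := by
    intro x m
    induction m with
    | zero => simp
    | succ m ih =>
      have h1 : Finset.Ico x (x + ((m + 1 : ℕ) : ℤ)) = insert (x + m) (Finset.Ico x (x + m)) := by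
        ext y
        simp only [Finset.mem_Ico, Finset.mem_insert]
        push_cast
        omega
      rw [h1, Finset.sum_insert (by simp), ← ih]
      push_cast
      ring_nf
  have key2 : ∀ (x : ℤ) (m : ℕ), 2 * (m : ℤ) - (f (x + m) - f (x - m)) =
      ∑ y ∈ Finset.Ico (x - m) (x + m), (1 - (f (y + 1) - f y)) := by
    intro x m
    have h1 := key (x - m) (2 * m)
    have h2 : x - (m : ℤ) + ((2 * m : ℕ) : ℤ) = x + m := by push_cast; ring
    rw [h2] at h1
    rw [← h1]
    push_cast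
    ring
  rw [key2 t ρ]
  calc ∑ a ∈ J, (2 * (a.2 : ℤ) - (f (t + a.1 + a.2) - f (t + a.1 - a.2)))
      = ∑ a ∈ J, ∑ y ∈ Finset.Ico (t + a.1 - a.2) (t + a.1 + a.2), (1 - (f (y + 1) - f y)) :=
        Finset.sum_congr rfl fun a _ => key2 _ _
    _ = ∑ y ∈ J.biUnion fun a => Finset.Ico (t + a.1 - a.2) (t + a.1 + a.2),
          (1 - (f (y + 1) - f y)) := by
        rw [Finset.sum_biUnion]
        intro a ha b hb hab
        rw [Function.onFun, Finset.disjoint_left]
        intro y hy hy'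
        rw [Finset.mem_Ico] at hy hy'
        have h5 := hd a ha b hb hab
        rcases abs_cases (a.1 - b.1) with ⟨h6, _⟩ | ⟨h6, _⟩ <;> omega
    _ ≤ _ := by
        apply Finset.sum_le_sum_of_subset_of_nonneg
        · rw [Finset.biUnion_subset]
          intro a ha y hy
          rw [Finset.mem_Ico] at hy ⊢
          have h1 := hJ a ha
          rcases abs_cases a.1 with ⟨h6, _⟩ | ⟨h6, _⟩ <;> omega
        · intro y hy _
          rw [Finset.mem_Ico] at hy
          have := hf y hy.1 hy.2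
          omega

theorem bas_step {G X : Type*} [Group G] [MulAction G X] {S : Finset G} {γ : ℤ → X} {β : X → ℤ}
    {a b : ℤ} (hγ : Geo S a b γ) (hβ : Lip S β) (x : ℤ) (hx : a ≤ x) (hx' : x < b) :
    β (γ (x + 1)) - β (γ x) ≤ 1 := by
  have h1 := hγ x (x + 1) hx (by omega) (by omega)
  have h2 := abs_le.1 (hβ (γ x) (γ (x + 1)))
  omega

/-- the slope defect is not negative -/
theorem bas_defect {G X : Type*} [Group G] [MulAction G X] {S : Finset G} {γ : ℤ → X} {β : X → ℤ}
    {t : ℤ} {ρ : ℕ} (hγ : Geo S (t - ρ) (t + ρ) γ) (hβ : Lip S β) :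
    β (γ (t + ρ)) - β (γ (t - ρ)) ≤ 2 * ρ := by
  have h1 := hγ (t - ρ) (t + ρ) le_rfl (by omega) le_rfl
  have h2 := abs_le.1 (hβ (γ (t - ρ)) (γ (t + ρ)))
  omega

theorem bas_card_le_FF {G X : Type*} [Group G] [MulAction G X] {S : Finset G} {γ : ℤ → X}
    {β : X → ℤ} {t : ℤ} {ρ : ℕ} (hγ : Geo S (t - ρ) (t + ρ) γ) (hβ : Lip S β) :
    ((ball S (γ t) ρ).card : ℝ) ≤ FF S γ β t ρ := by
  unfold FF
  have h1 := bas_defect hγ hβ
  have h2 : (β (γ (t + ρ)) : ℝ) - β (γ (t - ρ)) ≤ 2 * ρ := by exact_mod_cast h1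
  linarith

/-- the function `FF` is superadditive -/
theorem bas_sum_FF {G X : Type*} [Group G] [MulAction G X] {S : Finset G} (h : Gen S)
    [MulAction.IsPretransitive G X] {γ : ℤ → X} {β : X → ℤ} {t : ℤ} {ρ : ℕ}
    (hγ : Geo S (t - ρ) (t + ρ) γ) (hβ : Lip S β)
    (J : Finset (ℤ × ℕ)) (hJ : ∀ a ∈ J, |a.1| + a.2 ≤ ρ)
    (hd : ∀ a ∈ J, ∀ b ∈ J, a ≠ b → ((a.2 : ℤ) + b.2) < |a.1 - b.1|) :
    ∑ a ∈ J, FF S γ β (t + a.1) a.2 ≤ FF S γ β t ρ := by
  have h1 := bas_sum_card h hγ J hJ hd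
  have h2 := bas_sum_defect (f := fun x => β (γ x)) (t := t) (ρ := ρ)
    (fun x hx hx' => bas_step hγ hβ x hx hx') J hJ hd
  have h1' : (∑ a ∈ J, ((ball S (γ (t + a.1)) a.2).card : ℝ)) ≤ (ball S (γ t) ρ).card := by
    exact_mod_cast h1
  have h2' : (∑ a ∈ J, (2 * (a.2 : ℝ) - ((β (γ (t + a.1 + a.2)) : ℝ) - β (γ (t + a.1 - a.2))))) ≤
      2 * ρ - ((β (γ (t + ρ)) : ℝ) - β (γ (t - ρ))) := by
    have := (Int.cast_le (R := ℝ)).2 h2
    push_cast at this
    exact this
  unfold FF
  rw [Finset.sum_add_distrib]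
  exact add_le_add h1' h2'

end

end Pool.Agent.LGU
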