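/-
Schreier graphs of linear growth: row GR, the minimal ball sizes.
-/
import Pool.Agent.Lib.LGU.Rows

set_option autoImplicit false

namespace Pool.Agent.LGU

open scoped Pointwise
open Classical

noncomputable section

section

variable {G X : Type*} [Group G] [MulAction G X] [MulAction.IsPretransitive G X] {S : Finset G}

private theorem gr_pred (h : Gen S) (x : X) (m : ℕ) : ∀ y : X, dst S x y = m + 1 →
    ∃ z : X, dst S x z = m ∧ dst S z y = 1 := by
  intro y hy
  have h1 : y ∈ ball S x (m + 1) := (mem_ball h x y _).2 hy.le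
  obtain ⟨g, hg, rfl⟩ := (mem_ball_iff' x y _).1 h1
  rw [pow_succ', Finset.mem_mul] at hg
  obtain ⟨s, hs, a, ha, rfl⟩ := hg
  have h2 : dst S x (a • x) ≤ m := (mem_ball h _ _ _).1 ((mem_ball_iff' _ _ _).2 ⟨a, ha, rfl⟩)
  have h3 : dst S (a • x) ((s * a) • x) ≤ 1 := by
    rw [mul_smul]
    refine (dst_smul_le h (a • x) s).trans (len_le ?_)
    rwa [pow_one]
  have h4 := dst_triangle h x (a • x) ((s * a) • x)
  exact ⟨a • x, by omega, by omega⟩

private theorem gr_path (h : Gen S) (x : X) (m : ℕ) : ∀ y : X, dst S x y = m →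
    ∃ p : ℕ → X, p m = y ∧ (∀ i ≤ m, dst S x (p i) = i) ∧
      ∀ i < m, dst S (p i) (p (i + 1)) = 1 := by
  induction m with
  | zero =>
    intro y hy
    exact ⟨fun _ => y, rfl, fun i hi => by rw [hy]; omega, fun i hi => by omega⟩
  | succ m ih =>
    intro y hy
    obtain ⟨z, hz, hzy⟩ := gr_pred h x m y hy
    obtain ⟨p, hp, hp1, hp2⟩ := ih z hz
    refine ⟨fun i => if i ≤ m then p i else y, by simp, fun i hi => ?_, fun i hi => ?_⟩
    · by_cases h1 : i ≤ m
      · simp only [h1, if_true]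
        exact hp1 i h1
      · simp only [h1, if_false]
        rw [hy]
        omega
    · by_cases h1 : i + 1 ≤ m
      · have h2 : i ≤ m := by omega
        simp only [h1, h2, if_true]
        exact hp2 i (by omega)
      · have h2 : i = m := by omega
        subst h2
        simp only [le_refl, if_true, h1, if_false, hp]
        exact hzy

private theorem gr_steps (h : Gen S) (p : ℕ → X) (m : ℕ)
    (hp : ∀ i < m, dst S (p i) (p (i + 1)) = 1) (i k : ℕ) (hk : i + k ≤ m) :
    dst S (p i) (p (i + k)) ≤ k := by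
  induction k with
  | zero => rw [add_zero, dst_self h]
  | succ k ih =>
    have h1 := ih (by omega)
    have h2 := hp (i + k) (by omega)
    have h3 := dst_triangle h (p i) (p (i + k)) (p (i + (k + 1)))
    have h4 : dst S (p (i + k)) (p (i + (k + 1))) = 1 := h2
    omega

/-- a geodesic of length `2 * r` which starts at `x` -/
theorem gr_geo (h : Gen S) (r : ℕ) (x y : X) (hy : 2 * r ≤ dst S x y) :
    ∃ γ : ℤ → X, Geo S (-r) r γ ∧ γ (-r) = x := by
  obtain ⟨y, hy⟩ : ∃ y : X, dst S x y = 2 * r := by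
    obtain ⟨p, hp, hp1, hp2⟩ := gr_path h x _ y rfl
    exact ⟨p (2 * r), hp1 _ hy⟩
  obtain ⟨p, hp, hp1, hp2⟩ := gr_path h x _ y hy
  refine ⟨fun t => p (t + r).toNat, fun s t hs hst ht => ?_, by
    show p (-(r : ℤ) + r).toNat = x
    have h0 := hp1 0 (by omega)
    rw [neg_add_cancel, Int.toNat_zero]
    exact (eq_of_dst h h0).symm⟩
  show (dst S (p (s + r).toNat) (p (t + r).toNat) : ℤ) = t - s
  have e1 : (((s + r).toNat : ℕ) : ℤ) = s + r := Int.toNat_of_nonneg (by omega)
  have e2 : (((t + r).toNat : ℕ) : ℤ) = t + r := Int.toNat_of_nonneg (by omega)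
  generalize (s + (r : ℤ)).toNat = a at e1 ⊢
  generalize (t + (r : ℤ)).toNat = b at e2 ⊢
  have hab : a ≤ b := by omega
  have hb : b ≤ 2 * r := by omega
  obtain ⟨k, rfl⟩ := Nat.exists_eq_add_of_le hab
  have h1 := gr_steps h p (2 * r) hp2 a k hb
  have h2 := hp1 a (by omega)
  have h3 := hp1 (a + k) hb
  have h4 := dst_triangle h x (p a) (p (a + k))
  have h5 : dst S (p a) (p (a + k)) = k := by omega
  rw [h5]
  omega

private theorem gr_zero (h : Gen S) (x : X) : (ball S x 0).card ≤ 1 := by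
  rw [Finset.card_le_one]
  intro a ha b hb
  have h1 := (mem_ball h _ _ _).1 ha
  have h2 := (mem_ball h _ _ _).1 hb
  rw [← eq_of_dst h (Nat.le_zero.1 h1), ← eq_of_dst h (Nat.le_zero.1 h2)]

private theorem gr_center (h : Gen S) (x : X) (r : ℕ) : 1 ≤ (ball S x r).card := by
  rw [Nat.one_le_iff_ne_zero, ← Nat.pos_iff_ne_zero, Finset.card_pos]
  exact ⟨x, (mem_ball h x x r).2 (by rw [dst_self h]; omega)⟩

end

private theorem gr_geo_dst {G X : Type*} [Group G] [MulAction G X] {S : Finset G} {a b : ℤ}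
    {γ : ℤ → X} (hγ : Geo S a b γ) (s t : ℤ) (hs : a ≤ s) (hst : s ≤ t) (ht : t ≤ b) :
    (dst S (γ s) (γ t) : ℤ) = t - s := hγ s t hs hst ht

/-- the numbers of points of the balls -/
private def grSet {G : Type} [Group G] (S : Finset G) (C r : ℕ) : Set ℕ :=
  {m | ∃ H : Subgroup G, GrL S C H ∧ ∃ γ : ℤ → G ⧸ H, Geo S (-r) r γ ∧
    (ball S (γ 0) r).card = m}

/-- the hypothesis of row GR -/
private def grHyp {G : Type} [Group G] (S : Finset G) (C : ℕ) : Prop :=
  ∀ R : ℕ, ∃ r : ℕ, R ≤ r ∧ ∃ (H : Subgroup G) (γ : ℤ → G ⧸ H), Geo S (-r) r γ ∧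
    (ball S (γ 0) r).card ≤ C * r

private theorem gr_nonempty {G : Type} [Group G] {S : Finset G} (C : ℕ)
    (hH : grHyp S C) (r : ℕ) : (grSet S C r).Nonempty := by
  obtain ⟨r', hr', H, γ, hγ, _⟩ := hH r
  exact ⟨_, H, ⟨trivial⟩, γ, fun s t hs hst ht => hγ s t (by omega) hst (by omega), rfl⟩

private theorem gr_lo {G : Type} [Group G] {S : Finset G} (C : ℕ)
    (H : Subgroup G) (hH : GrL S C H) (γ : ℤ → G ⧸ H) (t : ℤ) (r : ℕ)
    (hγ : Geo S (t - r) (t + r) γ) : sInf (grSet S C r) ≤ (ball S (γ t) r).card := by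
  apply Nat.sInf_le
  refine ⟨H, hH, fun s => γ (s + t), fun a b ha hab hb => ?_, ?_⟩
  · have h1 := hγ (a + t) (b + t) (by omega) (by omega) (by omega)
    show (dst S (γ (a + t)) (γ (b + t)) : ℤ) = b - a
    rw [h1]
    ring
  · show (ball S (γ (0 + t)) r).card = _
    rw [zero_add]

private theorem gr_super {G : Type} [Group G] {S : Finset G} (h : Gen S) (C : ℕ)
    (hH₀ : grHyp S C) (r s : ℕ) :
    sInf (grSet S C r) + sInf (grSet S C s) ≤ sInf (grSet S C (r + s + 1)) := by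
  obtain ⟨H, hH, γ, hγ, hcard⟩ := Nat.sInf_mem (gr_nonempty C hH₀ (r + s + 1))
  rw [← hcard]
  have h1 := gr_lo C H hH γ (-(s : ℤ) - 1) r (fun a b ha hab hb =>
    hγ a b (by push_cast; omega) hab (by push_cast; omega))
  have h2 := gr_lo C H hH γ ((r : ℤ) + 1) s (fun a b ha hab hb =>
    hγ a b (by push_cast; omega) hab (by push_cast; omega))
  have d0 : (dst S (γ (-(s : ℤ) - 1)) (γ ((r : ℤ) + 1)) : ℤ) = r + s + 2 := by
    rw [hγ (-(s : ℤ) - 1) ((r : ℤ) + 1) (by push_cast; omega) (by omega) (by push_cast; omega)]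
    ring
  have d1 : (dst S (γ (-(s : ℤ) - 1)) (γ 0) : ℤ) = s + 1 := by
    rw [hγ (-(s : ℤ) - 1) 0 (by push_cast; omega) (by omega) (by push_cast; omega)]
    ring
  have d2 : (dst S (γ 0) (γ ((r : ℤ) + 1)) : ℤ) = r + 1 := by
    rw [hγ 0 ((r : ℤ) + 1) (by push_cast; omega) (by omega) (by push_cast; omega)]
    ring
  have hdisj : Disjoint (ball S (γ (-(s : ℤ) - 1)) r) (ball S (γ ((r : ℤ) + 1)) s) := by
    rw [Finset.disjoint_left]
    intro y hy1 hy2
    have e1 := (mem_ball h _ _ _).1 hy1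
    have e2 := (mem_ball h _ _ _).1 hy2
    have e3 := dst_triangle h (γ (-(s : ℤ) - 1)) y (γ ((r : ℤ) + 1))
    rw [dst_comm h y] at e3
    omega
  have hsub : ball S (γ (-(s : ℤ) - 1)) r ∪ ball S (γ ((r : ℤ) + 1)) s ⊆
      ball S (γ 0) (r + s + 1) := by
    intro y hy
    rw [mem_ball h]
    rcases Finset.mem_union.1 hy with hy | hy
    · have e1 := (mem_ball h _ _ _).1 hy
      have e3 := dst_triangle h (γ 0) (γ (-(s : ℤ) - 1)) y
      rw [dst_comm h (γ 0) (γ (-(s : ℤ) - 1))] at e3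
      omega
    · have e1 := (mem_ball h _ _ _).1 hy
      have e3 := dst_triangle h (γ 0) (γ ((r : ℤ) + 1)) y
      omega
  have h3 := Finset.card_le_card hsub
  rw [Finset.card_union_of_disjoint hdisj] at h3
  omega

private theorem gr_mul (g : ℕ → ℕ) (hs : ∀ r s : ℕ, g r + g s ≤ g (r + s + 1)) :
    ∀ (a q r : ℕ), (q + 1) * (a + 1) ≤ r + 1 → (q + 1) * g a ≤ g r := by
  intro a q
  induction q with
  | zero =>
    intro r hr
    have h1 : a ≤ r := by omega
    rcases h1.eq_or_lt with h2 | h2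
    · rw [h2]; simp
    · obtain ⟨b, hb⟩ := Nat.exists_eq_add_of_lt h2
      have h3 := hs a b
      rw [hb]
      simp only [zero_add, one_mul]
      omega
  | succ q ih =>
    intro r hr
    have h1 : (q + 1 + 1) * (a + 1) = (q + 1) * (a + 1) + (a + 1) := by ring
    rw [h1] at hr
    have h2 : a + 1 ≤ r := by
      have : 1 ≤ (q + 1) * (a + 1) := Nat.one_le_iff_ne_zero.2 (by positivity)
      omega
    obtain ⟨b, hb⟩ := Nat.exists_eq_add_of_le h2
    have h3 := ih b (by omega)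
    have h4 := hs a b
    have h5 : a + b + 1 = r := by omega
    rw [h5] at h4
    have h6 : (q + 1 + 1) * g a = (q + 1) * g a + g a := by ring
    omega

/-- Fekete's lemma in the form needed -/
private theorem gr_fekete (g : ℕ → ℕ) (B : ℝ) (hB : ∀ r : ℕ, (g r : ℝ) ≤ B * (r + 1))
    (hs : ∀ r s : ℕ, g r + g s ≤ g (r + s + 1)) (h0 : 1 ≤ g 0) :
    ∃ c : ℝ, (∀ r : ℕ, (g r : ℝ) ≤ c * (r + 1)) ∧
      (∀ η : ℝ, 0 < η → ∃ R : ℕ, ∀ r : ℕ, R ≤ r → (c - η) * (r + 1) ≤ g r) ∧ 1 ≤ c := by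
  set A : Set ℝ := Set.range fun r : ℕ => (g r : ℝ) / (r + 1) with hA
  have hbdd : BddAbove A := by
    refine ⟨B, ?_⟩
    rintro x ⟨r, rfl⟩
    have hr : (0 : ℝ) < (r : ℝ) + 1 := by positivity
    show (g r : ℝ) / (r + 1) ≤ B
    rw [div_le_iff₀ hr]
    exact hB r
  have hne : A.Nonempty := ⟨_, 0, rfl⟩
  have hsup : ∀ r : ℕ, (g r : ℝ) ≤ sSup A * (r + 1) := by
    intro r
    have hr : (0 : ℝ) < (r : ℝ) + 1 := by positivity
    rw [← div_le_iff₀ hr]
    exact le_csSup hbdd ⟨r, rfl⟩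
  have hmul := gr_mul g hs
  refine ⟨sSup A, hsup, fun η hη => ?_, ?_⟩
  · obtain ⟨x, ⟨a, rfl⟩, hx⟩ := exists_lt_of_lt_csSup hne (show sSup A - η / 2 < sSup A by linarith)
    have ha : (0 : ℝ) < (a : ℝ) + 1 := by positivity
    replace hx : sSup A - η / 2 < (g a : ℝ) / (a + 1) := hx
    rw [lt_div_iff₀ ha] at hx
    obtain ⟨R, hR⟩ := exists_nat_ge (|sSup A - η / 2| * (a + 1) / (η / 2))
    refine ⟨max R a, fun r hr => ?_⟩
    have hr1 : R ≤ r := (le_max_left _ _).trans hr
    have hr2 : a ≤ r := (le_max_right _ _).trans hr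
    by_cases hc : sSup A - η / 2 < 0
    · have h1 : (sSup A - η) * ((r : ℝ) + 1) ≤ 0 :=
        mul_nonpos_of_nonpos_of_nonneg (by linarith) (by positivity)
      exact h1.trans (Nat.cast_nonneg _)
    · push Not at hc
      obtain ⟨q, hq⟩ : ∃ q : ℕ, (r + 1) / (a + 1) = q + 1 := by
        have : 1 ≤ (r + 1) / (a + 1) := by
          rw [Nat.le_div_iff_mul_le (by omega)]
          omega
        exact ⟨(r + 1) / (a + 1) - 1, by omega⟩
      have h1 : (q + 1) * (a + 1) ≤ r + 1 := by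
        rw [← hq]
        exact Nat.div_mul_le_self _ _
      have h2 : r + 1 < (q + 1) * (a + 1) + (a + 1) := by
        have := Nat.lt_div_mul_add (a := r + 1) (b := a + 1) (by omega)
        rw [hq] at this
        exact this
      have h3 := hmul a q r h1
      have h3' : ((q : ℝ) + 1) * g a ≤ g r := by exact_mod_cast h3
      have h2' : (r : ℝ) + 1 < ((q : ℝ) + 1) * (a + 1) + (a + 1) := by exact_mod_cast h2
      have h4 : (sSup A - η / 2) * ((q : ℝ) + 1) * (a + 1) ≤ ((q : ℝ) + 1) * g a := by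
        have h5 : ((q : ℝ) + 1) * ((sSup A - η / 2) * (a + 1)) ≤ ((q : ℝ) + 1) * g a :=
          mul_le_mul_of_nonneg_left hx.le (by positivity)
        linarith
      have h6 : (sSup A - η / 2) * ((r : ℝ) + 1 - (a + 1)) ≤
          (sSup A - η / 2) * (((q : ℝ) + 1) * (a + 1)) :=
        mul_le_mul_of_nonneg_left (by linarith) hc
      have h7 : (sSup A - η / 2) * ((a : ℝ) + 1) ≤ η / 2 * (r + 1) := by
        have h8 : |sSup A - η / 2| * (a + 1) / (η / 2) ≤ (r : ℝ) + 1 :=
          hR.trans (by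
            have : (R : ℝ) ≤ r := by exact_mod_cast hr1
            linarith)
        rw [div_le_iff₀ (by linarith)] at h8
        rw [abs_of_nonneg hc] at h8
        linarith
      nlinarith
  · have h1 := hsup 0
    have h2 : (1 : ℝ) ≤ g 0 := by exact_mod_cast h0
    push_cast at h1
    linarith

/-- Row GR -/
theorem rowGR : RowGR := by
  intro G _ S h C hH
  have hH' : grHyp S C := hH
  obtain ⟨c, hsup, hlim, hone⟩ := gr_fekete (fun r => sInf (grSet S C r)) (2 * C)
    (by
      intro r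
      obtain ⟨r', hr', H, γ, hγ, hcard⟩ := hH (r + 1)
      have h0 : (ball S (γ 0) r').card ∈ grSet S C r' := ⟨H, ⟨trivial⟩, γ, hγ, rfl⟩
      have h1 : sInf (grSet S C r') ≤ C * r' := (Nat.sInf_le h0).trans hcard
      obtain ⟨q, hq⟩ : ∃ q : ℕ, (r' + 1) / (r + 1) = q + 1 := by
        have : 1 ≤ (r' + 1) / (r + 1) := by
          rw [Nat.le_div_iff_mul_le (by omega)]
          omega
        exact ⟨(r' + 1) / (r + 1) - 1, by omega⟩
      have h2 : (q + 1) * (r + 1) ≤ r' + 1 := by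
        rw [← hq]
        exact Nat.div_mul_le_self _ _
      have h3 : r' + 1 < (q + 1) * (r + 1) + (r + 1) := by
        have := Nat.lt_div_mul_add (a := r' + 1) (b := r + 1) (by omega)
        rw [hq] at this
        exact this
      have h4 := gr_mul (fun r => sInf (grSet S C r)) (fun r s => gr_super h C hH' r s) r q r' h2
      show ((sInf (grSet S C r) : ℕ) : ℝ) ≤ 2 * C * (r + 1)
      have h5 : (q + 1) * sInf (grSet S C r) ≤ (q + 1) * (2 * C * (r + 1)) := by
        refine h4.trans (h1.trans ?_)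
        have h6 : r' ≤ (q + 1) * (2 * (r + 1)) := by nlinarith
        calc C * r' ≤ C * ((q + 1) * (2 * (r + 1))) := Nat.mul_le_mul_left C h6
          _ = (q + 1) * (2 * C * (r + 1)) := by ring
      have h6 : sInf (grSet S C r) ≤ 2 * C * (r + 1) := Nat.le_of_mul_le_mul_left h5 (by omega)
      exact_mod_cast h6)
    (fun r s => gr_super h C hH' r s)
    (by
      obtain ⟨H', hH'', γ, hγ, hcard⟩ := Nat.sInf_mem (gr_nonempty C hH' 0)
      show 1 ≤ sInf (grSet S C 0)
      rw [← hcard]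
      exact gr_center h _ _)
  exact ⟨fun r => sInf (grSet S C r), c, {
    lo := fun H' hH' γ t r hγ => gr_lo C H' hH' γ t r hγ
    att := fun r => by
      obtain ⟨H', hH'', γ, hγ, hcard⟩ := Nat.sInf_mem (gr_nonempty C hH' r)
      exact ⟨H', hH'', γ, hγ, hcard⟩
    sup := hsup
    lim := hlim
    one := hone }⟩

end

end Pool.Agent.LGU
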