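/-
Schreier graphs of linear growth: row HARM, a nonconstant harmonic function with bounded gradient on
a nearly minimal line.
-/
import Pool.Agent.Lib.LGU.Rows

set_option autoImplicit false

namespace Pool.Agent.LGU

open scoped Pointwise
open Classical

noncomputable section

variable {G X : Type} [Group G] [MulAction G X]

/-- the number of generators which move `x` to `y` -/
def HARMk (S : Finset G) (x y : X) : ℝ := ((S.filter fun s => s • x = y).card : ℝ)

/-- the neighbours of `x` -/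
def HARMN (S : Finset G) (x : X) : Finset X := S.image fun s => s • x

private theorem HARMk_sum (S : Finset G) (φ : X → ℝ) (x : X) :
    ∑ y ∈ HARMN S x, HARMk S x y * φ y = ∑ s ∈ S, φ (s • x) := by
  rw [Finset.sum_comp φ (fun s : G => s • x)]
  refine Finset.sum_congr ?_ fun y _ => ?_
  · unfold HARMN
    rfl
  · rw [nsmul_eq_mul]
    unfold HARMk
    rfl

private theorem HARMk_ne {S : Finset G} {x y : X} (hk : HARMk S x y ≠ 0) : ∃ s ∈ S, s • x = y := by
  unfold HARMk at hk
  rw [Nat.cast_ne_zero, Finset.card_ne_zero] at hk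
  obtain ⟨s, hs⟩ := hk
  exact ⟨s, (Finset.mem_filter.1 hs).1, (Finset.mem_filter.1 hs).2⟩

private theorem HARMne_k {S : Finset G} (x : X) {s : G} (hs : s ∈ S) : HARMk S x (s • x) ≠ 0 := by
  unfold HARMk
  rw [Nat.cast_ne_zero, Finset.card_ne_zero]
  exact ⟨s, Finset.mem_filter.2 ⟨hs, rfl⟩⟩

private theorem HARMk_nonneg (S : Finset G) (x y : X) : 0 ≤ HARMk S x y := by
  unfold HARMk
  exact Nat.cast_nonneg _

private theorem HARMk_le (S : Finset G) (x y : X) : HARMk S x y ≤ S.card := by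
  unfold HARMk
  rw [Nat.cast_le]
  exact Finset.card_filter_le _ _

private theorem HARMN_card (S : Finset G) (x : X) : (HARMN S x).card ≤ S.card := by
  unfold HARMN
  exact Finset.card_image_le

private theorem HARMk_le_symm {S : Finset G} (h : Gen S) (x y : X) :
    HARMk S x y ≤ HARMk S y x := by
  unfold HARMk
  rw [Nat.cast_le]
  refine Finset.card_le_card_of_injOn (fun s => s⁻¹) ?_ ?_
  · intro s hs
    have h1 := Finset.mem_filter.1 (Finset.mem_coe.1 hs)
    refine Finset.mem_coe.2 (Finset.mem_filter.2 ⟨h.inv s h1.1, ?_⟩)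
    show s⁻¹ • y = x
    rw [← h1.2, inv_smul_smul]
  · intro s _ s' _ hss
    exact inv_injective hss

private theorem HARMwg {S : Finset G} (h : Gen S) [MulAction.IsPretransitive G X] :
    Pool.Agent.QLN.WG (HARMk S : X → X → ℝ) (HARMN S) where
  symm x y := le_antisymm (HARMk_le_symm h x y) (HARMk_le_symm h y x)
  one x y hk := by
    unfold HARMk at hk ⊢
    rw [Nat.cast_ne_zero] at hk
    exact_mod_cast Nat.one_le_iff_ne_zero.2 hk
  mem x y hk := by
    obtain ⟨s, hs, hxy⟩ := HARMk_ne hk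
    unfold HARMN
    exact Finset.mem_image.2 ⟨s, hs, hxy⟩
  conn x y := by
    have key : ∀ (m : ℕ) (g : G), g ∈ S ^ m →
        Relation.ReflTransGen (fun u v => HARMk S u v ≠ 0) x (g • x) := by
      intro m
      induction m with
      | zero =>
        intro g hg
        rw [pow_zero, Finset.mem_one] at hg
        rw [hg, one_smul]
      | succ m ih =>
        intro g hg
        rw [pow_succ', Finset.mem_mul] at hg
        obtain ⟨s, hs, a, ha, rfl⟩ := hg
        refine (ih a ha).tail ?_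
        rw [mul_smul]
        exact HARMne_k _ hs
    obtain ⟨g, hg⟩ := MulAction.exists_smul_eq G x y
    obtain ⟨m, hm⟩ := h.gen g
    rw [← hg]
    exact key m g hm

/-- the half space behind the line -/
def HARMU (S : Finset G) (γ : ℤ → X) : Set X :=
  {x | ∃ s : ℤ, s ≤ 0 ∧ 8 * dst S (γ s) x ≤ dst S (γ 0) x}

private theorem HARMdst_adj {S : Finset G} (h : Gen S) [MulAction.IsPretransitive G X] {x y : X}
    (hk : HARMk S x y ≠ 0) : dst S x y ≤ 1 := by
  obtain ⟨s, hs, rfl⟩ := HARMk_ne hk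
  refine le_trans (dst_smul_le h x s) (len_le ?_)
  rw [pow_one]
  exact hs

private theorem HARMcross {S : Finset G} (h : Gen S) [MulAction.IsPretransitive G X] {γ : ℤ → X}
    (hγ : GeoL S γ) {M : ℕ} (hM : 2 ≤ M)
    (hline : ∀ x : X, M ≤ dst S (γ 0) x → ∃ s : ℤ, 16 * dst S (γ s) x ≤ dst S (γ 0) x)
    {x y : X} (hx : x ∈ HARMU S γ) (hy : y ∉ HARMU S γ) (hk : HARMk S x y ≠ 0) :
    x ∈ ball S (γ 0) (M + 1) ∧ y ∈ ball S (γ 0) (M + 1) := by
  have hxy := HARMdst_adj h hk
  have h1 : dst S (γ 0) x ≤ M := by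
    by_contra hc
    push Not at hc
    have h2 := dst_triangle h (γ 0) y x
    have h2' := dst_comm h y x
    have h3 : M ≤ dst S (γ 0) y := by omega
    obtain ⟨s', hs'⟩ := hline y h3
    have h4 : 0 < s' := by
      by_contra hc2
      push Not at hc2
      exact hy ⟨s', hc2, by omega⟩
    obtain ⟨s, hs, hsx⟩ := hx
    have h5 := hγ s s' (by omega)
    have h6 := hγ s 0 hs
    have h7 := dst_triangle h (γ 0) (γ s) x
    have h7' := dst_comm h (γ 0) (γ s)
    have h8 := dst_triangle h (γ s) x (γ s')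
    have h9 := dst_triangle h x y (γ s')
    have h9' := dst_comm h y (γ s')
    have h10 := dst_triangle h (γ 0) x y
    omega
  rw [mem_ball h, mem_ball h]
  have h2 := dst_triangle h (γ 0) x y
  omega

private theorem HARMfar {S : Finset G} (h : Gen S) [MulAction.IsPretransitive G X] {γ : ℤ → X}
    (hγ : GeoL S γ) (F : Finset X) :
    ∃ a b : X, a ∈ HARMU S γ ∧ b ∉ HARMU S γ ∧ a ∉ F ∧ b ∉ F := by
  set T : ℕ := F.sup (fun x => dst S (γ 0) x) + 1 with hT
  have hsup : ∀ x ∈ F, dst S (γ 0) x < T := by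
    intro x hx
    have h1 : dst S (γ 0) x ≤ F.sup (fun x => dst S (γ 0) x) :=
      Finset.le_sup (f := fun x => dst S (γ 0) x) hx
    omega
  have h1 := hγ (-(T : ℤ)) 0 (by omega)
  have h1' := dst_comm h (γ (-(T : ℤ))) (γ 0)
  have h2 := hγ 0 (T : ℤ) (by omega)
  refine ⟨γ (-(T : ℤ)), γ (T : ℤ), ⟨-(T : ℤ), by omega, ?_⟩, ?_, fun hF => ?_, fun hF => ?_⟩
  · rw [dst_self h]
    omega
  · rintro ⟨s, hs, hs2⟩
    have h3 := hγ s (T : ℤ) (by omega)
    omega
  · have h3 := hsup _ hF
    omega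
  · have h3 := hsup _ hF
    omega

private theorem HARMstep (hFL : Pool.Agent.QLN.RowFLOWI) {S : Finset G} (h : Gen S)
    [MulAction.IsPretransitive G X] {γ : ℤ → X} (hγ : GeoL S γ) {M : ℕ} (hM : 2 ≤ M)
    (hline : ∀ x : X, M ≤ dst S (γ 0) x → ∃ s : ℤ, 16 * dst S (γ s) x ≤ dst S (γ 0) x)
    (x₀ : X) (F₀ : Finset X) : ∃ f : X → ℝ, f x₀ = 0 ∧
      (∀ x ∈ F₀, ∀ y, HARMk S x y ≠ 0 → |f x - f y| ≤ 1) ∧
      (∀ x ∈ F₀, ∑ y ∈ HARMN S x, HARMk S x y * (f x - f y) = 0) ∧
      ∃ t ∈ ball S (γ 0) (M + 1),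
        1 / (((ball S (γ 0) (M + 1)).card * (S.card * S.card) + 1 : ℕ) : ℝ) / 2 ≤ |f t| := by
  set win : Finset X := ball S (γ 0) (M + 1) with hwin
  obtain ⟨a, b, ha, hb, haF, hbF⟩ := HARMfar h hγ (F₀ ∪ win)
  have hab : a ≠ b := by
    intro e
    rw [e] at ha
    exact hb ha
  obtain ⟨f, f1, f2, f3⟩ := hFL X (HARMk S) (HARMN S) (HARMwg h) (F₀ ∪ win) a b hab
  have hcross : ∀ x y : X, x ∈ HARMU S γ → y ∉ HARMU S γ → HARMk S x y ≠ 0 →
      x ∈ win ∧ y ∈ win := fun x y hx hy hk => HARMcross h hγ hM hline hx hy hk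
  have hflux := f3 (HARMU S γ) ha hb
    (fun x hx y hy hk => Finset.mem_union_right _ (hcross x y hx hy hk).1)
  set E : ℝ := 1 / ((win.card * (S.card * S.card) + 1 : ℕ) : ℝ) with hE
  have hpos : (0 : ℝ) < ((win.card * (S.card * S.card) + 1 : ℕ) : ℝ) := by
    exact_mod_cast Nat.succ_pos _
  have hE0 : 0 < E := by rw [hE]; positivity
  obtain ⟨x, hx, y, hy, hxy⟩ : ∃ x ∈ win, ∃ y ∈ win, E ≤ |f x - f y| := by
    by_contra hcon
    push Not at hcon
    have h1 : ∀ x ∈ (F₀ ∪ win).filter (· ∈ HARMU S γ),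
        ∑ y ∈ (HARMN S x).filter (· ∉ HARMU S γ), HARMk S x y * (f x - f y) ≤
          if x ∈ win then (S.card * S.card : ℝ) * E else 0 := by
      intro x hx
      have hx0 : x ∈ HARMU S γ := (Finset.mem_filter.1 hx).2
      split_ifs with hw
      · have h2 : ∀ y ∈ (HARMN S x).filter (· ∉ HARMU S γ),
            HARMk S x y * (f x - f y) ≤ S.card * E := by
          intro y hy
          have hy0 : y ∉ HARMU S γ := (Finset.mem_filter.1 hy).2
          by_cases hk : HARMk S x y = 0
          · rw [hk, zero_mul]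
            positivity
          · have h3 := hcon x hw y (hcross x y hx0 hy0 hk).2
            have h4 : f x - f y ≤ E := le_trans (le_abs_self _) h3.le
            calc HARMk S x y * (f x - f y) ≤ HARMk S x y * E :=
                  mul_le_mul_of_nonneg_left h4 (HARMk_nonneg S x y)
              _ ≤ _ := mul_le_mul_of_nonneg_right (HARMk_le S x y) hE0.le
        refine le_trans (Finset.sum_le_card_nsmul _ _ _ h2) ?_
        rw [nsmul_eq_mul, mul_assoc]
        refine mul_le_mul_of_nonneg_right ?_ (by positivity)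
        exact_mod_cast le_trans (Finset.card_filter_le _ _) (HARMN_card S x)
      · refine (Finset.sum_eq_zero fun y hy => ?_).le
        have hy0 : y ∉ HARMU S γ := (Finset.mem_filter.1 hy).2
        by_cases hk : HARMk S x y = 0
        · rw [hk, zero_mul]
        · exact absurd (hcross x y hx0 hy0 hk).1 hw
    have h2 := Finset.sum_le_sum h1
    rw [hflux, ← Finset.sum_filter] at h2
    have h3 : (∑ x ∈ ((F₀ ∪ win).filter (· ∈ HARMU S γ)).filter (· ∈ win),
        (S.card * S.card : ℝ) * E) ≤ (win.card : ℝ) * ((S.card * S.card : ℝ) * E) := by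
      rw [Finset.sum_const, nsmul_eq_mul]
      refine mul_le_mul_of_nonneg_right ?_ (by positivity)
      exact_mod_cast Finset.card_le_card fun z hz => (Finset.mem_filter.1 hz).2
    have h4 : (win.card : ℝ) * ((S.card * S.card : ℝ) * E) < 1 := by
      have h5 : ((win.card * (S.card * S.card) + 1 : ℕ) : ℝ) * E = 1 := by
        rw [hE, mul_one_div, div_self hpos.ne']
      push_cast at h5
      nlinarith
    linarith
  refine ⟨fun z => f z - f x₀, sub_self _, fun z hz y hk => ?_, fun z hz => ?_, ?_⟩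
  · have h1 := f1 z (Finset.mem_union_left _ hz) y hk
    have e : f z - f x₀ - (f y - f x₀) = f z - f y := by ring
    rw [e]
    exact h1
  · have h1 := f2 z (Finset.mem_union_left _ hz)
    have hza : z ≠ a := fun e => haF (e ▸ Finset.mem_union_left _ hz)
    have hzb : z ≠ b := fun e => hbF (e ▸ Finset.mem_union_left _ hz)
    rw [if_neg hza, if_neg hzb, sub_self] at h1
    rw [← h1]
    refine Finset.sum_congr rfl fun y _ => ?_
    ring
  · by_contra hcon
    push Not at hcon
    have h1 := hcon x hx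
    have h2 := hcon y hy
    have h3 : |f x - f y| ≤ |f x - f x₀| + |f y - f x₀| := by
      have e : f x - f y = (f x - f x₀) - (f y - f x₀) := by ring
      rw [e]
      exact abs_sub _ _
    linarith

/-- Row HARM -/
theorem rowHARM' (hLine : RowLINE) (hFL : Pool.Agent.QLN.RowFLOWI) (hL : Pool.Agent.QLN.RowLIMH) :
    RowHARM := by
  intro G _ S C g c hS hM H γ hN
  obtain ⟨δ, hδ, R, hR⟩ := hLine G S C g c hS hM (1 / 32) (by norm_num)
  obtain ⟨R₁, hR₁⟩ := hN.good δ hδ
  have hline : ∀ x : G ⧸ H, R + R₁ + 2 ≤ dst S (γ 0) x →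
      ∃ s : ℤ, 16 * dst S (γ s) x ≤ dst S (γ 0) x := by
    intro x hx
    obtain ⟨h1, -⟩ := hR H γ 0 (2 * dst S (γ 0) x) hN.gr (fun s t _ hst _ => hN.geo s t hst)
      (by omega)
    obtain ⟨s, -, hs⟩ := h1 (hR₁ _ (by omega)) x le_rfl
    refine ⟨s, ?_⟩
    have h2 : (16 : ℝ) * dst S (γ s) x ≤ dst S (γ 0) x := by
      push_cast at hs
      linarith
    exact_mod_cast h2
  obtain ⟨f, f1, f2, t, -, f3⟩ := hL (G ⧸ H) (HARMk S) (HARMN S) (γ 0)
    (ball S (γ 0) (R + R₁ + 2 + 1))
    (1 / (((ball S (γ 0) (R + R₁ + 2 + 1)).card * (S.card * S.card) + 1 : ℕ) : ℝ) / 2)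
    (HARMwg hS) (by positivity) (HARMstep hFL hS hN.geo (by omega) hline (γ 0))
  refine ⟨f, fun s hs x => ?_, fun x => ?_, t, γ 0, f3⟩
  · have h1 := f1 x (s • x) (HARMne_k x hs)
    rwa [abs_sub_comm] at h1
  · have h1 := f2 x
    rw [HARMk_sum S (fun y => f x - f y) x] at h1
    have h2 : ∑ s ∈ S, (f (s • x) - f x) = - ∑ s ∈ S, (f x - f (s • x)) := by
      rw [← Finset.sum_neg_distrib]
      exact Finset.sum_congr rfl fun s _ => by ring
    rw [h2, h1, neg_zero]

end

end Pool.Agent.LGU
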