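/-
Row INB (helper82, third typist): the first state.
-/
import Pool.Agent.Lib.LGU.Bas

set_option autoImplicit false

namespace Pool.Agent.LGU

open scoped Pointwise
open Classical

noncomputable section

open Filter in
theorem INB3_ge (M : ℕ) : ∀ᶠ i in (𝒰 : Filter ℕ), M ≤ i := by
  have h1 : (𝒰 : Filter ℕ) ≤ Filter.atTop := by
    have := Filter.hyperfilter_le_cofinite (α := ℕ)
    rwa [Nat.cofinite_eq_atTop] at this
  exact h1 (Filter.eventually_ge_atTop M)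

open Filter in
theorem INB3_core (hSUB : RowSUB) (hMOVE : RowMOVE) {G : Type} [Group G] {S : Finset G}
    {n C L : ℕ} {g : ℕ → ℕ} {c : ℝ} {H : Subgroup G} {γ : ℤ → G ⧸ H} (hC : Ctx S n C L g c H γ)
    (β : ℕ → G ⧸ H → ℤ) (hβ : ∀ i, Lip S (β i))
    (hA : ∀ i, ∀ (w : G) (q : G ⧸ H), per w q = L → ∀ v : G, ∃ j₁ j₂ : Fin L, j₁ ≠ j₂ ∧
      (∀ j : Fin L, β i (v • w ^ (j₁ : ℕ) • q) ≤ β i (v • w ^ (j : ℕ) • q)) ∧
      β i (v • w ^ (j₂ : ℕ) • q) = β i (v • w ^ (j₁ : ℕ) • q))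
    (x : ℕ → G ⧸ H) (hD : ∀ i, i ≤ dst S (γ 0) (x i)) (h0 : ∀ i, β i (γ 0) = dst S (γ 0) (x i))
    (hx : ∀ i y, β i y ≤ dst S y (x i)) (s : ℕ → ℤ)
    (hs : ∀ ε : ℝ, 0 < ε → ∀ᶠ i in (𝒰 : Filter ℕ),
      (dst S (γ (s i)) (x i) : ℝ) ≤ ε * dst S (γ 0) (x i))
    (hneg : ∀ᶠ i in (𝒰 : Filter ℕ), s i ≤ 0) :
    ∃ (γ' : ℤ → G ⧸ H) (β : ℕ → G ⧸ H → ℤ) (p : ℕ → Fin L → G ⧸ H) (j₀ : Fin L) (v : ℕ → G)
    (t : ℕ → ℤ) (r : ℕ → ℕ), GeoL S γ' ∧ Tup (G := G) S β p ∧
      State S c γ' β p Finset.univ j₀ v t r := by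
  have hS := hC.gen
  have hgeo := hC.nsys.geo
  have hdist : ∀ a b : ℤ, (dst S (γ a) (γ b) : ℤ) = |a - b| := fun a b =>
    bas_geo hS (bas_geoL hgeo (min a b) (max a b)) (min_le_left _ _) (le_max_left _ _)
      (min_le_right _ _) (le_max_right _ _)
  set D : ℕ → ℕ := fun i => dst S (γ 0) (x i) with hDdef
  have hDi : ∀ i, dst S (γ 0) (x i) = D i := fun i => rfl
  set σ : ℕ → ℕ := fun i => D i / 4 with hσ
  set τ : ℕ → ℤ := fun i => -((D i / 2 : ℕ) : ℤ) with hτ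
  have hinf : Inf σ := by
    intro M
    filter_upwards [INB3_ge (4 * M)] with i hi
    have h1 : i ≤ D i := hD i
    change M ≤ D i / 4
    omega
  have hFF : ∀ ε : ℝ, 0 < ε → ∀ᶠ i in (𝒰 : Filter ℕ), FF S γ (β i) (τ i) (σ i) ≤ (c + ε) * σ i := by
    intro ε hε
    obtain ⟨δ, hδ, R, hR⟩ := hSUB G S C g c hS hC.min 8 (ε / 2) (half_pos hε)
    obtain ⟨R', hR'⟩ := hC.nsys.good δ hδ
    have hε' : 0 < min (ε / 32) (1 / 8 : ℝ) := lt_min (by positivity) (by norm_num)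
    filter_upwards [hs _ hε', hneg, INB3_ge (max R' (4 * R + 4))] with i h1 h2 h3
    have h4 : i ≤ D i := hD i
    have h5 : R' ≤ D i := ((le_max_left _ _).trans h3).trans h4
    have h6 : 4 * R + 4 ≤ D i := ((le_max_right _ _).trans h3).trans h4
    have h7 : R ≤ σ i := by change R ≤ D i / 4; omega
    have h7' : 1 ≤ σ i := by change 1 ≤ D i / 4; omega
    have h8 : D i ≤ 8 * σ i := by change D i ≤ 8 * (D i / 4); omega
    have hτσ : |τ i - 0| + (σ i : ℤ) ≤ D i := by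
      change |-((D i / 2 : ℕ) : ℤ) - 0| + ((D i / 4 : ℕ) : ℤ) ≤ D i
      rw [sub_zero, abs_neg, Nat.abs_cast]
      omega
    have h9 := (hR H γ 0 (τ i) (σ i) (D i) hC.nsys.gr (bas_geoL hgeo _ _) h7 h8 hτσ).1
      (hR' (D i) h5)
    -- the slope
    have h10 : (D i : ℤ) + τ i + σ i ≤ β i (γ (τ i + σ i)) := by
      have a1 := (abs_le.1 (hβ i (γ 0) (γ (τ i + σ i)))).2
      have a2 := hdist 0 (τ i + σ i)
      have a3 : τ i + σ i ≤ 0 := by
        change -((D i / 2 : ℕ) : ℤ) + ((D i / 4 : ℕ) : ℤ) ≤ 0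
        omega
      rw [h0 i, hDi] at a1
      rw [zero_sub, abs_neg, abs_of_nonpos a3] at a2
      omega
    -- position of `s i`
    have b1 : ((D i : ℕ) : ℤ) ≤ |s i| + dst S (γ (s i)) (x i) := by
      have a1 := dst_triangle hS (γ 0) (γ (s i)) (x i)
      have a2 := hdist 0 (s i)
      rw [zero_sub, abs_neg] at a2
      have a3 : dst S (γ 0) (x i) = D i := rfl
      omega
    have b2 : |s i| ≤ (D i : ℤ) + dst S (γ (s i)) (x i) := by
      have a1 := dst_triangle hS (γ 0) (x i) (γ (s i))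
      have a2 := hdist 0 (s i)
      rw [zero_sub, abs_neg] at a2
      have a3 : dst S (γ 0) (x i) = D i := rfl
      have a4 := dst_comm hS (x i) (γ (s i))
      omega
    rw [abs_of_nonpos h2] at b1 b2
    rw [hDi] at h1
    have h11 : (dst S (γ (s i)) (x i) : ℝ) ≤ 1 / 8 * D i :=
      h1.trans (mul_le_mul_of_nonneg_right (min_le_right _ _) (Nat.cast_nonneg _))
    have h12 : (dst S (γ (s i)) (x i) : ℝ) ≤ ε / 32 * D i :=
      h1.trans (mul_le_mul_of_nonneg_right (min_le_left _ _) (Nat.cast_nonneg _))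
    have h11' : 8 * dst S (γ (s i)) (x i) ≤ D i := by
      have : (8 * dst S (γ (s i)) (x i) : ℝ) ≤ D i := by linarith
      exact_mod_cast this
    have h13 : s i ≤ τ i - σ i := by
      change s i ≤ -((D i / 2 : ℕ) : ℤ) - ((D i / 4 : ℕ) : ℤ)
      omega
    have h14 : β i (γ (τ i - σ i)) ≤ τ i - σ i - s i + dst S (γ (s i)) (x i) := by
      have a1 := hx i (γ (τ i - σ i))
      have a2 := dst_triangle hS (γ (τ i - σ i)) (γ (s i)) (x i)
      have a3 := hdist (τ i - σ i) (s i)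
      rw [abs_of_nonneg (by omega)] at a3
      omega
    have h15 : 2 * (σ i : ℤ) - 2 * dst S (γ (s i)) (x i) ≤
        β i (γ (τ i + σ i)) - β i (γ (τ i - σ i)) := by
      omega
    have h15' : 2 * (σ i : ℝ) - 2 * dst S (γ (s i)) (x i) ≤
        (β i (γ (τ i + σ i)) : ℝ) - β i (γ (τ i - σ i)) := by
      exact_mod_cast h15
    have h8' : (D i : ℝ) ≤ 8 * σ i := by exact_mod_cast h8
    have h16 : ε / 32 * (D i : ℝ) ≤ ε / 32 * (8 * σ i) :=
      mul_le_mul_of_nonneg_left h8' (by positivity)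
    unfold FF
    have h17 : (0 : ℝ) ≤ ε * σ i := by positivity
    linarith
  obtain ⟨t, _, hgood⟩ := hMOVE G S C g c hS hC.min H γ β τ σ hC.nsys.gr hgeo hβ hinf hFF
  have hinf2 : Inf (fun i => σ i / 2) := by
    intro M
    filter_upwards [hinf (2 * M)] with i hi
    change M ≤ σ i / 2
    omega
  have hgoodB : GoodB S c γ t (fun i => σ i / 2) := by
    intro ε hε
    obtain ⟨R, hR⟩ := hgood ε hε
    refine ⟨R, ?_⟩
    filter_upwards [hR] with i hi ρ h1 h2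
    exact (bas_card_le_FF (bas_geoL hgeo _ _) (hβ i)).trans (hi ρ h1 h2)
  obtain ⟨u, w, huw⟩ := hC.ex t _ hinf2 hgoodB
  have hL : 0 < L := lt_of_lt_of_le (by norm_num) hC.two
  refine ⟨γ, β, fun i j => w ^ (j : ℕ) • u • γ (t i), ⟨0, hL⟩, fun _ => u⁻¹, t,
    fun i => σ i / 2, hgeo, ⟨hβ, ?_, ?_⟩, ⟨Finset.mem_univ _, ?_, hinf2, hgood, ?_, ?_⟩⟩
  · filter_upwards [huw] with i hi
    intro j j' hjj
    have h1 : ((fun y : G ⧸ H => w • y)^[(j : ℕ)]) (u • γ (t i)) =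
        ((fun y : G ⧸ H => w • y)^[(j' : ℕ)]) (u • γ (t i)) := by
      rw [smul_iterate, smul_iterate]
      exact hjj
    have h2 := hi
    unfold per at h2
    have h3 := (Function.iterate_eq_iterate_iff_of_lt_minimalPeriod
      (by rw [h2]; exact j.2) (by rw [h2]; exact j'.2)).1 h1
    exact Fin.ext h3
  · filter_upwards [huw] with i hi v
    exact hA i w _ hi v
  · refine Filter.Eventually.of_forall fun i => ?_
    simp
  · intro j _ δ hδ
    set a : G := u⁻¹ * (w ^ (j : ℕ) * u) with ha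
    obtain ⟨M, hM⟩ := exists_nat_gt ((len S a : ℝ) / δ)
    filter_upwards [hinf2 M] with i hi
    have h1 : u⁻¹ • w ^ (j : ℕ) • u • γ (t i) = a • γ (t i) := by
      rw [ha, mul_smul, mul_smul]
    rw [h1]
    have h2 : (dst S (γ (t i)) (a • γ (t i)) : ℝ) ≤ len S a :=
      Nat.cast_le.2 (dst_smul_le hS (γ (t i)) a)
    have h3 : (M : ℝ) ≤ ((σ i / 2 : ℕ) : ℝ) := by exact_mod_cast hi
    have h4 : (len S a : ℝ) < M * δ := (div_lt_iff₀ hδ).1 hM
    have h5 : (M : ℝ) * δ ≤ ((σ i / 2 : ℕ) : ℝ) * δ := mul_le_mul_of_nonneg_right h3 hδ.le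
    linarith
  · intro j hj
    exact absurd (Finset.mem_univ j) hj

/-- reversing the line -/
theorem INB3_neg {G : Type} [Group G] {S : Finset G}
    {n C L : ℕ} {g : ℕ → ℕ} {c : ℝ} {H : Subgroup G} {γ : ℤ → G ⧸ H} (hC : Ctx S n C L g c H γ) :
    Ctx S n C L g c H (fun t => γ (-t)) where
  gen := hC.gen
  pos := hC.pos
  exp := hC.exp
  min := hC.min
  nsys :=
    { gr := hC.nsys.gr
      geo := by
        intro s t hst
        change (dst S (γ (-s)) (γ (-t)) : ℤ) = t - s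
        rw [dst_comm hC.gen, hC.nsys.geo (-t) (-s) (by omega)]
        ring
      good := by
        intro ε hε
        obtain ⟨R, hR⟩ := hC.nsys.good ε hε
        refine ⟨R, fun ρ hρ => ?_⟩
        rw [neg_zero]
        exact hR ρ hρ }
  two := hC.two
  le := hC.le
  ex := by
    intro t r hr hg
    exact hC.ex (fun i => -t i) r hr hg

open Filter in
/-- **Row INB** -/
theorem rowINB3 (hINA : RowINA) (hLINE : RowLINE) (hSUB : RowSUB) (hMOVE : RowMOVE) : RowINB := by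
  intro G _ S n C L g c H γ hC hW
  have hS := hC.gen
  choose f hf1 hf2 using hW
  have hA := fun i => hINA G S n L hC.gen hC.pos hC.exp hC.two H hC.le (f i) (hf2 i)
  choose β hβ hβ2 hβ3 hβ4 using hA
  choose x hx1 hx2 using fun i => hβ2 i (γ 0)
  have hD : ∀ i, i ≤ dst S (γ 0) (x i) := by
    intro i
    by_contra hc
    exact hx1 i (hf1 i (x i) ((mem_ball hS _ _ _).2 (by omega)))
  have hmin : ∀ i, ∃ s : ℤ, ∀ s', dst S (γ s) (x i) ≤ dst S (γ s') (x i) := by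
    intro i
    obtain ⟨s, hs⟩ := Nat.sInf_mem (Set.range_nonempty fun s => dst S (γ s) (x i))
    refine ⟨s, fun s' => ?_⟩
    have h1 : dst S (γ s) (x i) = sInf (Set.range fun s => dst S (γ s) (x i)) := hs
    rw [h1]
    exact Nat.sInf_le ⟨s', rfl⟩
  choose s hs using hmin
  have hs1 : ∀ ε : ℝ, 0 < ε → ∀ᶠ i in (𝒰 : Filter ℕ),
      (dst S (γ (s i)) (x i) : ℝ) ≤ ε * dst S (γ 0) (x i) := by
    intro ε hε
    obtain ⟨δ, hδ, R, hR⟩ := hLINE G S C g c hS hC.min (ε / 2) (half_pos hε)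
    obtain ⟨R', hR'⟩ := hC.nsys.good δ hδ
    filter_upwards [INB3_ge (max R R')] with i hi
    have h1 : i ≤ dst S (γ 0) (x i) := hD i
    have h2 : R ≤ 2 * dst S (γ 0) (x i) := by
      have := (le_max_left R R').trans hi
      omega
    have h3 : R' ≤ 2 * dst S (γ 0) (x i) := by
      have := (le_max_right R R').trans hi
      omega
    obtain ⟨s', _, h4⟩ := (hR H γ 0 (2 * dst S (γ 0) (x i)) hC.nsys.gr
      (bas_geoL hC.nsys.geo _ _) h2).1 (hR' _ h3) (x i) le_rfl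
    have h5 : (dst S (γ (s i)) (x i) : ℝ) ≤ dst S (γ s') (x i) := by exact_mod_cast hs i s'
    push_cast at h4
    linarith
  by_cases hneg : ∀ᶠ i in (𝒰 : Filter ℕ), s i ≤ 0
  · exact INB3_core hSUB hMOVE hC β hβ hβ4 x hD (fun i => (hx2 i).symm)
      (fun i y => hβ3 i y (x i) (hx1 i)) s hs1 hneg
  · have hneg' := Ultrafilter.eventually_not.2 hneg
    refine INB3_core hSUB hMOVE (INB3_neg hC) β hβ hβ4 x ?_ ?_
      (fun i y => hβ3 i y (x i) (hx1 i)) (fun i => -s i) ?_ ?_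
    · intro i
      rw [neg_zero]
      exact hD i
    · intro i
      rw [neg_zero]
      exact (hx2 i).symm
    · intro ε hε
      filter_upwards [hs1 ε hε] with i hi
      rw [neg_neg, neg_zero]
      exact hi
    · filter_upwards [hneg'] with i hi
      omega

end

end Pool.Agent.LGU
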