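/-
Row LEFT (third version): the lowest cluster.
-/
import Pool.Agent.Lib.LGU.Rows

set_option autoImplicit false

namespace Pool.Agent.LGU

open scoped Pointwise
open Classical

noncomputable section

private theorem left3_dst_right {G X : Type} [Group G] [MulAction G X] {S : Finset G} (h : Gen S)
    [MulAction.IsPretransitive G X] (a : G) (x y : X) :
    dst S x (a • y) ≤ dst S x y + len S a := by
  have h2 := dst_triangle h x y (a • y)
  have h4 := dst_smul_le h y a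
  omega

private theorem left3_geo {G X : Type} [Group G] [MulAction G X] {S : Finset G} (h : Gen S)
    [MulAction.IsPretransitive G X] {γ : ℤ → X} (hγ : GeoL S γ) (a b : ℤ) :
    (dst S (γ a) (γ b) : ℤ) = |a - b| := by
  rcases le_total a b with hab | hab
  · rw [hγ a b hab, abs_of_nonpos (by omega)]; ring
  · rw [dst_comm h, hγ b a hab, abs_of_nonneg (by omega)]

private theorem left3_geoLGeo {G X : Type} [Group G] [MulAction G X] {S : Finset G}
    {γ : ℤ → X} (hγ : GeoL S γ) (a b : ℤ) : Geo S a b γ :=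
  fun s t _ h2 _ => hγ s t h2

/-- a uniform gap above the lowest points -/
private theorem left3_gap {L : ℕ} (K₁ K' : Finset (Fin L)) (f : Fin L → ℕ → ℤ) (j₁ : Fin L)
    (σ : ℕ → ℕ)
    (h : ∀ j ∈ K₁, j ∉ K' → ∃ a : ℝ, 0 < a ∧ ∀ᶠ i in (𝒰 : Filter ℕ),
      (f j₁ i : ℝ) + a * σ i ≤ f j i) :
    ∃ a : ℝ, 0 < a ∧ a ≤ 1 ∧ ∀ j ∈ K₁, j ∉ K' → ∀ᶠ i in (𝒰 : Filter ℕ),
      (f j₁ i : ℝ) + a * σ i ≤ f j i := by
  classical
  induction K₁ using Finset.induction_on with
  | empty => exact ⟨1, one_pos, le_rfl, fun j hj => absurd hj (Finset.notMem_empty j)⟩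
  | insert b T hb ih =>
    obtain ⟨a, ha, ha1, hT⟩ := ih fun j hj hj' => h j (Finset.mem_insert_of_mem hj) hj'
    by_cases hbK : b ∈ K'
    · refine ⟨a, ha, ha1, fun j hj hj' => ?_⟩
      rcases Finset.mem_insert.1 hj with rfl | hj
      · exact absurd hbK hj'
      · exact hT j hj hj'
    · obtain ⟨a', ha', hb'⟩ := h b (Finset.mem_insert_self b T) hbK
      refine ⟨min a a', lt_min ha ha', (min_le_left _ _).trans ha1, fun j hj hj' => ?_⟩
      rcases Finset.mem_insert.1 hj with rfl | hj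
      · filter_upwards [hb'] with i h1
        have h2 : min a a' * σ i ≤ a' * σ i :=
          mul_le_mul_of_nonneg_right (min_le_right _ _) (Nat.cast_nonneg _)
        linarith
      · filter_upwards [hT j hj hj'] with i h1
        have h2 : min a a' * σ i ≤ a * σ i :=
          mul_le_mul_of_nonneg_right (min_le_left _ _) (Nat.cast_nonneg _)
        linarith

theorem rowLEFT'' (hLINE : RowLINE) : RowLEFT := by
  intro G _ S C L g c h hmin H γ β p hgr hgeo hlip K j₀ v t r hst K₁ u σ M δ hK₁ hσ hloc hδ hpair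
    hfar hlen
  set f : Fin L → ℕ → ℤ := fun j i => β i (u i • v i • p i j) with hf
  -- the radius
  set ρ : ℕ → ℕ := fun i => min (2 * (M + 1) * σ i) (r i) with hρ
  have hρInf : Inf ρ := by
    intro N
    filter_upwards [hσ N, hst.inf N] with i h1 h2
    have h3 : ρ i = min (2 * (M + 1) * σ i) (r i) := rfl
    rw [h3]
    refine le_min (h1.trans ?_) h2
    nlinarith [Nat.zero_le (M * σ i)]
  have hy2 : ∀ j ∈ K₁, ∀ᶠ i in (𝒰 : Filter ℕ),
      2 * dst S (γ (t i)) (u i • v i • p i j) ≤ ρ i := by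
    intro j hj
    filter_upwards [hloc j hj, hst.near j (hK₁ hj) (1 / 4) (by norm_num), hlen] with i h1 h2 h3
    have h4 : ρ i = min (2 * (M + 1) * σ i) (r i) := rfl
    rw [h4]
    refine le_min ?_ ?_
    · nlinarith [Nat.zero_le (σ i)]
    · have h5 := left3_dst_right h (u i) (γ (t i)) (v i • p i j)
      have h6 : 4 * dst S (γ (t i)) (v i • p i j) ≤ r i := by
        have : (4 : ℝ) * dst S (γ (t i)) (v i • p i j) ≤ r i := by linarith
        exact_mod_cast this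
      omega
  -- the distances are differences of heights
  have hL : ∀ ε : ℝ, 0 < ε → ∀ j ∈ K₁, ∀ j' ∈ K₁, ∀ᶠ i in (𝒰 : Filter ℕ),
      (dst S (u i • v i • p i j) (u i • v i • p i j') : ℝ) ≤
        |(f j i : ℝ) - f j' i| + ε * σ i := by
    intro ε hε j hj j' hj'
    have hM2 : (0 : ℝ) < 2 * (M + 1) := by positivity
    obtain ⟨d, hd, R, hR⟩ := hLINE G S C g c h hmin (ε / (2 * (M + 1))) (by positivity)
    obtain ⟨R', hR'⟩ := hst.good d hd
    filter_upwards [hR', hρInf R, hρInf R', hy2 j hj, hy2 j' hj'] with i h1 h2 h3 h4 h5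
    have h6 : ρ i ≤ r i := min_le_right _ _
    have h7 := ((hR H γ (t i) (ρ i) hgr (left3_geoLGeo hgeo _ _) h2).2 (β i) (hlip i)
      (h1 (ρ i) h3 h6)).1 _ _ h4 h5
    have h10 : (ρ i : ℝ) ≤ 2 * (M + 1) * σ i := by
      have : ρ i ≤ 2 * (M + 1) * σ i := min_le_left _ _
      exact_mod_cast this
    have h11 : ε / (2 * (M + 1)) * ρ i ≤ ε * σ i := by
      calc ε / (2 * (M + 1)) * ρ i ≤ ε / (2 * (M + 1)) * (2 * (M + 1) * σ i) := by
            apply mul_le_mul_of_nonneg_left h10; positivity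
        _ = ε * σ i := by field_simp
    exact h7.trans (by linarith)
  -- the lowest point
  obtain ⟨ja, hja, jb, hjb, hab⟩ := hpair
  have hmin' : ∀ᶠ i in (𝒰 : Filter ℕ), ∃ j₁ ∈ (K₁ : Set (Fin L)), ∀ j ∈ K₁, f j₁ i ≤ f j i := by
    refine Filter.Eventually.of_forall fun i => ?_
    obtain ⟨j₁, h1, h2⟩ := Finset.exists_min_image K₁ (fun j => f j i) ⟨ja, hja⟩
    exact ⟨j₁, h1, h2⟩
  rw [Ultrafilter.eventually_exists_mem_iff K₁.finite_toSet] at hmin'
  obtain ⟨j₁, hj₁, hlow⟩ := hmin'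
  have hj₁' : j₁ ∈ K₁ := hj₁
  set K' : Finset (Fin L) := K₁.filter fun j => ∀ a : ℝ, 0 < a → ∀ᶠ i in (𝒰 : Filter ℕ),
    (f j i : ℝ) ≤ f j₁ i + a * σ i with hK'
  have hmemK' : ∀ j, j ∈ K' ↔ j ∈ K₁ ∧ ∀ a : ℝ, 0 < a → ∀ᶠ i in (𝒰 : Filter ℕ),
      (f j i : ℝ) ≤ f j₁ i + a * σ i := fun j => Finset.mem_filter
  have hsub : K' ⊆ K₁ := Finset.filter_subset _ _
  obtain ⟨a, ha, ha1, hgap⟩ := left3_gap K₁ K' f j₁ σ (by
    intro j hj hj'
    rw [hmemK' j] at hj'
    push Not at hj'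
    obtain ⟨a, ha, h1⟩ := hj' hj
    refine ⟨a, ha, ?_⟩
    filter_upwards [h1] with i h2
    exact h2.le)
  have hdiff : ∀ b : ℝ, 0 < b → ∀ j ∈ K', ∀ j' ∈ K', ∀ᶠ i in (𝒰 : Filter ℕ),
      |(f j i : ℝ) - f j' i| ≤ b * σ i := by
    intro b hb j hj j' hj'
    have h1 := (hmemK' j).1 hj
    have h2 := (hmemK' j').1 hj'
    filter_upwards [h1.2 b hb, h2.2 b hb, hlow] with i h3 h4 h5
    have h6 : (f j₁ i : ℝ) ≤ f j i := by exact_mod_cast h5 j h1.1
    have h7 : (f j₁ i : ℝ) ≤ f j' i := by exact_mod_cast h5 j' h2.1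
    rw [abs_le]
    constructor <;> linarith
  have hssub : K' ⊂ K₁ := by
    refine ⟨hsub, fun hcon => ?_⟩
    have h1 := hL (δ / 4) (by positivity) ja hja jb hjb
    have h2 := hdiff (δ / 4) (by positivity) ja (hcon hja) jb (hcon hjb)
    obtain ⟨i, h3, h4, h5, h6⟩ := (h1.and (h2.and (hab.and (hσ 1)))).exists
    have h7 : (1 : ℝ) ≤ σ i := by exact_mod_cast h6
    nlinarith
  -- the new scale
  have ha8 : (0 : ℝ) < a / 8 := by positivity
  set s : ℕ → ℕ := fun i => ⌊a / 8 * σ i⌋₊ with hs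
  have hs1 : ∀ i, (s i : ℝ) ≤ a / 8 * σ i := fun i => Nat.floor_le (by positivity)
  have hs2 : ∀ i, a / 8 * σ i < s i + 1 := fun i => Nat.lt_floor_add_one _
  have hsInf : Inf s := by
    intro N
    filter_upwards [hσ ⌈(N : ℝ) / (a / 8)⌉₊] with i h1
    have h2 : (N : ℝ) / (a / 8) ≤ σ i := (Nat.le_ceil _).trans (by exact_mod_cast h1)
    rw [div_le_iff₀ ha8] at h2
    exact Nat.le_floor (by linarith)
  have hs4 : ∀ i, 4 * s i ≤ σ i := by
    intro i
    have h1 := hs1 i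
    have h2 : (0 : ℝ) ≤ σ i := Nat.cast_nonneg _
    have h3 : (4 : ℝ) * s i ≤ σ i := by nlinarith
    exact_mod_cast h3
  have hσs : ∀ᶠ i in (𝒰 : Filter ℕ), (σ i : ℝ) ≤ 2 / (a / 8) * s i := by
    filter_upwards [hsInf 1] with i h1
    have h2 : (1 : ℝ) ≤ s i := by exact_mod_cast h1
    have h3 := hs2 i
    have h4 : a / 8 * σ i ≤ 2 * s i := by linarith
    rw [div_mul_eq_mul_div, le_div_iff₀ ha8]
    linarith
  refine ⟨K', s, hssub, ?_⟩
  refine ⟨?_, ⟨j₁, ?_⟩, hsInf, ?_, ?_, ?_, ?_⟩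
  · exact Finset.ssubset_of_ssubset_of_subset hssub hK₁
  · rw [hmemK']
    refine ⟨hj₁', fun b hb => Filter.Eventually.of_forall fun i => ?_⟩
    have : 0 ≤ b * (σ i : ℝ) := by positivity
    linarith
  · refine ⟨⌈(M : ℝ) * (2 / (a / 8))⌉₊, fun j hj => ?_⟩
    filter_upwards [hloc j (hsub hj), hσs] with i h1 h2
    have h3 : (dst S (γ (t i)) (u i • v i • p i j) : ℝ) ≤ M * σ i := by exact_mod_cast h1
    have h4 : (M : ℝ) * σ i ≤ (M : ℝ) * (2 / (a / 8)) * s i := by
      rw [mul_assoc]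
      exact mul_le_mul_of_nonneg_left h2 (Nat.cast_nonneg _)
    have h5 : (M : ℝ) * (2 / (a / 8)) * s i ≤ (⌈(M : ℝ) * (2 / (a / 8))⌉₊ : ℝ) * s i :=
      mul_le_mul_of_nonneg_right (Nat.le_ceil _) (Nat.cast_nonneg _)
    have h6 : (dst S (γ (t i)) (u i • v i • p i j) : ℝ) ≤
        (⌈(M : ℝ) * (2 / (a / 8))⌉₊ : ℝ) * s i := by linarith
    exact_mod_cast h6
  · intro j hj j' hj' d hd
    have hb : 0 < d * (a / 8) / 4 := by positivity
    filter_upwards [hL _ hb j (hsub hj) j' (hsub hj'), hdiff _ hb j hj j' hj', hσs] with i h1 h2 h3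
    have h4 : d * (a / 8) / 4 * σ i ≤ d * (a / 8) / 4 * (2 / (a / 8) * s i) :=
      mul_le_mul_of_nonneg_left h3 hb.le
    have h5 : d * (a / 8) / 4 * (2 / (a / 8) * s i) = d / 2 * s i := by
      field_simp
      ring
    rw [h5] at h4
    linarith
  · intro j hj j' hj'
    have h1 := (hmemK' j').1 hj'
    by_cases hjK : j ∈ K₁
    · filter_upwards [hgap j hjK hj, h1.2 (a / 4) (by positivity)] with i h2 h3
      have h4 := hs1 i
      have h5 : (0 : ℝ) ≤ a * σ i := by positivity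
      have h6 : (f j' i : ℝ) + 4 * s i ≤ f j i := by nlinarith
      exact_mod_cast h6
    · filter_upwards [hfar j hjK j' h1.1] with i h2
      have h3 := hs4 i
      have h4 : (4 * (s i : ℤ)) ≤ σ i := by exact_mod_cast h3
      linarith
  · filter_upwards [hlen] with i h1
    have h2 := hs4 i
    omega

end

end Pool.Agent.LGU
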