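/-
Schreier graphs of linear growth: row MOVE.
-/
import Pool.Agent.Lib.LGU.Bas

set_option autoImplicit false

namespace Pool.Agent.LGU

open scoped Pointwise
open Classical

/-- diagonal choice along the ultrafilter -/
theorem mov_diag {α : Type} (P : ℕ → ℕ → α → Prop) (a₀ : α)
    (hmono : ∀ (i K K' : ℕ) (a : α), K ≤ K' → P K' i a → P K i a)
    (h : ∀ K : ℕ, ∀ᶠ i in (𝒰 : Filter ℕ), ∃ a, P K i a) :
    ∃ f : ℕ → α, ∀ K : ℕ, ∀ᶠ i in (𝒰 : Filter ℕ), P K i (f i) := by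
  have hcof : ∀ K : ℕ, ∀ᶠ i in (𝒰 : Filter ℕ), K ≤ i := fun K =>
    Nat.hyperfilter_le_atTop (Filter.eventually_ge_atTop K)
  have key : ∀ i : ℕ, ∃ a : α, ∀ K ≤ i, (∃ b, P K i b) → P K i a := by
    intro i
    by_cases hex : ∃ K ≤ i, ∃ b, P K i b
    · obtain ⟨K₀, ⟨hK₀, b, hb⟩, hmax⟩ : ∃ K₀, (K₀ ≤ i ∧ ∃ b, P K₀ i b) ∧
          ∀ K, (K ≤ i ∧ ∃ b, P K i b) → K ≤ K₀ := by
        have hf : {K | K ≤ i ∧ ∃ b, P K i b}.Finite :=
          (Set.finite_le_nat i).subset fun K hK => hK.1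
        obtain ⟨K₀, hK₀, hm⟩ := hf.exists_maximalFor id _ (by
          obtain ⟨K, hK, hb⟩ := hex; exact ⟨K, hK, hb⟩)
        refine ⟨K₀, hK₀, fun K hK => ?_⟩
        rcases le_total K K₀ with h1 | h1
        · exact h1
        · exact hm hK h1
      exact ⟨b, fun K hK hKb => hmono i K K₀ b (hmax K ⟨hK, hKb⟩) hb⟩
    · exact ⟨a₀, fun K hK hKb => absurd ⟨K, hK, hKb⟩ hex⟩
  choose f hf using key
  refine ⟨f, fun K => ?_⟩
  filter_upwards [h K, hcof K] with i h1 h2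
  exact hf i K h2 h1

theorem rowMOVE (hGP : RowGP) : RowMOVE := by
  intro G _ S C g c hS hM H γ β τ s hH hγ hβ hs hF
  have hc : 0 < c := lt_of_lt_of_le one_pos hM.one
  obtain ⟨R, hR⟩ := hGP g c (1 / 16) hc (by norm_num) hM.sup hM.lim
  have key : ∀ K : ℕ, ∀ᶠ i in (𝒰 : Filter ℕ), ∃ t : ℤ, ((|t| : ℤ) : ℝ) ≤ 1 / 16 * s i ∧
      ∀ k ≤ K, ∀ ρ : ℕ, R k ≤ ρ → 2 * ρ ≤ s i →
        FF S γ (β i) (τ i + t) ρ ≤ (c + 1 / ((k : ℝ) + 1)) * ρ := by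
    intro K
    obtain ⟨ε, hε, S₀, hS₀⟩ := hR K
    filter_upwards [hF ε hε, hs S₀] with i h1 h2
    refine hS₀ (s i) (fun t ρ => FF S γ (β i) (τ i + t) ρ) h2 ?_ ?_ ?_
    · intro J hJ hd
      have h3 := bas_sum_FF hS (bas_geoL hγ (τ i - s i) (τ i + s i)) (hβ i) J hJ hd
      simpa using h3
    · intro t ρ _
      have h3 := bas_card_le_FF (bas_geoL hγ (τ i + t - ρ) (τ i + t + ρ)) (hβ i)
      have h4 := hM.lo H hH γ (τ i + t) ρ (bas_geoL hγ _ _)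
      have h5 : (g ρ : ℝ) ≤ (ball S (γ (τ i + t)) ρ).card := by exact_mod_cast h4
      exact h5.trans h3
    · simpa using h1
  obtain ⟨f, hf⟩ := mov_diag (fun K i t => ((|t| : ℤ) : ℝ) ≤ 1 / 16 * s i ∧
      ∀ k ≤ K, ∀ ρ : ℕ, R k ≤ ρ → 2 * ρ ≤ s i →
        FF S γ (β i) (τ i + t) ρ ≤ (c + 1 / ((k : ℝ) + 1)) * ρ) (0 : ℤ)
    (fun i K K' a hK h => ⟨h.1, fun k hk => h.2 k (hk.trans hK)⟩) key
  refine ⟨fun i => τ i + f i, ?_, ?_⟩
  · filter_upwards [hf 0] with i hi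
    have h1 : τ i + f i - τ i = f i := by ring
    rw [h1]
    have h2 : (16 * ((|f i| : ℤ) : ℝ)) ≤ s i := by linarith [hi.1]
    exact_mod_cast h2
  · intro ε hε
    obtain ⟨k, hk⟩ := exists_nat_one_div_lt hε
    refine ⟨R k, ?_⟩
    filter_upwards [hf k] with i hi ρ h1 h2
    have h3 := hi.2 k le_rfl ρ h1 (by
      have : 2 * (s i / 2) ≤ s i := Nat.mul_div_le _ _
      omega)
    refine h3.trans ?_
    apply mul_le_mul_of_nonneg_right _ (by positivity)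
    linarith

end Pool.Agent.LGU
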