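/-
Schreier graphs of linear growth of groups of bounded exponent: assembly of the rows.
-/
import Pool.Agent.Lib.LGU.Rows

set_option autoImplicit false

namespace Pool.Agent.LGU

open scoped Pointwise
open Classical

/-- a state with the least number of points -/
theorem main_min {G X : Type} [Group G] [MulAction G X] {S : Finset G} {c : ℝ} {γ : ℤ → X} {L : ℕ}
    {β : ℕ → X → ℤ} {p : ℕ → Fin L → X}
    (h : ∃ (K : Finset (Fin L)) (j₀ : Fin L) (v : ℕ → G) (t : ℕ → ℤ) (r : ℕ → ℕ),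
      State S c γ β p K j₀ v t r) :
    ∃ (K : Finset (Fin L)) (j₀ : Fin L) (v : ℕ → G) (t : ℕ → ℤ) (r : ℕ → ℕ),
      State S c γ β p K j₀ v t r ∧
      ∀ (K' : Finset (Fin L)) (j₀' : Fin L) (v' : ℕ → G) (t' : ℕ → ℤ) (r' : ℕ → ℕ),
        State S c γ β p K' j₀' v' t' r' → K.card ≤ K'.card := by
  have hex : ∃ m : ℕ, ∃ (K : Finset (Fin L)) (j₀ : Fin L) (v : ℕ → G) (t : ℕ → ℤ) (r : ℕ → ℕ),
      State S c γ β p K j₀ v t r ∧ K.card = m := by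
    obtain ⟨K, j₀, v, t, r, hS⟩ := h
    exact ⟨K.card, K, j₀, v, t, r, hS, rfl⟩
  obtain ⟨K, j₀, v, t, r, hS, hK⟩ := Nat.find_spec hex
  refine ⟨K, j₀, v, t, r, hS, fun K' j₀' v' t' r' hS' => ?_⟩
  rw [hK]
  exact Nat.find_min' hex ⟨K', j₀', v', t', r', hS', rfl⟩

/-- the balls around the middle points of long geodesics are large -/
theorem main_of (hGR : RowGR) (hEXA : RowEXA) (hEXB : RowEXB) (hHARM : RowHARM) (hPOLY : RowPOLY)
    (hINB : RowINB) (hCLAIM : RowCLAIM) (hPAIR : RowPAIR) (hHALF : RowHALF) (hENDA : RowENDA)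
    (G : Type) [Group G] (S : Finset G) (n C : ℕ) (hS : Gen S) (hn : 0 < n)
    (hexp : ∀ a : G, a ^ n = 1) : ∃ R : ℕ, ∀ r : ℕ, R ≤ r → ∀ (H : Subgroup G) (γ : ℤ → G ⧸ H),
      Geo S (-r) r γ → C * r < (ball S (γ 0) r).card := by
  by_contra hcon
  push Not at hcon
  obtain ⟨g, c, hM⟩ := hGR G S hS C hcon
  obtain ⟨L, H₁, γ, hC⟩ := hEXB G S n C g c hS hn hexp hM (hEXA G S C g c hS hM)
  obtain ⟨A, hA⟩ : ∃ A : ℕ, ∀ r : ℕ, (ball S (γ 0) r).card ≤ A * (r + 1) := by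
    obtain ⟨R, hR⟩ := hC.nsys.good 1 one_pos
    obtain ⟨B, hB⟩ := exists_nat_ge (c + 1)
    refine ⟨B + (ball S (γ 0) R).card, fun r => ?_⟩
    rcases le_total R r with h | h
    · have h1 := hR r h
      have h2 : (c + 1) * (r : ℝ) ≤ B * r := mul_le_mul_of_nonneg_right hB (by positivity)
      have h3 : (ball S (γ 0) r).card ≤ B * r := by exact_mod_cast h1.trans h2
      nlinarith
    · have h1 := Finset.card_le_card (ball_mono hS (γ 0) h)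
      nlinarith
  have hfix := hPOLY G S n A hS hn hexp H₁ (γ 0) hA (hHARM G S C g c hS hM H₁ γ hC.nsys) (γ 0)
  obtain ⟨γ', β, p, j₀, v, t, r, hγ', hT, hSt⟩ := hINB G S n C L g c H₁ γ hC hfix
  obtain ⟨K, j₁, v₁, t₁, r₁, hK, hmin⟩ := main_min ⟨Finset.univ, j₀, v, t, r, hSt⟩
  have hNS := hCLAIM G S C L g c hS hM H₁ γ' β p hC.nsys.gr hγ' hT K j₁ v₁ t₁ r₁ hK hmin
  obtain ⟨H₂, k, γ₂, β₂, hP⟩ := hPAIR G S C L c hS H₁ γ' β p hC.nsys.gr hγ' hT K j₁ v₁ t₁ r₁ hK hNS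
  have hfin := hHALF G S C g c hS hM H₂ k γ₂ β₂ hP
  obtain ⟨h, hh⟩ := hENDA G S C g c hS hM H₂ k γ₂ β₂ hP hfin
  exact hh n hn (hexp h)

end Pool.Agent.LGU
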