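/-
LGT, row POLY: a harmonic function of bounded gradient and elements which fix a large ball
(helper92).
-/
import Pool.Agent.Lib.LGU.Bas
import Pool.Agent.Lib.QLN.LIN
import Pool.Agent.Lib.QLN.FV
import Pool.Agent.Lib.SCH.KLEIN2
import Pool.Agent.Lib.SCH.FIN

set_option autoImplicit false

namespace Pool.Agent.LGU

open scoped Pointwise
open Classical

noncomputable section

section

variable (G X : Type) [Group G] [MulAction G X]

/-- the image of the group in the permutations of `X` -/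
abbrev POLYQ : Subgroup (Equiv.Perm X) := (MulAction.toPermHom G X).range

/-- the map onto the image -/
abbrev POLYh : G →* POLYQ G X := (MulAction.toPermHom G X).rangeRestrict

end

section

variable {G X : Type} [Group G] [MulAction G X] {S : Finset G}

theorem POLYh_apply (g : G) (x : X) : ((POLYh G X g : POLYQ G X) : Equiv.Perm X) x = g • x := rfl

theorem POLYh_surj (q : POLYQ G X) : ∃ g : G, POLYh G X g = q :=
  MonoidHom.rangeRestrict_surjective _ q

/-- the number of generators with image `q` -/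
def POLYm (S : Finset G) (q : POLYQ G X) : ℕ := (S.filter fun s => POLYh G X s = q).card

theorem POLYm_inv (h : Gen S) (q : POLYQ G X) : POLYm S q⁻¹ = POLYm S q := by
  unfold POLYm
  refine Finset.card_bij (fun s _ => s⁻¹) ?_ ?_ ?_
  · intro s hs
    rw [Finset.mem_filter] at hs ⊢
    exact ⟨h.inv s hs.1, by rw [map_inv, hs.2, inv_inv]⟩
  · intro a _ b _ hab
    exact inv_injective hab
  · intro s hs
    rw [Finset.mem_filter] at hs
    refine ⟨s⁻¹, ?_, inv_inv s⟩
    rw [Finset.mem_filter]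
    exact ⟨h.inv s hs.1, by rw [map_inv, hs.2]⟩

theorem POLYm_le (q : POLYQ G X) : POLYm S q ≤ S.card := Finset.card_filter_le _ _

theorem POLYm_pos {s : G} (hs : s ∈ S) : 1 ≤ POLYm (X := X) S (POLYh G X s) := by
  unfold POLYm
  exact Finset.card_pos.2 ⟨s, Finset.mem_filter.2 ⟨hs, rfl⟩⟩

variable {F : Type} [CommGroup F] [Fintype F]

/-- the generating set of the product with a finite group -/
def POLYT (X : Type) [MulAction G X] (S : Finset G) (A : ℕ → Finset F) : Finset (POLYQ G X × F) :=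
  ((S.image (POLYh G X)) ×ˢ (Finset.univ : Finset F)).filter
    fun z => z.1 = 1 ∨ z.2 ∈ A (POLYm S z.1)

omit [CommGroup F] in
theorem mem_POLYT {A : ℕ → Finset F} {z : POLYQ G X × F} :
    z ∈ POLYT X S A ↔ (∃ s ∈ S, POLYh G X s = z.1) ∧ (z.1 = 1 ∨ z.2 ∈ A (POLYm S z.1)) := by
  unfold POLYT
  rw [Finset.mem_filter, Finset.mem_product, Finset.mem_image]
  constructor
  · rintro ⟨⟨h1, _⟩, h2⟩
    exact ⟨h1, h2⟩
  · rintro ⟨h1, h2⟩
    exact ⟨⟨h1, Finset.mem_univ _⟩, h2⟩

theorem POLYT_one (h : Gen S) {A : ℕ → Finset F} : (1 : POLYQ G X × F) ∈ POLYT X S A :=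
  mem_POLYT.2 ⟨⟨1, h.one, map_one _⟩, Or.inl rfl⟩

theorem POLYT_inv (h : Gen S) (hF : ∀ a : F, a⁻¹ = a) {A : ℕ → Finset F} {z : POLYQ G X × F}
    (hz : z ∈ POLYT X S A) : z⁻¹ ∈ POLYT X S A := by
  obtain ⟨⟨s, hs, hsz⟩, h2⟩ := mem_POLYT.1 hz
  refine mem_POLYT.2 ⟨⟨s⁻¹, h.inv s hs, by rw [map_inv, hsz]; rfl⟩, ?_⟩
  rcases h2 with h2 | h2
  · exact Or.inl (by rw [Prod.fst_inv, h2, inv_one])
  · right
    rw [Prod.fst_inv, Prod.snd_inv, POLYm_inv h, hF]
    exact h2

theorem POLYT_pow {A : ℕ → Finset F} {m : ℕ} {z : POLYQ G X × F} (hz : z ∈ POLYT X S A ^ m) :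
    ∃ g ∈ S ^ m, POLYh G X g = z.1 := by
  induction m generalizing z with
  | zero =>
    rw [pow_zero, Finset.mem_one] at hz
    exact ⟨1, by rw [pow_zero]; exact Finset.mem_one.2 rfl, by rw [hz, map_one]; rfl⟩
  | succ m ih =>
    rw [pow_succ', Finset.mem_mul] at hz
    obtain ⟨a, ha, b, hb, rfl⟩ := hz
    obtain ⟨g, hg, hgb⟩ := ih hb
    obtain ⟨⟨s, hs, hsa⟩, _⟩ := mem_POLYT.1 ha
    exact ⟨s * g, by rw [pow_succ']; exact Finset.mul_mem_mul hs hg,
      by rw [map_mul, hsa, hgb]; rfl⟩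

theorem POLYT_mem1 (hc : S.card ≤ Fintype.card F) {A : ℕ → Finset F}
    (hA : ∀ m, 1 ≤ m → m ≤ Fintype.card F → (1 : F) ∈ A m ∧ (A m).card = m) {s : G}
    (hs : s ∈ S) : ((POLYh G X s, 1) : POLYQ G X × F) ∈ POLYT X S A :=
  mem_POLYT.2 ⟨⟨s, hs, rfl⟩, Or.inr (hA _ (POLYm_pos hs) ((POLYm_le _).trans hc)).1⟩

theorem POLYT_pow1 (hc : S.card ≤ Fintype.card F) {A : ℕ → Finset F}
    (hA : ∀ m, 1 ≤ m → m ≤ Fintype.card F → (1 : F) ∈ A m ∧ (A m).card = m) {m : ℕ} {g : G}
    (hg : g ∈ S ^ m) : ((POLYh G X g, 1) : POLYQ G X × F) ∈ POLYT X S A ^ m := by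
  induction m generalizing g with
  | zero =>
    rw [pow_zero, Finset.mem_one] at hg
    subst hg
    rw [pow_zero, Finset.mem_one, map_one]
    rfl
  | succ m ih =>
    rw [pow_succ', Finset.mem_mul] at hg
    obtain ⟨s, hs, g, hg, rfl⟩ := hg
    have e : ((POLYh G X (s * g), 1) : POLYQ G X × F) =
        ((POLYh G X s, 1) : POLYQ G X × F) * ((POLYh G X g, 1) : POLYQ G X × F) := by
      rw [Prod.mk_mul_mk, map_mul, one_mul]
    rw [e, pow_succ']
    exact Finset.mul_mem_mul (POLYT_mem1 hc hA hs) (ih hg)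

theorem POLYT_gen (h : Gen S) (hc : S.card ≤ Fintype.card F) {A : ℕ → Finset F}
    (hA : ∀ m, 1 ≤ m → m ≤ Fintype.card F → (1 : F) ∈ A m ∧ (A m).card = m)
    (z : POLYQ G X × F) : ∃ m : ℕ, z ∈ POLYT X S A ^ m := by
  obtain ⟨g, hg⟩ := POLYh_surj z.1
  obtain ⟨m, hm⟩ := h.gen g
  refine ⟨m + 1, ?_⟩
  have e : z = ((POLYh G X g, 1) : POLYQ G X × F) * ((1, z.2) : POLYQ G X × F) := by
    rw [Prod.mk_mul_mk, hg, mul_one, one_mul]
  rw [pow_succ, e]
  exact Finset.mul_mem_mul (POLYT_pow1 hc hA hm) (mem_POLYT.2 ⟨⟨1, h.one, map_one _⟩, Or.inl rfl⟩)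

theorem POLYT_harm (hc : S.card ≤ Fintype.card F) {A : ℕ → Finset F}
    (hA : ∀ m, 1 ≤ m → m ≤ Fintype.card F → (1 : F) ∈ A m ∧ (A m).card = m) (f : X → ℝ)
    (hf : ∀ x, ∑ s ∈ S, (f (s • x) - f x) = 0) (y : X) :
    SCH.Harm (POLYT X S A) (fun z => f ((z.1 : Equiv.Perm X) y)) := by
  intro z
  set x : X := (z.1 : Equiv.Perm X) y with hx
  change ∑ w ∈ POLYT X S A, (f ((w.1 : Equiv.Perm X) x) - f x) = 0
  unfold POLYT
  rw [Finset.sum_filter, Finset.sum_product]
  have h2 : ∀ q ∈ S.image (POLYh G X), (∑ a : F, if (q = 1 ∨ a ∈ A (POLYm S q)) then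
      (f ((q : Equiv.Perm X) x) - f x) else 0) = (POLYm S q) • (f ((q : Equiv.Perm X) x) - f x) := by
    intro q hq
    obtain ⟨s, hs, rfl⟩ := Finset.mem_image.1 hq
    by_cases hq1 : POLYh G X s = 1
    · have h0 : f ((((POLYh G X s : POLYQ G X)) : Equiv.Perm X) x) - f x = 0 := by
        rw [hq1]
        change f x - f x = 0
        ring
      rw [h0]
      simp
    · have h3 := (hA _ (POLYm_pos (X := X) hs) ((POLYm_le _).trans hc)).2
      have h4 : (Finset.univ.filter fun a : F => POLYh G X s = 1 ∨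
          a ∈ A (POLYm S (POLYh G X s))) = A (POLYm S (POLYh G X s)) := by
        ext a
        rw [Finset.mem_filter]
        constructor
        · rintro ⟨_, h5 | h5⟩
          · exact absurd h5 hq1
          · exact h5
        · intro h5
          exact ⟨Finset.mem_univ _, Or.inr h5⟩
      rw [← Finset.sum_filter, Finset.sum_const, h4, h3]
  rw [Finset.sum_congr rfl h2, ← hf x]
  exact (Finset.sum_comp (fun q : POLYQ G X => f ((q : Equiv.Perm X) x) - f x)
    (POLYh G X)).symm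

theorem POLYT_growth {A : ℕ → Finset F} {B : Finset X}
    (hfix : ∀ h : G, (∀ y ∈ B, h • y = y) → ∀ x : X, h • x = x) {K m : ℕ}
    (hb : ∀ y ∈ B, (ball S y m).card ≤ K) :
    (POLYT X S A ^ m).card ≤ K ^ B.card * Fintype.card F := by
  have h1 : (POLYT X S A ^ m) ⊆ ((S ^ m).image (POLYh G X)) ×ˢ (Finset.univ : Finset F) := by
    intro z hz
    obtain ⟨g, hg, hgz⟩ := POLYT_pow hz
    exact Finset.mem_product.2 ⟨Finset.mem_image.2 ⟨g, hg, hgz⟩, Finset.mem_univ _⟩
  have h2 : ((S ^ m).image (POLYh G X)).card ≤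
      (Fintype.piFinset fun y : {y // y ∈ B} => ball S (y : X) m).card := by
    refine Finset.card_le_card_of_injOn (fun q y => (q : Equiv.Perm X) (y : X)) ?_ ?_
    · intro q hq
      obtain ⟨g, hg, rfl⟩ := Finset.mem_image.1 (Finset.mem_coe.1 hq)
      refine Finset.mem_coe.2 (Fintype.mem_piFinset.2 fun y => ?_)
      exact (mem_ball_iff' _ _ _).2 ⟨g, hg, rfl⟩
    · intro q hq q' hq' hqq
      obtain ⟨g, hg, rfl⟩ := Finset.mem_image.1 (Finset.mem_coe.1 hq)
      obtain ⟨g', hg', rfl⟩ := Finset.mem_image.1 (Finset.mem_coe.1 hq')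
      have h3 := hfix (g⁻¹ * g') (fun y hy => by
        have h4 : g • y = g' • y := congrFun hqq ⟨y, hy⟩
        rw [mul_smul, ← h4, inv_smul_smul])
      refine Subtype.ext (Equiv.ext fun x => ?_)
      change g • x = g' • x
      have h5 := h3 x
      rw [mul_smul, inv_smul_eq_iff] at h5
      exact h5.symm
  have h3 : (Fintype.piFinset fun y : {y // y ∈ B} => ball S (y : X) m).card ≤ K ^ B.card := by
    rw [Fintype.card_piFinset]
    refine (Finset.prod_le_pow_card Finset.univ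
      (fun y : {y // y ∈ B} => (ball S (y : X) m).card) K fun y _ => hb y y.2).trans ?_
    rw [Finset.card_univ, Fintype.card_coe]
  calc (POLYT X S A ^ m).card ≤ (((S ^ m).image (POLYh G X)) ×ˢ (Finset.univ : Finset F)).card :=
        Finset.card_le_card h1
    _ = ((S ^ m).image (POLYh G X)).card * Fintype.card F := by
        rw [Finset.card_product, Finset.card_univ]
    _ ≤ K ^ B.card * Fintype.card F := Nat.mul_le_mul_right _ (h2.trans h3)

end

theorem POLY_ball0 {G X : Type} [Group G] [MulAction G X] {S : Finset G} (y : X) :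
    (ball S y 0).card ≤ 1 := by
  unfold ball
  rw [pow_zero]
  exact Finset.card_image_le

theorem POLY_FG {G : Type} [Group G] {S : Finset G} (h : Gen S) : Group.FG G := by
  refine ⟨⟨S, ?_⟩⟩
  rw [eq_top_iff]
  intro g _
  obtain ⟨m, hm⟩ := h.gen g
  have key : ∀ (m : ℕ) (g : G), g ∈ S ^ m → g ∈ Subgroup.closure (S : Set G) := by
    intro m
    induction m with
    | zero =>
      intro g hg
      rw [pow_zero, Finset.mem_one] at hg
      rw [hg]
      exact Subgroup.one_mem _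
    | succ m ih =>
      intro g hg
      rw [pow_succ', Finset.mem_mul] at hg
      obtain ⟨s, hs, g, hg, rfl⟩ := hg
      exact Subgroup.mul_mem _ (Subgroup.subset_closure hs) (ih g hg)
  exact key m g hm

/-- the statement with abstract data -/
theorem POLY_core (hFV : QLN.RowFV) {G X F : Type} [Group G] [MulAction G X]
    [MulAction.IsPretransitive G X] [CommGroup F] [Fintype F] {S : Finset G} {n C : ℕ}
    (hS : Gen S) (hn : 0 < n) (hexp : ∀ a : G, a ^ n = 1)
    {B : Finset X} (hball : ∀ y ∈ B, ∀ m : ℕ, (ball S y m).card ≤ (C + 1) * (m + 1))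
    (hF2 : ∀ a : F, a⁻¹ = a) (hFc : S.card ≤ Fintype.card F)
    (hfix : ∀ h : G, (∀ y ∈ B, h • y = y) → ∀ x : X, h • x = x) {f : X → ℝ} (hH : Harm S f) :
    False := by
  obtain ⟨hlip, hharm, a₀, b₀, hne⟩ := hH
  have hA' : ∀ m : ℕ, ∃ A : Finset F, 1 ≤ m → m ≤ Fintype.card F → (1 : F) ∈ A ∧ A.card = m := by
    intro m
    by_cases hm : 1 ≤ m ∧ m ≤ Fintype.card F
    · obtain ⟨u, h1, _, h3⟩ := Finset.exists_subsuperset_card_eq
        (Finset.subset_univ ({1} : Finset F)) (n := m) (by rw [Finset.card_singleton]; exact hm.1)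
        (by rw [Finset.card_univ]; exact hm.2)
      exact ⟨u, fun _ _ => ⟨h1 (Finset.mem_singleton_self _), h3⟩⟩
    · exact ⟨∅, fun h1 h2 => absurd ⟨h1, h2⟩ hm⟩
  choose A hA using hA'
  -- the functions
  set v : X → POLYQ G X × F → ℝ := fun y z => f ((z.1 : Equiv.Perm X) y) with hv
  have hstep : ∀ (y : X) (m : ℕ) (g : G), g ∈ S ^ m → |f (g • y) - f y| ≤ m := by
    intro y m
    induction m with
    | zero =>
      intro g hg
      rw [pow_zero, Finset.mem_one] at hg
      rw [hg, one_smul]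
      simp
    | succ m ih =>
      intro g hg
      rw [pow_succ', Finset.mem_mul] at hg
      obtain ⟨s, hs, g, hg, rfl⟩ := hg
      have h1 := abs_le.1 (ih g hg)
      have h2 := abs_le.1 (hlip s hs (g • y))
      rw [mul_smul, abs_le]
      push_cast
      constructor <;> linarith [h1.1, h1.2, h2.1, h2.2]
  obtain ⟨D₀, hD₀⟩ := SCH.klein (POLYT X S A) (POLYT_one hS)
    (fun z hz => POLYT_inv hS hF2 hz) (fun z => POLYT_gen hS hFc hA z)
    ((C + 1) ^ B.card * Fintype.card F) B.card (fun m => by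
      have h1 := POLYT_growth (S := S) (A := A) hfix (m := m) (fun y hy => hball y hy m)
      have h2 : ((POLYT X S A ^ m).card : ℝ) ≤
          ((((C + 1) * (m + 1)) ^ B.card * Fintype.card F : ℕ) : ℝ) := by
        exact_mod_cast h1
      refine h2.trans (le_of_eq ?_)
      push_cast
      rw [mul_pow]
      ring)
  have hfin : FiniteDimensional ℝ (Submodule.span ℝ (Set.range v)) := by
    refine SCH.finDim_span v D₀ fun k y hy => hD₀ k _ hy
      (fun j => POLYT_harm hFc hA f hharm (y j)) fun j => ?_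
    refine ⟨|f (y j)| + 1, fun m z hz => ?_⟩
    obtain ⟨g, hg, hgz⟩ := POLYT_pow hz
    have h1 := hstep (y j) m g hg
    have h2 := abs_sub_abs_le_abs_sub (f (g • (y j))) (f (y j))
    have h3 := abs_nonneg (f (y j))
    have h4 : (0 : ℝ) ≤ m := by positivity
    change |f ((z.1 : Equiv.Perm X) (y j))| ≤ _
    rw [← hgz]
    change |f (g • (y j))| ≤ _
    nlinarith
  -- right translations
  let ρ : G →* Equiv.Perm (POLYQ G X × F) :=
    { toFun := fun g => Equiv.mulRight (((POLYh G X g)⁻¹, 1) : POLYQ G X × F)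
      map_one' := by
        refine Equiv.ext fun z => ?_
        rw [map_one, inv_one]
        exact mul_one z
      map_mul' := fun g g' => by
        refine Equiv.ext fun z => ?_
        have e : (((POLYh G X (g * g'))⁻¹, 1) : POLYQ G X × F) =
            ((POLYh G X g')⁻¹, 1) * ((POLYh G X g)⁻¹, 1) := by
          rw [Prod.mk_mul_mk, map_mul, mul_inv_rev, one_mul]
        change z * ((POLYh G X (g * g'))⁻¹, 1) =
          z * ((POLYh G X g')⁻¹, 1) * ((POLYh G X g)⁻¹, 1)
        rw [e, mul_assoc] }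
  have hρ : ∀ (g : G) (z : POLYQ G X × F), ρ g z = z * ((POLYh G X g)⁻¹, 1) :=
    fun g z => rfl
  have hρv : ∀ (g : G) (y : X) (z : POLYQ G X × F), v y (ρ g z) = v (g⁻¹ • y) z := by
    intro g y z
    rw [hρ]
    rfl
  have hinv : ∀ g, ∀ F' ∈ Submodule.span ℝ (Set.range v),
      (fun z => F' (ρ g z)) ∈ Submodule.span ℝ (Set.range v) := by
    intro g F' hF
    induction hF using Submodule.span_induction with
    | mem F' hF =>
      obtain ⟨y, rfl⟩ := hF
      refine Submodule.subset_span ⟨g⁻¹ • y, ?_⟩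
      funext z
      exact (hρv g y z).symm
    | zero => exact Submodule.zero_mem _
    | add a b _ _ ha hb => exact Submodule.add_mem _ ha hb
    | smul c a _ ha => exact Submodule.smul_mem _ c ha
  have hrange : (Set.range f).Finite := by
    have h1 := hFV G (POLYQ G X × F) ρ n hn hexp (POLY_FG hS) _ hfin hinv (v a₀)
      (Submodule.subset_span ⟨a₀, rfl⟩)
    refine (h1.image fun F' : POLYQ G X × F → ℝ => F' 1).subset ?_
    rintro _ ⟨x, rfl⟩
    obtain ⟨g, hg⟩ := MulAction.exists_smul_eq G a₀ x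
    refine ⟨_, ⟨g⁻¹, rfl⟩, ?_⟩
    change v a₀ (ρ g⁻¹ 1) = _
    rw [hρv, inv_inv, hg]
    rfl
  -- the maximum
  obtain ⟨_, ⟨x₁, rfl⟩, hmax⟩ := Set.exists_max_image _ id hrange ⟨_, ⟨a₀, rfl⟩⟩
  have hmax' : ∀ x, f x ≤ f x₁ := fun x => hmax _ ⟨x, rfl⟩
  have hconst : ∀ (m : ℕ) (g : G), g ∈ S ^ m → f (g • x₁) = f x₁ := by
    intro m
    induction m with
    | zero =>
      intro g hg
      rw [pow_zero, Finset.mem_one] at hg
      rw [hg, one_smul]
    | succ m ih =>
      intro g hg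
      rw [pow_succ', Finset.mem_mul] at hg
      obtain ⟨s, hs, g, hg, rfl⟩ := hg
      have hle : ∀ s ∈ S, f (s • g • x₁) - f (g • x₁) ≤ 0 := by
        intro s _
        rw [ih g hg, sub_nonpos]
        exact hmax' _
      have h1 := (Finset.sum_eq_zero_iff_of_nonpos hle).1 (hharm (g • x₁)) s hs
      rw [mul_smul]
      rw [ih g hg] at h1
      linarith
  have hall : ∀ y, f y = f x₁ := by
    intro y
    obtain ⟨g, hg⟩ := MulAction.exists_smul_eq G x₁ y
    obtain ⟨m, hm⟩ := hS.gen g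
    rw [← hg]
    exact hconst m g hm
  exact hne ((hall a₀).trans (hall b₀).symm)

/-- Row POLY, from the row FV of the library QLN. -/
theorem POLY_of_FV (hFV : QLN.RowFV) : RowPOLY := by
  intro G _ S n A hS hn hexp H x₁ hgr hHarm x₀ W
  obtain ⟨f, hf⟩ := hHarm
  by_contra hcon
  have hfix : ∀ h : G, (∀ y ∈ ball S x₀ W, h • y = y) → ∀ x : G ⧸ H, h • x = x := by
    intro h hh x
    by_contra hx
    exact hcon ⟨h, hh, x, hx⟩
  have hF2 : ∀ a : Multiplicative ({x // x ∈ S} → ZMod 2), a⁻¹ = a := by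
    intro a
    have h1 : ∀ u : ZMod 2, -u = u := by decide
    have h2 : -(Multiplicative.toAdd a) = Multiplicative.toAdd a := funext fun i => h1 _
    exact h2
  have hFc : S.card ≤ Fintype.card (Multiplicative ({x // x ∈ S} → ZMod 2)) := by
    rw [Fintype.card_multiplicative, Fintype.card_fun, ZMod.card, Fintype.card_coe]
    exact Nat.lt_two_pow_self.le
  have hball : ∀ y ∈ ball S x₀ W, ∀ m : ℕ,
      (ball S y m).card ≤ ((A * (dst S x₁ x₀ + W + 1)) + 1) * (m + 1) := by
    intro y hy m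
    have h1 := (mem_ball hS _ _ _).1 hy
    have h2 := dst_triangle hS x₁ x₀ y
    have h3 : ball S y m ⊆ ball S x₁ (dst S x₁ x₀ + W + m) := bas_subset hS (by omega)
    have h4 := (Finset.card_le_card h3).trans (hgr _)
    refine h4.trans ?_
    have h5 : A * (dst S x₁ x₀ + W + m + 1) ≤ A * ((dst S x₁ x₀ + W + 1) * (m + 1)) := by
      apply Nat.mul_le_mul_left
      nlinarith [Nat.zero_le ((dst S x₁ x₀ + W) * m)]
    calc A * (dst S x₁ x₀ + W + m + 1) ≤ A * ((dst S x₁ x₀ + W + 1) * (m + 1)) := h5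
      _ = A * (dst S x₁ x₀ + W + 1) * (m + 1) := by ring
      _ ≤ _ := by nlinarith
  exact POLY_core hFV hS hn hexp hball hF2 hFc hfix hf

/-- Row POLY. -/
theorem rowPOLY : RowPOLY := POLY_of_FV (QLN.rowFV QLN.rowLIN)

end

end Pool.Agent.LGU
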