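/-
Row UNIF (helper82): the uniform form of the theorem on Schreier graphs of linear growth.
-/
import Pool.Agent.Lib.LGU.GR
import Pool.Agent.Lib.LGU.Bas

set_option autoImplicit false

namespace Pool.Agent.LGU

open scoped Pointwise
open Classical

noncomputable section

/-- the free group of rank `m` modulo all `n`-th powers -/
abbrev UNIF_N (m n : ℕ) : Subgroup (FreeGroup (Fin m)) :=
  Subgroup.normalClosure (Set.range fun a : FreeGroup (Fin m) => a ^ n)

/-- the free Burnside group -/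
def UNIF_B (m n : ℕ) : Type := FreeGroup (Fin m) ⧸ UNIF_N m n

instance UNIF_grp (m n : ℕ) : Group (UNIF_B m n) :=
  inferInstanceAs (Group (FreeGroup (Fin m) ⧸ UNIF_N m n))

/-- the projection -/
def UNIF_mk (m n : ℕ) : FreeGroup (Fin m) →* UNIF_B m n := QuotientGroup.mk' (UNIF_N m n)

theorem UNIF_mk_surj (m n : ℕ) : Function.Surjective (UNIF_mk m n) :=
  QuotientGroup.mk'_surjective _

/-- its generators -/
def UNIF_x (m n : ℕ) (j : Fin m) : UNIF_B m n := UNIF_mk m n (FreeGroup.of j)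

/-- the generating set -/
def UNIF_S (m n : ℕ) : Finset (UNIF_B m n) :=
  insert 1 (Finset.univ.image (UNIF_x m n) ∪ Finset.univ.image fun j => (UNIF_x m n j)⁻¹)

theorem UNIF_mem {m n : ℕ} {s : UNIF_B m n} : s ∈ UNIF_S m n ↔
    s = 1 ∨ (∃ j, UNIF_x m n j = s) ∨ ∃ j, (UNIF_x m n j)⁻¹ = s := by
  simp [UNIF_S]

theorem UNIF_exp (m n : ℕ) (q : UNIF_B m n) : q ^ n = 1 := by
  obtain ⟨a, rfl⟩ := UNIF_mk_surj m n q
  rw [← map_pow]
  exact (QuotientGroup.eq_one_iff (N := UNIF_N m n) _).2 (Subgroup.subset_normalClosure ⟨a, rfl⟩)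

theorem UNIF_closure (m n : ℕ) : Subgroup.closure (Set.range (UNIF_x m n)) = ⊤ := by
  have h1 : Set.range (UNIF_x m n) = (UNIF_mk m n) '' Set.range FreeGroup.of := by
    rw [← Set.range_comp]
    rfl
  rw [h1, ← MonoidHom.map_closure, FreeGroup.closure_range_of, ← MonoidHom.range_eq_map]
  exact MonoidHom.range_eq_top.2 (UNIF_mk_surj m n)

theorem UNIF_gen (m n : ℕ) : Gen (UNIF_S m n) where
  one := UNIF_mem.2 (Or.inl rfl)
  inv := by
    intro s hs
    rcases UNIF_mem.1 hs with rfl | ⟨j, rfl⟩ | ⟨j, rfl⟩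
    · exact UNIF_mem.2 (Or.inl inv_one)
    · exact UNIF_mem.2 (Or.inr (Or.inr ⟨j, rfl⟩))
    · exact UNIF_mem.2 (Or.inr (Or.inl ⟨j, (inv_inv _).symm⟩))
  gen := by
    intro g
    have hg : g ∈ Subgroup.closure (Set.range (UNIF_x m n)) := by rw [UNIF_closure]; trivial
    induction hg using Subgroup.closure_induction'' with
    | mem x hx =>
      obtain ⟨j, rfl⟩ := hx
      exact ⟨1, by rw [pow_one]; exact UNIF_mem.2 (Or.inr (Or.inl ⟨j, rfl⟩))⟩
    | inv_mem x hx =>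
      obtain ⟨j, rfl⟩ := hx
      exact ⟨1, by rw [pow_one]; exact UNIF_mem.2 (Or.inr (Or.inr ⟨j, rfl⟩))⟩
    | one => exact ⟨0, by simp⟩
    | mul x y _ _ ihx ihy =>
      obtain ⟨a, ha⟩ := ihx
      obtain ⟨b, hb⟩ := ihy
      exact ⟨a + b, by rw [pow_add]; exact Finset.mul_mem_mul ha hb⟩

section

variable {m n : ℕ} {G : Type*} [Group G] (e : Fin m → G)

theorem UNIF_lift (hexp : ∀ a : G, a ^ n = 1) :
    ∃ φ : UNIF_B m n →* G, ∀ j, φ (UNIF_x m n j) = e j := by
  have h1 : UNIF_N m n ≤ (FreeGroup.lift e).ker := by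
    refine Subgroup.normalClosure_le_normal ?_
    rintro _ ⟨a, rfl⟩
    change a ^ n ∈ (FreeGroup.lift e).ker
    rw [MonoidHom.mem_ker, map_pow, hexp]
  let φ : UNIF_B m n →* G := QuotientGroup.lift (UNIF_N m n) (FreeGroup.lift e) h1
  refine ⟨φ, fun j => ?_⟩
  change QuotientGroup.lift (UNIF_N m n) (FreeGroup.lift e) h1 (QuotientGroup.mk (FreeGroup.of j)) = _
  rw [QuotientGroup.lift_mk, FreeGroup.lift_apply_of]

theorem UNIF_surj (hgen : Subgroup.closure (Set.range e) = ⊤) (φ : UNIF_B m n →* G)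
    (hφ : ∀ j, φ (UNIF_x m n j) = e j) : Function.Surjective φ := by
  rw [← MonoidHom.range_eq_top, eq_top_iff, ← hgen, Subgroup.closure_le]
  rintro _ ⟨j, rfl⟩
  exact ⟨UNIF_x m n j, hφ j⟩

variable {X : Type*} [MulAction G X]

theorem UNIF_within (φ : UNIF_B m n →* G) (hφ : ∀ j, φ (UNIF_x m n j) = e j) (k : ℕ) :
    ∀ (u : UNIF_B m n) (y : X), u ∈ UNIF_S m n ^ k → QLN.Within (Set.range e) k y (φ u • y) := by
  induction k with
  | zero =>
    intro u y hu
    rw [pow_zero, Finset.mem_one] at hu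
    rw [hu, map_one, one_smul]
    rfl
  | succ k ih =>
    intro u y hu
    rw [pow_succ', Finset.mem_mul] at hu
    obtain ⟨s, hs, v, hv, rfl⟩ := hu
    refine ⟨φ v • y, ih v y hv, ?_⟩
    rw [map_mul, mul_smul]
    rcases UNIF_mem.1 hs with rfl | ⟨j, rfl⟩ | ⟨j, rfl⟩
    · left
      rw [map_one, one_smul]
    · right
      exact ⟨e j, ⟨j, rfl⟩, Or.inl (by rw [hφ])⟩
    · right
      refine ⟨e j, ⟨j, rfl⟩, Or.inr ?_⟩
      rw [map_inv, hφ, smul_inv_smul]

theorem UNIF_mono {S : Set G} {x y : X} {a b : ℕ} (hab : a ≤ b) (h : QLN.Within S a x y) :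
    QLN.Within S b x y := by
  induction hab with
  | refl => exact h
  | step _ ih => exact ⟨y, ih, Or.inl rfl⟩

end

/-- **Row UNIF** -/
theorem rowUNIF.{w, z} : RowUNIF.{w, z} := by
  intro hmain m n C hn
  have hS := UNIF_gen m n
  obtain ⟨R₀, hR₀⟩ := hmain (UNIF_B m n) (UNIF_S m n) n (3 * C) hS hn (UNIF_exp m n)
  refine ⟨2 * R₀ + 4, ?_⟩
  intro G X _ _ e hgen hexp x r hr
  by_contra hcon
  push Not at hcon
  obtain ⟨⟨y, hy, hyn⟩, hle⟩ := hcon
  obtain ⟨φ, hφ⟩ := UNIF_lift (n := n) e hexp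
  obtain ⟨H, hHdef⟩ : ∃ H : Subgroup (UNIF_B m n), H = (MulAction.stabilizer G x).comap φ := ⟨_, rfl⟩
  have hH : ∀ u v : UNIF_B m n, u • bp H = v • bp H ↔ φ u • x = φ v • x := by
    intro u v
    have h1 : u • bp H = v • bp H ↔ u⁻¹ * v ∈ H := by
      rw [MulAction.Quotient.smul_coe, MulAction.Quotient.smul_coe, smul_eq_mul, smul_eq_mul,
        mul_one, mul_one]
      exact QuotientGroup.eq
    rw [h1, hHdef, Subgroup.mem_comap, MulAction.mem_stabilizer_iff, map_mul, map_inv, mul_smul,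
      inv_smul_eq_iff]
    exact eq_comm
  have hbp : ∀ y : UNIF_B m n ⧸ H, ∃ u : UNIF_B m n, u • bp H = y := fun y =>
    MulAction.exists_smul_eq _ _ _
  have hcard : ((ball (UNIF_S m n) (bp H) r).card : ℕ∞) ≤
        {z | QLN.Within (Set.range e) r x z}.encard := by
    choose f hf using hbp
    rw [← Set.encard_coe_eq_coe_finsetCard]
    refine Set.encard_le_encard_of_injOn (f := fun y => φ (f y) • x) ?_ ?_
    · intro y hy
      obtain ⟨g, hg, rfl⟩ := (mem_ball_iff' _ _ _).1 (Finset.mem_coe.1 hy)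
      change QLN.Within (Set.range e) r x (φ (f (g • bp H)) • x)
      rw [(hH _ _).1 (hf (g • bp H))]
      exact UNIF_within e φ hφ r g _ hg
    · intro y _ y' _ h
      have h1 := (hH _ _).2 h
      rw [hf, hf] at h1
      exact h1
  obtain ⟨g, rfl⟩ := hy
  obtain ⟨u, rfl⟩ := UNIF_surj e hgen φ hφ g
  have hfar : r < dst (UNIF_S m n) (bp H) (u • bp H) := by
    by_contra hc
    push Not at hc
    obtain ⟨v, hv, hvu⟩ := (mem_ball_iff' _ _ _).1 ((mem_ball hS (bp H) (u • bp H) r).2 hc)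
    apply hyn
    have h1 := UNIF_within e φ hφ r v x hv
    rw [(hH _ _).1 hvu] at h1
    exact h1
  obtain ⟨γ, hγ, hγ0⟩ := gr_geo hS (r / 2) (bp H) (u • bp H) (by omega)
  have h1 := hR₀ (r / 2) (by omega) H γ hγ
  have h2 : dst (UNIF_S m n) (bp H) (γ 0) ≤ r / 2 := by
    have h3 := hγ (-((r / 2 : ℕ) : ℤ)) 0 le_rfl (by omega) (by omega)
    rw [hγ0] at h3
    omega
  have h3 : ball (UNIF_S m n) (γ 0) (r / 2) ⊆ ball (UNIF_S m n) (bp H) r :=
    bas_subset hS (by omega)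
  have h4 := Finset.card_le_card h3
  have h5 : (ball (UNIF_S m n) (bp H) r).card ≤ C * r := by
    have := hcard.trans hle
    exact_mod_cast this
  have h6 : C * r ≤ 3 * C * (r / 2) := by
    have h7 : r ≤ 3 * (r / 2) := by omega
    calc C * r ≤ C * (3 * (r / 2)) := Nat.mul_le_mul_left C h7
      _ = 3 * C * (r / 2) := by ring
  omega

end

end Pool.Agent.LGU
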