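/-
Superlinear growth of Schreier graphs of groups of bounded exponent: the theorem.
-/
import Pool.Agent.Lib.LGU.Main
import Pool.Agent.Lib.LGU.GR
import Pool.Agent.Lib.LGU.GP
import Pool.Agent.Lib.LGU.LIM
import Pool.Agent.Lib.LGU.MOVE
import Pool.Agent.Lib.LGU.SUB2
import Pool.Agent.Lib.LGU.LINE4
import Pool.Agent.Lib.LGU.EXA2
import Pool.Agent.Lib.LGU.EXB2
import Pool.Agent.Lib.LGU.HARM2
import Pool.Agent.Lib.LGU.POLY
import Pool.Agent.Lib.LGU.INA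
import Pool.Agent.Lib.LGU.INB3
import Pool.Agent.Lib.LGU.LEFT3
import Pool.Agent.Lib.LGU.CLAIM2
import Pool.Agent.Lib.LGU.PAIR
import Pool.Agent.Lib.LGU.HALF
import Pool.Agent.Lib.LGU.ENDA
import Pool.Agent.Lib.LGU.ENDB2
import Pool.Agent.Lib.LGU.UNIF
import Pool.Agent.Lib.QLN.FLOW
import Pool.Agent.Lib.QLN.FLOWI
import Pool.Agent.Lib.QLN.LIMH

set_option autoImplicit false

namespace Pool.Agent.LGU

theorem unif.{w, z} (m n C : ℕ) (hn : 0 < n) : ∃ R : ℕ, ∀ (G : Type w) (X : Type z) [Group G]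
    [MulAction G X] (e : Fin m → G), Subgroup.closure (Set.range e) = ⊤ → (∀ a : G, a ^ n = 1) →
      ∀ (x : X) (r : ℕ), R ≤ r → (∀ y ∈ MulAction.orbit G x, QLN.Within (Set.range e) r x y) ∨
        ((C * r : ℕ) : ℕ∞) < {z | QLN.Within (Set.range e) r x z}.encard :=
  rowUNIF.{w, z} (fun G _ S n C hS hn hexp =>
    main_of rowGR (rowEXA' rowLIM rowGP) (rowEXB' rowLIM)
      (rowHARM' rowLINE'' (QLN.rowFLOWI QLN.rowFLOW) QLN.rowLIMH) rowPOLY
      (rowINB3 rowINA rowLINE'' rowSUB' (rowMOVE rowGP))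
      (rowCLAIM' (rowLEFT'' rowLINE'') (rowMOVE rowGP) rowSUB' rowLINE'')
      (rowPAIR rowLIM) (rowHALF rowLINE'' rowSUB') (rowENDA rowLINE'' rowENDB')
      G S n C hS hn hexp) m n C hn

end Pool.Agent.LGU
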