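/-
Closure properties of locally finite groups.
-/
import Mathlib

set_option autoImplicit false

namespace Pool.Agent.LGU

/-- all finitely generated subgroups are finite -/
def LF (G : Type*) [Group G] : Prop :=
  ∀ T : Finset G, ((Subgroup.closure (T : Set G) : Subgroup G) : Set G).Finite

theorem lf_fg {G : Type*} [Group G] (h : LF G) (K : Subgroup G) (hK : K.FG) : Finite K := by
  obtain ⟨T, rfl⟩ := hK
  exact (h T).to_subtype

theorem lf_of {G : Type*} [Group G] (h : ∀ K : Subgroup G, K.FG → Finite K) : LF G := by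
  intro T
  have := h (Subgroup.closure (T : Set G)) ⟨T, rfl⟩
  exact Set.toFinite _

theorem lf_map {G H : Type*} [Group G] [Group H] (f : G →* H) {K : Subgroup G} (hK : K.FG) :
    (K.map f).FG := by
  classical
  obtain ⟨T, rfl⟩ := hK
  exact ⟨T.image f, by rw [MonoidHom.map_closure, Finset.coe_image]⟩

theorem lf_of_injective {G H : Type*} [Group G] [Group H] (f : G →* H)
    (hf : Function.Injective f) (h : LF H) : LF G := by
  apply lf_of
  intro K hK
  have h1 : Finite (K.map f) := lf_fg h (K.map f) (lf_map f hK)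
  exact Finite.of_injective (fun x : K => (⟨f x, Subgroup.mem_map_of_mem f x.2⟩ : K.map f))
    fun x y hxy => Subtype.ext (hf (congrArg Subtype.val hxy))

theorem lf_comm {G : Type*} [CommGroup G] {n : ℕ} (hn : 0 < n) (hexp : ∀ g : G, g ^ n = 1) :
    LF G := by
  apply lf_of
  intro K hK
  have : Group.FG K := (Group.fg_iff_subgroup_fg K).2 hK
  exact CommGroup.finite_of_fg_torsion K fun x => by
    rw [isOfFinOrder_iff_pow_eq_one]
    exact ⟨n, hn, Subtype.ext (by rw [Subgroup.coe_pow]; exact hexp x)⟩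

theorem lf_ext {G : Type*} [Group G] (N : Subgroup G) [N.Normal] (h1 : LF N) (h2 : LF (G ⧸ N)) :
    LF G := by
  apply lf_of
  intro K hK
  have hfg : Group.FG K := (Group.fg_iff_subgroup_fg K).2 hK
  -- the image in the quotient
  let f : K →* G ⧸ N := (QuotientGroup.mk' N).comp K.subtype
  have hr : Finite f.range := by
    apply lf_fg h2
    rw [MonoidHom.range_eq_map]
    exact lf_map f hfg.out
  have hker : (f.ker).FiniteIndex := by
    have h3 : Finite (K ⧸ f.ker) :=
      Finite.of_equiv _ (QuotientGroup.quotientKerEquivRange f).symm.toEquiv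
    exact Subgroup.finiteIndex_of_finite_quotient
  have hkfg : Group.FG f.ker := inferInstance
  -- the kernel embeds in N
  have hkf : Finite f.ker := by
    have hmem : ∀ x : f.ker, ((x : K) : G) ∈ N := by
      intro x
      have h3 : f x = 1 := x.2
      exact (QuotientGroup.eq_one_iff (N := N) ((x : K) : G)).1 h3
    let j : f.ker →* N :=
      { toFun := fun x => ⟨((x : K) : G), hmem x⟩
        map_one' := rfl
        map_mul' := fun x y => rfl }
    have hj : Function.Injective j := fun x y hxy =>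
      Subtype.ext (Subtype.ext (congrArg (fun z : N => (z : G)) hxy))
    have h3 : LF f.ker := lf_of_injective j hj h1
    have h4 : Finite (⊤ : Subgroup f.ker) := lf_fg h3 ⊤ hkfg.out
    exact Finite.of_equiv _ Subgroup.topEquiv.toEquiv
  have h3 : Finite (K ⧸ f.ker) :=
    Finite.of_equiv _ (QuotientGroup.quotientKerEquivRange f).symm.toEquiv
  exact Finite.of_equiv _ (Subgroup.groupEquivQuotientProdSubgroup (s := f.ker)).symm

theorem lf_union {G : Type*} [Group G] (𝒮 : Set (Subgroup G)) (hne : 𝒮.Nonempty)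
    (hdir : DirectedOn (· ≤ ·) 𝒮) (hcov : ∀ g : G, ∃ K ∈ 𝒮, g ∈ K) (h : ∀ K ∈ 𝒮, LF K) :
    LF G := by
  intro T
  have key : ∃ K ∈ 𝒮, (T : Set G) ⊆ K := by
    classical
    induction T using Finset.induction_on with
    | empty =>
      obtain ⟨K, hK⟩ := hne
      exact ⟨K, hK, by simp⟩
    | insert a T _ ih =>
      obtain ⟨K₁, hK₁, h1⟩ := ih
      obtain ⟨K₂, hK₂, h2⟩ := hcov a
      obtain ⟨K, hK, h3, h4⟩ := hdir K₁ hK₁ K₂ hK₂
      refine ⟨K, hK, ?_⟩
      rw [Finset.coe_insert, Set.insert_subset_iff]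
      exact ⟨h4 h2, h1.trans h3⟩
  obtain ⟨K, hK, hT⟩ := key
  have h1 : Subgroup.closure (T : Set G) ≤ K := (Subgroup.closure_le K).2 hT
  have h2 : LF (Subgroup.closure (T : Set G)) :=
    lf_of_injective (Subgroup.inclusion h1) (Subgroup.inclusion_injective h1) (h K hK)
  have hfg : Group.FG (Subgroup.closure (T : Set G)) :=
    (Group.fg_iff_subgroup_fg _).2 ⟨T, rfl⟩
  have h4 : Finite (⊤ : Subgroup (Subgroup.closure (T : Set G))) := lf_fg h2 ⊤ hfg.out
  have h5 : Finite (Subgroup.closure (T : Set G)) :=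
    Finite.of_equiv _ Subgroup.topEquiv.toEquiv
  exact Set.toFinite _

/-- all subgroups of bounded exponent are locally finite -/
def SLF (G : Type*) [Group G] : Prop :=
  ∀ (K : Subgroup G) (n : ℕ), 0 < n → (∀ k ∈ K, k ^ n = 1) → LF K

theorem slf_iso {G H : Type*} [Group G] [Group H] (f : G ≃* H) (h : SLF G) : SLF H := by
  intro K n hn hexp
  have h1 : LF (K.comap f.toMonoidHom) := h _ n hn fun k hk => by
    apply f.injective
    rw [map_pow, map_one]
    exact hexp _ hk
  let j : K →* K.comap f.toMonoidHom :=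
    { toFun := fun x => ⟨f.symm x, by
        change f (f.symm x) ∈ K
        rw [MulEquiv.apply_symm_apply]
        exact x.2⟩
      map_one' := Subtype.ext (map_one f.symm)
      map_mul' := fun x y => Subtype.ext (map_mul f.symm (x : H) y) }
  exact lf_of_injective j (fun x y hxy =>
    Subtype.ext (f.symm.injective (congrArg Subtype.val hxy))) h1

theorem slf_comm {G : Type*} [CommGroup G] : SLF G := by
  intro K n hn hexp
  exact lf_comm hn fun g => Subtype.ext (hexp g g.2)

theorem slf_fin {G : Type*} [Group G] [Finite G] : SLF G := by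
  intro K n hn hexp
  exact fun T => Set.toFinite _

theorem slf_sub {G : Type*} [Group G] (H : Subgroup G) (h : SLF G) : SLF H := by
  intro K n hn hexp
  have h1 : LF (K.map H.subtype) := h _ n hn (by
    rintro _ ⟨k, hk, rfl⟩
    have := hexp k hk
    rw [← map_pow, this, map_one])
  let j : K →* K.map H.subtype :=
    { toFun := fun x => ⟨H.subtype x, Subgroup.mem_map_of_mem H.subtype x.2⟩
      map_one' := rfl
      map_mul' := fun x y => rfl }
  exact lf_of_injective j (fun x y hxy => Subtype.ext (Subtype.ext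
    (congrArg (fun z : K.map H.subtype => (z : G)) hxy))) h1

theorem slf_ext {G : Type*} [Group G] (N : Subgroup G) [N.Normal] (h1 : SLF N)
    (h2 : SLF (G ⧸ N)) : SLF G := by
  intro K n hn hexp
  let f : K →* G ⧸ N := (QuotientGroup.mk' N).comp K.subtype
  have hr : LF f.range := h2 _ n hn (by
    rintro _ ⟨k, rfl⟩
    rw [← map_pow, show k ^ n = 1 from Subtype.ext (hexp k k.2), map_one])
  have hk : LF f.ker := by
    have h3 : LF (K.subgroupOf N) := h1 _ n hn fun k hk => Subtype.ext (hexp k hk)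
    have hmem : ∀ x : f.ker, ((x : K) : G) ∈ N := by
      intro x
      have h4 : f x = 1 := x.2
      exact (QuotientGroup.eq_one_iff (N := N) ((x : K) : G)).1 h4
    let j : f.ker →* K.subgroupOf N :=
      { toFun := fun x => ⟨⟨((x : K) : G), hmem x⟩, (x : K).2⟩
        map_one' := rfl
        map_mul' := fun x y => rfl }
    exact lf_of_injective j (fun x y hxy => Subtype.ext (Subtype.ext
      (congrArg (fun z : K.subgroupOf N => ((z : N) : G)) hxy))) h3
  exact lf_ext f.ker hk (lf_of_injective (QuotientGroup.quotientKerEquivRange f).toMonoidHom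
    (QuotientGroup.quotientKerEquivRange f).injective hr)

theorem slf_union {G : Type*} [Group G] (𝒮 : Set (Subgroup G)) (hne : 𝒮.Nonempty)
    (hdir : DirectedOn (· ≤ ·) 𝒮) (hcov : ∀ g : G, ∃ K ∈ 𝒮, g ∈ K) (h : ∀ K ∈ 𝒮, SLF K) :
    SLF G := by
  intro K n hn hexp
  refine lf_union ((fun L : Subgroup G => L.subgroupOf K) '' 𝒮) (hne.image _) ?_ ?_ ?_
  · rintro _ ⟨L₁, h1, rfl⟩ _ ⟨L₂, h2, rfl⟩
    obtain ⟨L, hL, h3, h4⟩ := hdir L₁ h1 L₂ h2
    exact ⟨_, ⟨L, hL, rfl⟩, fun x hx => h3 hx, fun x hx => h4 hx⟩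
  · intro g
    obtain ⟨L, hL, hg⟩ := hcov g
    exact ⟨_, ⟨L, hL, rfl⟩, hg⟩
  · rintro _ ⟨L, hL, rfl⟩
    have h3 : LF (K.subgroupOf L) := h L hL _ n hn fun k hk => Subtype.ext (hexp k hk)
    let j : L.subgroupOf K →* K.subgroupOf L :=
      { toFun := fun x => ⟨⟨((x : K) : G), x.2⟩, (x : K).2⟩
        map_one' := rfl
        map_mul' := fun x y => rfl }
    exact lf_of_injective j (fun x y hxy => Subtype.ext (Subtype.ext
      (congrArg (fun z : K.subgroupOf L => ((z : L) : G)) hxy))) h3

end Pool.Agent.LGU
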