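/-
Subgroups of bounded exponent of groups of linear type.
-/
import Pool.Agent.Lib.LGU.All
import Pool.Agent.Lib.LGU.Cls
import Pool.Agent.Lib.QLN.Card

set_option autoImplicit false

namespace Pool.Agent.LGU

open Pool.Agent.SCH

/-- balls of a finitely generated subgroup -/
theorem lin_ball {G X : Type*} [Group G] [MulAction G X] {m : ℕ} (e : Fin m → G)
    (hgen : Subgroup.closure (Set.range e) = ⊤) {K : Subgroup G} {m' : ℕ} (e' : Fin m' → K) :
    ∃ l : ℕ, 1 ≤ l ∧ ∀ (x : X) (r : ℕ),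
      QLN.ball (QLN.sig X e') x r ⊆ QLN.ball (QLN.sig X e) x (l * r) := by
  choose u hu using fun i : Fin m' × Bool => QLN.exists_word e hgen ((QLN.gl e' i : K) : G)
  refine ⟨(∑ i : Fin m' × Bool, (u i).length) + 1, by omega, fun x r => ?_⟩
  set l : ℕ := (∑ i : Fin m' × Bool, (u i).length) + 1 with hl
  have hle : ∀ i, (u i).length ≤ l := fun i =>
    (Finset.single_le_sum (f := fun i => (u i).length) (fun _ _ => Nat.zero_le _)
      (Finset.mem_univ i)).trans (Nat.le_succ _)
  have key : ∀ w : List (Fin m' × Bool), ∃ w' : List (Fin m × Bool), w'.length ≤ l * w.length ∧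
      wd (QLN.sig X e) w' x = wd (QLN.sig X e') w x := by
    intro w
    induction w with
    | nil => exact ⟨[], by simp, by simp [wd_nil]⟩
    | cons i w ih =>
      obtain ⟨w', h1, h2⟩ := ih
      refine ⟨u i ++ w', ?_, ?_⟩
      · rw [List.length_append, List.length_cons, mul_add, mul_one]
        have := hle i
        omega
      · rw [wd_append, Equiv.Perm.mul_apply, h2, wd_cons, Equiv.Perm.mul_apply, QLN.wd_sig, hu,
          QLN.sig_gl]
        rfl
  rintro y ⟨w, hw, rfl⟩
  obtain ⟨w', h1, h2⟩ := key w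
  exact ⟨w', h1.trans (Nat.mul_le_mul_left l hw), h2⟩

theorem lin_fg.{u, v} {G : Type u} {X : Type v} [Group G] [MulAction G X]
    (hf : ∀ g h : G, (∀ x : X, g • x = h • x) → g = h) {m : ℕ} (e : Fin m → G)
    (hgen : Subgroup.closure (Set.range e) = ⊤) (C : ℕ)
    (hC : ∀ R : ℕ, ∃ r : ℕ, R ≤ r ∧ ∀ x : X,
      (QLN.ball (QLN.sig X e) x r).encard ≤ ((C * r : ℕ) : ℕ∞)) (K : Subgroup G) (hK : K.FG)
    {n : ℕ} (hn : 0 < n) (hexp : ∀ k : K, k ^ n = 1) : Finite K := by
  classical
  obtain ⟨T, hT⟩ := ((Group.fg_iff_subgroup_fg K).2 hK).out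
  let m' := T.card
  let e' : Fin m' → K := fun i => (T.equivFin.symm i : K)
  have hr : Set.range e' = (T : Set K) := by
    ext x
    constructor
    · rintro ⟨i, rfl⟩
      exact (T.equivFin.symm i).2
    · intro hx
      exact ⟨T.equivFin ⟨x, hx⟩, by simp [e']⟩
  have hgen' : Subgroup.closure (Set.range e') = ⊤ := by rw [hr]; exact hT
  obtain ⟨l, hl, hball⟩ := lin_ball (X := X) e hgen e'
  obtain ⟨R, hR⟩ := unif.{u, v} m' n (2 * C * l) hn
  obtain ⟨r, hr, hrC⟩ := hC (l * (R + 1))
  have h1 : R + 1 ≤ r / l := by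
    rw [Nat.le_div_iff_mul_le (by omega)]
    rwa [mul_comm]
  have h2 : l * (r / l) ≤ r := Nat.mul_div_le r l
  have h3 : r < l * (r / l) + l := by
    have := Nat.lt_mul_div_succ r (show 0 < l by omega)
    rwa [mul_add, mul_one] at this
  have hfK : FaithfulSMul K X := by
    constructor
    intro a b hab
    exact Subtype.ext (hf a b fun x => hab x)
  refine (QLN.card_of_bounded (X := X) e' hgen' (N := 2 * C * l * (r / l)) fun x => ?_).1
  have hbig : {z | QLN.Within (Set.range e') (r / l) x z}.encard ≤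
      ((2 * C * l * (r / l) : ℕ) : ℕ∞) := by
    have h4 : {z | QLN.Within (Set.range e') (r / l) x z} ⊆ QLN.ball (QLN.sig X e) x r := by
      intro z hz
      have h5 := hball x (r / l) ((QLN.within_iff e').1 hz)
      obtain ⟨w, hw, hwz⟩ := h5
      exact ⟨w, hw.trans h2, hwz⟩
    refine (Set.encard_le_encard h4).trans ((hrC x).trans ?_)
    have h6 : C * r ≤ 2 * C * l * (r / l) := by
      have h7 : r ≤ 2 * (l * (r / l)) := by nlinarith
      calc C * r ≤ C * (2 * (l * (r / l))) := Nat.mul_le_mul_left C h7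
        _ = 2 * C * l * (r / l) := by ring
    exact_mod_cast h6
  rcases hR K X e' hgen' hexp x (r / l) (by omega) with h | h
  · exact (Set.encard_le_encard fun z hz => h z hz).trans hbig
  · exact absurd h (not_lt.2 hbig)

theorem lin_lf.{u, v} {G : Type u} {X : Type v} [Group G] [MulAction G X]
    (hf : ∀ g h : G, (∀ x : X, g • x = h • x) → g = h) {m : ℕ} (e : Fin m → G)
    (hgen : Subgroup.closure (Set.range e) = ⊤) (C : ℕ)
    (hC : ∀ R : ℕ, ∃ r : ℕ, R ≤ r ∧ ∀ x : X,
      (QLN.ball (QLN.sig X e) x r).encard ≤ ((C * r : ℕ) : ℕ∞)) (K : Subgroup G)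
    {n : ℕ} (hn : 0 < n) (hexp : ∀ k ∈ K, k ^ n = 1) : LF K := by
  apply lf_of
  intro L hL
  have h1 : Finite (L.map K.subtype) := by
    refine lin_fg hf e hgen C hC _ (lf_map K.subtype hL) hn ?_
    rintro ⟨k, hk⟩
    obtain ⟨y, hy, rfl⟩ := hk
    exact Subtype.ext (hexp y y.2)
  exact Finite.of_injective (fun x : L => (⟨K.subtype x, Subgroup.mem_map_of_mem K.subtype x.2⟩ :
    L.map K.subtype)) fun x y hxy =>
      Subtype.ext (Subtype.ext (congrArg (fun z : L.map K.subtype => (z : G)) hxy))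

end Pool.Agent.LGU
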